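import Pool.Agent.Helper88.D4.Stmts

/-!
# Project D4: the torus weight of the volume form
-/

set_option autoImplicit false

namespace Pool.Agent.Helper38.W0

open Module Pool.Agent.Helper37.SD Pool.Agent.Helper20.TS Pool.Agent.Helper88.D4

variable {K : Type} [Field K] [Algebra ℂ K]

/-- Alternating, possibly zero. -/
structure Alt' (J : Bra K) : Prop where
  s1 : ∀ x y z w, J x z w y = -J y z w x
  s2 : ∀ y z w, J z y w = -J y z w
  s3 : ∀ y z w, J y w z = -J y z w

theorem self_zero {L : Type} [AddCommGroup L] [Module ℂ L] {x : L} (h : x = -x) : x = 0 := by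
  have h1 : (2 : ℂ) • x = 0 := by
    rw [two_smul]
    nth_rw 1 [h]
    exact neg_add_cancel x
  exact (smul_eq_zero.mp h1).resolve_left two_ne_zero

theorem der_self_zero {D : Derivation ℂ K K} (h : D = -D) : D = 0 := self_zero h

/-- An alternating bracket that vanishes at a frame is zero. -/
theorem zero_of_frame {J : Bra K} (hJ : Alt' J) (z : Fin 4 → K)
    (hz : ∀ E : Derivation ℂ K K, (∀ i, E (z i) = 0) → E = 0) (h0 : brk J z = 0) :
    ∀ x y w, J x y w = 0 := by
  have h0' : J (z 1) (z 2) (z 3) (z 0) = 0 := h0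
  have e12 : ∀ y w, J y y w = 0 := fun y w => der_self_zero (hJ.s2 y y w)
  have e23 : ∀ y w, J y w w = 0 := fun y w => der_self_zero (hJ.s3 y w w)
  have e01 : ∀ x z w, J x z w x = 0 := fun x z w => self_zero (hJ.s1 x x z w)
  have e02 : ∀ x y w, J y x w x = 0 := by
    intro x y w
    rw [hJ.s2 x y w, Derivation.neg_apply, e01, neg_zero]
  have e03 : ∀ x y w, J y w x x = 0 := by
    intro x y w
    rw [hJ.s3 y x w, Derivation.neg_apply, e02, neg_zero]
  have e13 : ∀ y w, J y w y = 0 := by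
    intro y w
    rw [hJ.s3 y y w, e12, neg_zero]
  -- three entries in the frame
  have a123 : J (z 1) (z 2) (z 3) = 0 := by
    apply hz
    intro i
    fin_cases i
    · exact h0'
    · exact e01 _ _ _
    · exact e02 _ _ _
    · exact e03 _ _ _
  have a023 : J (z 0) (z 2) (z 3) = 0 := by
    apply hz
    intro i
    fin_cases i
    · exact e01 _ _ _
    · exact (hJ.s1 (z 0) (z 1) (z 2) (z 3)).trans (by rw [h0', neg_zero])
    · exact e02 _ _ _
    · exact e03 _ _ _
  have a013 : J (z 0) (z 1) (z 3) = 0 := by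
    apply hz
    intro i
    fin_cases i
    · exact e01 _ _ _
    · exact e02 _ _ _
    · change J (z 0) (z 1) (z 3) (z 2) = 0
      rw [hJ.s2 (z 1) (z 0) (z 3), Derivation.neg_apply, hJ.s1 (z 1) (z 2) (z 0) (z 3),
        hJ.s2 (z 0) (z 2) (z 3), a023]
      simp
    · exact e03 _ _ _
  have a012 : J (z 0) (z 1) (z 2) = 0 := by
    apply hz
    intro i
    fin_cases i
    · exact e01 _ _ _
    · exact e02 _ _ _
    · exact e03 _ _ _
    · change J (z 0) (z 1) (z 2) (z 3) = 0
      rw [hJ.s3 (z 0) (z 2) (z 1), Derivation.neg_apply, hJ.s2 (z 2) (z 0) (z 1),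
        Derivation.neg_apply, hJ.s1 (z 2) (z 3) (z 0) (z 1), hJ.s2 (z 0) (z 3) (z 1),
        hJ.s3 (z 0) (z 1) (z 3), a013]
      simp
  have all3 : ∀ i j k, J (z i) (z j) (z k) = 0 := by
    intro i j k
    fin_cases i <;> fin_cases j <;> fin_cases k <;>
      simp only [Fin.zero_eta, Fin.mk_one, Fin.reduceFinMk, Fin.isValue] <;>
      first
        | exact e12 _ _
        | exact e23 _ _
        | exact e13 _ _
        | assumption
        | (rw [hJ.s2]; simp only [a123, a023, a013, a012, neg_zero])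
        | (rw [hJ.s3]; simp only [a123, a023, a013, a012, neg_zero])
        | (rw [hJ.s2, hJ.s3]; simp only [a123, a023, a013, a012, neg_zero])
        | (rw [hJ.s3, hJ.s2]; simp only [a123, a023, a013, a012, neg_zero])
        | (rw [hJ.s2, hJ.s3, hJ.s2]; simp only [a123, a023, a013, a012, neg_zero])
  have all2 : ∀ x j k, J x (z j) (z k) = 0 := by
    intro x j k
    apply hz
    intro i
    rw [hJ.s1 x (z i) (z j) (z k), all3]
    simp
  have all1 : ∀ x y k, J x y (z k) = 0 := by
    intro x y k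
    apply hz
    intro i
    rw [hJ.s2 y x (z k), Derivation.neg_apply]
    have h1 := hJ.s1 y (z i) x (z k)
    rw [h1, hJ.s2 x (z i) (z k), all2]
    simp
  intro x y w
  apply hz
  intro i
  rw [hJ.s3 x w y, Derivation.neg_apply, hJ.s2 w x y, Derivation.neg_apply]
  have h1 := hJ.s1 w (z i) x y
  rw [h1, hJ.s2 x (z i) y, hJ.s3 x y (z i), all1]
  simp

/-- The Lie derivative of a bracket. -/
noncomputable def lie (H : Derivation ℂ K K) (J : Bra K) : Bra K := fun y z w =>
  ⁅H, J y z w⁆ - J (H y) z w - J y (H z) w - J y z (H w)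

theorem lie_apply (H : Derivation ℂ K K) (J : Bra K) (x y z w : K) :
    lie H J y z w x = H (J y z w x) - J y z w (H x) - J (H y) z w x - J y (H z) w x -
      J y z (H w) x := by
  unfold lie
  rw [Derivation.sub_apply, Derivation.sub_apply, Derivation.sub_apply,
    Derivation.commutator_apply]

theorem lie_alt {J : Bra K} (hJ : Alt' J) (H : Derivation ℂ K K) : Alt' (lie H J) where
  s1 x y z w := by
    rw [lie_apply, lie_apply, hJ.s1 x y z w, hJ.s1 x (H y) z w, hJ.s1 (H x) y z w,
      hJ.s1 x y (H z) w, hJ.s1 x y z (H w), map_neg]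
    ring
  s2 y z w := by
    ext x
    rw [Derivation.neg_apply, lie_apply, lie_apply, hJ.s2 y z w, hJ.s2 y (H z) w, hJ.s2 (H y) z w,
      hJ.s2 y z (H w)]
    simp only [Derivation.neg_apply, map_neg]
    ring
  s3 y z w := by
    ext x
    rw [Derivation.neg_apply, lie_apply, lie_apply, hJ.s3 y z w, hJ.s3 (H y) z w, hJ.s3 y z (H w),
      hJ.s3 y (H z) w]
    simp only [Derivation.neg_apply, map_neg]
    ring

theorem comb_alt {J J' : Bra K} (hJ : Alt' J) (hJ' : Alt' J') (t : K) :
    Alt' (fun y z w => J' y z w + t • J y z w) where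
  s1 x y z w := by
    simp only [Derivation.add_apply, Derivation.smul_apply, hJ.s1 x y z w, hJ'.s1 x y z w,
      smul_eq_mul]
    ring
  s2 y z w := by
    change J' z y w + t • J z y w = -(J' y z w + t • J y z w)
    rw [hJ.s2 y z w, hJ'.s2 y z w, smul_neg, neg_add]
  s3 y z w := by
    change J' y w z + t • J y w z = -(J' y z w + t • J y z w)
    rw [hJ.s3 y z w, hJ'.s3 y z w, smul_neg, neg_add]

theorem alt_of {J : Bra K} (h : IsAlt J) : Alt' J := ⟨h.s1, h.s2, h.s3⟩

/-- Every alternating bracket is a multiple of a nonzero one. -/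
theorem prop_of (hAI : S_AI) (htr : Algebra.trdeg ℂ K = 4) {J : Bra K} (hJ : IsAlt J)
    {J' : Bra K} (hJ' : Alt' J') : ∃ t : K, ∀ x y z w, J' y z w x = t * J y z w x := by
  obtain ⟨x, y, z, w, hne⟩ := hJ.ne
  obtain ⟨-, h2, -⟩ := hAI K J htr hJ
  set f : Fin 4 → K := ![x, y, z, w] with hf
  have hfr : brk J f ≠ 0 := hne
  obtain ⟨-, h4⟩ := h2 f hfr
  have hz : ∀ E : Derivation ℂ K K, (∀ i, E (f i) = 0) → E = 0 := by
    intro E hE
    rw [h4 E]
    exact Finset.sum_eq_zero fun i _ => by rw [hE i, zero_smul]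
  refine ⟨brk J' f / brk J f, fun x' y' z' w' => ?_⟩
  have h5 := zero_of_frame (comb_alt (alt_of hJ) hJ' (-(brk J' f / brk J f))) f hz (by
    change J' (f 1) (f 2) (f 3) (f 0) + -(brk J' f / brk J f) * J (f 1) (f 2) (f 3) (f 0) = 0
    have h6 : J (f 1) (f 2) (f 3) (f 0) = brk J f := rfl
    have h7 : J' (f 1) (f 2) (f 3) (f 0) = brk J' f := rfl
    rw [h6, h7]
    field_simp
    ring) y' z' w'
  have h6 := congrArg (fun D : Derivation ℂ K K => D x') h5
  simp only [Derivation.add_apply, Derivation.smul_apply, Derivation.zero_apply,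
    smul_eq_mul] at h6
  linear_combination h6

/-! ## Weight vectors -/

section weights

variable {R : Subalgebra ℂ K} {r : ℕ} {H : Fin r → Derivation ℂ K K}

/-- `x` is a weight vector of `R`. -/
def WV (R : Subalgebra ℂ K) (H : Fin r → Derivation ℂ K K) (x : K) : Prop :=
  x ∈ R ∧ ∃ m : Fin r → ℤ, IsW H m x

theorem ex_wv (hR : IsFrac R)
    (hs : ∀ x ∈ R, x ∈ Submodule.span ℂ {y | y ∈ R ∧ ∃ m : Fin r → ℤ, IsW H m y})
    (D : Derivation ℂ K K) (hD : D ≠ 0) : ∃ x, WV R H x ∧ D x ≠ 0 := by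
  by_contra hcon
  push Not at hcon
  apply hD
  have h1 : ∀ x ∈ R, D x = 0 := by
    intro x hx
    have h2 := hs x hx
    clear hx
    induction h2 using Submodule.span_induction with
    | mem y hy => exact hcon y hy
    | zero => exact map_zero D
    | add y z _ _ hy hz => rw [map_add, hy, hz, add_zero]
    | smul c y _ hy => rw [Derivation.map_smul, hy, smul_zero]
  ext x
  obtain ⟨a, ha, b, hb, hb0, hx⟩ := hR x
  have h3 : a = b * x := by rw [hx]; field_simp
  have h4 : D a = b * D x + x * D b := by rw [h3, Derivation.leibniz]; simp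
  rw [h1 a ha, h1 b hb, mul_zero, add_zero] at h4
  exact (mul_eq_zero.mp h4.symm).resolve_left hb0

/-- There are weight vectors with nonzero bracket. -/
theorem ex_frame (hR : IsFrac R)
    (hs : ∀ x ∈ R, x ∈ Submodule.span ℂ {y | y ∈ R ∧ ∃ m : Fin r → ℤ, IsW H m y})
    {J : Bra K} (hJ : IsAlt J) : ∃ x y z w, WV R H x ∧ WV R H y ∧ WV R H z ∧ WV R H w ∧
      J y z w x ≠ 0 := by
  have hne : ∀ (D : Derivation ℂ K K) (x : K), D x ≠ 0 → D ≠ 0 := by
    intro D x hx h
    exact hx (by rw [h]; rfl)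
  obtain ⟨x, y, z, w, h0⟩ := hJ.ne
  obtain ⟨x', hx', h1⟩ := ex_wv hR hs _ (hne _ _ h0)
  have h2 : J x' z w y ≠ 0 := by rw [hJ.s1]; exact neg_ne_zero.mpr h1
  obtain ⟨y', hy', h3⟩ := ex_wv hR hs _ (hne _ _ h2)
  -- `J x' z w y' ≠ 0`
  have h4 : J x' y' w z ≠ 0 := by
    have e1 : J x' z w y' = - J y' z w x' := hJ.s1 _ _ _ _
    have e2 : J z y' w x' = - J y' z w x' := by rw [hJ.s2]; rfl
    have e3 : J x' y' w z = - J z y' w x' := hJ.s1 _ _ _ _
    rw [e3, e2, neg_neg]
    intro h
    exact h3 (by rw [e1, h, neg_zero])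
  obtain ⟨z', hz', h5⟩ := ex_wv hR hs _ (hne _ _ h4)
  have h6 : J x' y' z' w ≠ 0 := by
    have e1 : J x' y' w z' = - J z' y' w x' := hJ.s1 _ _ _ _
    have e2 : J z' w y' x' = - J z' y' w x' := by rw [hJ.s3]; rfl
    have e3 : J w z' y' x' = - J z' w y' x' := by rw [hJ.s2]; rfl
    have e4 : J w y' z' x' = - J w z' y' x' := by rw [hJ.s3]; rfl
    have e5 : J x' y' z' w = - J w y' z' x' := hJ.s1 _ _ _ _
    rw [e5, e4, e3, e2, neg_neg, neg_neg]
    intro h
    exact h5 (by rw [e1, h, neg_zero])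
  obtain ⟨w', hw', h7⟩ := ex_wv hR hs _ (hne _ _ h6)
  exact ⟨w', x', y', z', hw', hx', hy', hz', h7⟩

theorem pres_of (hs : ∀ x ∈ R, x ∈ Submodule.span ℂ {y | y ∈ R ∧ ∃ m : Fin r → ℤ, IsW H m y})
    (i : Fin r) : ∀ x ∈ R, H i x ∈ R := by
  intro x hx
  have h2 := hs x hx
  clear hx
  induction h2 using Submodule.span_induction with
  | mem y hy =>
    obtain ⟨m, hm⟩ := hy.2
    rw [hm i]
    exact R.smul_mem hy.1 _
  | zero => rw [map_zero]; exact R.zero_mem
  | add y z _ _ hy hz => rw [map_add]; exact R.add_mem hy hz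
  | smul c y _ hy => rw [Derivation.map_smul]; exact R.smul_mem hy c

/-- The eigenvalues of `H i` on `R` are integers. -/
theorem int_of_eig
    (hs : ∀ x ∈ R, x ∈ Submodule.span ℂ {y | y ∈ R ∧ ∃ m : Fin r → ℤ, IsW H m y})
    (i : Fin r) {x : K} (hx : x ∈ R) (hx0 : x ≠ 0) {l : ℂ} (hl : H i x = l • x) :
    ∃ n : ℤ, l = n := by
  have key : ∀ y ∈ R, ∃ p : Polynomial ℂ, p ≠ 0 ∧ (∀ t : ℂ, p.eval t = 0 → ∃ n : ℤ, t = n) ∧
      Polynomial.aeval ((H i : K →ₗ[ℂ] K) : Module.End ℂ K) p y = 0 := by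
    intro y hy
    have h2 := hs y hy
    clear hy
    induction h2 using Submodule.span_induction with
    | mem y hy =>
      obtain ⟨m, hm⟩ := hy.2
      refine ⟨Polynomial.X - Polynomial.C (m i : ℂ), Polynomial.X_sub_C_ne_zero _, ?_, ?_⟩
      · intro t ht
        rw [Polynomial.eval_sub, Polynomial.eval_X, Polynomial.eval_C, sub_eq_zero] at ht
        exact ⟨m i, ht⟩
      · rw [map_sub, Polynomial.aeval_X, Polynomial.aeval_C, LinearMap.sub_apply,
          Module.algebraMap_end_apply]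
        have h3 : (H i : K →ₗ[ℂ] K) y = H i y := rfl
        rw [h3, hm i, sub_self]
    | zero => exact ⟨1, one_ne_zero, fun t ht => by simp at ht, by simp⟩
    | add y z _ _ hy hz =>
      obtain ⟨p, hp0, hp, hpy⟩ := hy
      obtain ⟨q, hq0, hq, hqz⟩ := hz
      refine ⟨p * q, mul_ne_zero hp0 hq0, ?_, ?_⟩
      · intro t ht
        rw [Polynomial.eval_mul, mul_eq_zero] at ht
        exact ht.elim (hp t) (hq t)
      · rw [map_add]
        have e1 : Polynomial.aeval ((H i : K →ₗ[ℂ] K) : Module.End ℂ K) (p * q) y = 0 := by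
          rw [mul_comm, map_mul, Module.End.mul_apply, hpy, map_zero]
        have e2 : Polynomial.aeval ((H i : K →ₗ[ℂ] K) : Module.End ℂ K) (p * q) z = 0 := by
          rw [map_mul, Module.End.mul_apply, hqz, map_zero]
        rw [e1, e2, add_zero]
    | smul c y _ hy =>
      obtain ⟨p, hp0, hp, hpy⟩ := hy
      exact ⟨p, hp0, hp, by rw [map_smul, hpy, smul_zero]⟩
  obtain ⟨p, -, hp, hpx⟩ := key x hx
  have h3 : Polynomial.aeval ((H i : K →ₗ[ℂ] K) : Module.End ℂ K) p x = p.eval l • x := by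
    have h4 : ((H i : K →ₗ[ℂ] K) : Module.End ℂ K) x = l • x := hl
    exact Module.End.aeval_apply_of_hasEigenvector ⟨Module.End.mem_eigenspace_iff.mpr h4, hx0⟩
  rw [h3, smul_eq_zero] at hpx
  exact hp l (hpx.resolve_right hx0)

end weights

theorem der_sum {ι : Type*} (s : Finset ι) (f : ι → Derivation ℂ K K) (x : K) :
    (∑ i ∈ s, f i) x = ∑ i ∈ s, f i x := by
  classical
  induction s using Finset.induction_on with
  | empty => simp
  | insert a s ha ih => rw [Finset.sum_insert ha, Finset.sum_insert ha, Derivation.add_apply, ih]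

/-! ## The main statement -/

theorem s_W0 (hAI : S_AI) (hEX1 : S_EX1) : S_W0 := by
  intro K _ _ R ξ J a r H c hC hT
  have hs := hT.span
  obtain ⟨x, y, z, w, hx, hy, hz, hw, hne⟩ := ex_frame hC.frac hs hC.alt
  obtain ⟨hxR, mx, hmx⟩ := hx
  obtain ⟨hyR, my, hmy⟩ := hy
  obtain ⟨hzR, mz, hmz⟩ := hz
  obtain ⟨hwR, mw, hmw⟩ := hw
  -- linearity in the slots
  have l1 : ∀ (t : ℂ) (y z w : K), J (t • y) z w = t • J y z w := by
    intro t y z w
    ext x
    rw [Derivation.smul_apply]
    have e1 := hC.alt.s1 (t • y) x z w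
    have e2 := hC.alt.s1 y x z w
    have e3 : J (t • y) z w x = - J x z w (t • y) := by rw [hC.alt.s1]
    have e4 : J y z w x = - J x z w y := by rw [hC.alt.s1]
    rw [e3, e4, Derivation.map_smul, smul_neg]
  have l2 : ∀ (t : ℂ) (y z w : K), J y (t • z) w = t • J y z w := by
    intro t y z w
    rw [hC.alt.s2 (t • z) y w, l1, hC.alt.s2 z y w, smul_neg]
  have l3 : ∀ (t : ℂ) (y z w : K), J y z (t • w) = t • J y z w := by
    intro t y z w
    rw [hC.alt.s3 y (t • w) z, l2, hC.alt.s3 y w z, smul_neg]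
  -- the factor
  have hex : ∀ i, ∃ t : K, ∀ x y z w, lie (H i) J y z w x = t * J y z w x := fun i =>
    prop_of hAI hC.trdeg hC.alt (lie_alt (alt_of hC.alt) (H i))
  choose g hg using hex
  have hpres := fun i => pres_of (R := R) (H := H) hs i
  have hgJ : ∀ i, ∀ x ∈ R, ∀ y ∈ R, ∀ z ∈ R, ∀ w ∈ R, g i * J y z w x ∈ R := by
    intro i x hx y hy z hz w hw
    rw [← hg, lie_apply]
    exact R.sub_mem (R.sub_mem (R.sub_mem (R.sub_mem
      (hpres i _ (hC.reg x hx y hy z hz w hw))
      (hC.reg _ (hpres i x hx) y hy z hz w hw))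
      (hC.reg x hx _ (hpres i y hy) z hz w hw))
      (hC.reg x hx y hy _ (hpres i z hz) w hw))
      (hC.reg x hx y hy z hz _ (hpres i w hw))
  have hgR : ∀ i, g i ∈ R := by
    intro i
    by_contra hcon
    obtain ⟨u, hu, hneg⟩ := hEX1 K R hC.frac hC.fg hC.normal (g i) hcon
    obtain ⟨x', hx', y', hy', z', hz', w', hw', hJ0, hJu⟩ := hC.gen u hu
    have h1 := hgJ i x' hx' y' hy' z' hz' w' hw'
    have h2 : g i ≠ 0 := fun h => hcon (h ▸ R.zero_mem)
    have h3 := hu.nonneg _ h1 (mul_ne_zero h2 hJ0)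
    rw [u.map_mul _ _ h2 hJ0, hJu, add_zero] at h3
    linarith
  -- the value at the frame
  have hHJ : ∀ i, H i (J y z w x) = ((mx i + my i + mz i + mw i : ℤ) : ℂ) • J y z w x +
      g i * J y z w x := by
    intro i
    rw [← hg, lie_apply, hmx i, hmy i, hmz i, hmw i, l1, l2, l3, Derivation.map_smul]
    simp only [Derivation.smul_apply]
    push_cast
    simp only [add_smul]
    ring
  have hξJ : ξ (J y z w x) = ((∑ i, c i * (mx i + my i + mz i + mw i : ℤ) - a : ℝ) : ℂ) •
      J y z w x := by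
    have hξ : ∀ (t : K) (m : Fin r → ℤ), IsW H m t → ξ t = ((∑ i, c i * m i : ℝ) : ℂ) • t := by
      intro t m hm
      rw [hT.xi, der_sum]
      push_cast
      rw [Finset.sum_smul]
      refine Finset.sum_congr rfl fun i _ => ?_
      rw [Derivation.smul_apply, hm i, smul_smul]
    rw [hC.hom, hξ x mx hmx, hξ y my hmy, hξ z mz hmz, hξ w mw hmw, l1, l2, l3,
      Derivation.map_smul]
    simp only [Derivation.smul_apply]
    rw [← add_smul, ← add_smul, ← add_smul, ← sub_smul]
    congr 1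
    push_cast
    simp only [mul_add, Finset.sum_add_distrib]
  have hcomm : ∀ i, ξ (H i (J y z w x)) = H i (ξ (J y z w x)) := by
    intro i
    have h1 : ⁅H i, ξ⁆ = 0 := by
      rw [hT.xi, lie_sum]
      refine Finset.sum_eq_zero fun j _ => ?_
      rw [lie_smul, hT.comm i j, smul_zero]
    have h2 := congrArg (fun D : Derivation ℂ K K => D (J y z w x)) h1
    simp only [Derivation.commutator_apply, Derivation.zero_apply] at h2
    exact (sub_eq_zero.mp h2).symm
  have hξg : ∀ i, ξ (g i) = 0 := by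
    intro i
    have h1 := hcomm i
    rw [hHJ i, hξJ, map_add, Derivation.map_smul, Derivation.map_smul, Derivation.leibniz, hHJ i,
      hξJ] at h1
    simp only [smul_eq_mul, smul_add, smul_smul, mul_smul_comm] at h1
    have h2 : J y z w x * ξ (g i) = 0 := by
      rw [mul_comm ((_ : ℝ) : ℂ)] at h1
      simp only [mul_comm, smul_smul] at h1 ⊢
      linear_combination h1
    exact (mul_eq_zero.mp h2).resolve_left hne
  have hconst : ∀ i, ∃ t : ℂ, g i = algebraMap ℂ K t := fun i => hC.const _ (hgR i) (hξg i)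
  choose t ht using hconst
  have hint : ∀ i, ∃ n : ℤ, t i = -(n : ℂ) := by
    intro i
    have h1 : H i (J y z w x) = (((mx i + my i + mz i + mw i : ℤ) : ℂ) + t i) • J y z w x := by
      rw [hHJ i, ht i, add_smul, Algebra.smul_def (t i)]
    obtain ⟨n, hn⟩ := int_of_eig hs i (hC.reg x hxR y hyR z hzR w hwR) hne h1
    refine ⟨mx i + my i + mz i + mw i - n, ?_⟩
    push_cast at hn ⊢
    linear_combination hn
  choose n hn using hint
  refine ⟨n, fun i => ?_, ?_⟩
  · intro x' y' z' w'
    have h1 := hg i x' y' z' w'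
    rw [lie_apply, ht i, hn i, map_neg, neg_mul, ← Algebra.smul_def] at h1
    linear_combination h1
  · have h1 : ξ (J y z w x) = ∑ i, (c i : ℂ) • H i (J y z w x) := by
      conv_lhs => rw [hT.xi]
      rw [der_sum]
      rfl
    have h2 : ∀ i, H i (J y z w x) =
        (((mx i + my i + mz i + mw i : ℤ) : ℂ) - (n i : ℂ)) • J y z w x := by
      intro i
      rw [hHJ i, ht i, hn i, sub_smul, map_neg, neg_mul, ← Algebra.smul_def]
      ring
    simp only [h2, smul_smul] at h1
    rw [hξJ, ← Finset.sum_smul] at h1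
    have h3 := smul_left_injective ℂ hne h1
    have h4 : ((∑ i, c i * n i : ℝ) : ℂ) = (a : ℂ) := by
      push_cast at h3 ⊢
      simp only [mul_sub, Finset.sum_sub_distrib] at h3
      linear_combination h3
    exact_mod_cast h4

end Pool.Agent.Helper38.W0
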