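import Pool.Agent.Helper38.D4.Nm
import Pool.Agent.Helper20.DN.S6
import Pool.Agent.Helper32.Outer.Nielsen

/-!
# Project D4: the braid group `BrH 3` acts on the free group of rank two

`tau : BrH 3 →* MulAut F2`, `f2 : F2 →* BrH 3`, `x ↦ s_0 s_2⁻¹`, `y ↦ s_1 s_0 s_2⁻¹ s_1⁻¹`.
-/

namespace Pool.Agent.Helper38.D4

open Pool.Agent.Helper7.AG (SL mA mB tr mA_braid Artin)
open Pool.Agent.Helper20.DN
open Pool.Agent.Helper38.BN (HB aH dH BrH liftH liftH_a liftH_d RelB RelBr relH)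
open Pool.Agent.Helper32.Outer (F2)

/-- the generators -/
def X : F2 := FreeGroup.of 0
def Y : F2 := FreeGroup.of 1

/-- endomorphisms -/
def en (u v : F2) : F2 →* F2 := FreeGroup.lift ![u, v]

@[simp] lemma en_X (u v : F2) : en u v X = u := by
  unfold en X; rw [FreeGroup.lift_apply_of]; rfl
@[simp] lemma en_Y (u v : F2) : en u v Y = v := by
  unfold en Y; rw [FreeGroup.lift_apply_of]; rfl

theorem ext2 {K : Type*} [Group K] {f g : F2 →* K} (hx : f X = g X) (hy : f Y = g Y) : f = g := by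
  ext i
  fin_cases i
  · exact hx
  · exact hy

theorem aut_ext {f g : MulAut F2} (hx : f X = g X) (hy : f Y = g Y) : f = g := by
  have h : f.toMonoidHom = g.toMonoidHom := ext2 hx hy
  ext x
  exact DFunLike.congr_fun h x

/-- automorphisms from endomorphisms -/
def mk2 (u v u' v' : F2) (h1 : en u' v' u = X) (h2 : en u' v' v = Y) (h3 : en u v u' = X)
    (h4 : en u v v' = Y) : MulAut F2 :=
  MonoidHom.toMulEquiv (en u v) (en u' v')
    (ext2 (by rw [MonoidHom.comp_apply, en_X, h1]; rfl) (by rw [MonoidHom.comp_apply, en_Y, h2]; rfl))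
    (ext2 (by rw [MonoidHom.comp_apply, en_X, h3]; rfl) (by rw [MonoidHom.comp_apply, en_Y, h4]; rfl))

/-- the action of `s_0`, `s_1`, `s_2` -/
def t0 : MulAut F2 := mk2 X (Y * X⁻¹) X (Y * X) (by simp) (by simp) (by simp) (by simp)
def t1 : MulAut F2 := mk2 Y (Y * X⁻¹ * Y) (X * Y⁻¹ * X) X (by simp) (by simp) (by simp) (by simp)
def t2 : MulAut F2 := mk2 X (X⁻¹ * Y) X (X * Y) (by simp) (by simp) (by simp) (by simp)

@[simp] lemma t0_X : t0 X = X := en_X X (Y * X⁻¹)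
@[simp] lemma t0_Y : t0 Y = Y * X⁻¹ := en_Y X (Y * X⁻¹)
@[simp] lemma t1_X : t1 X = Y := en_X Y (Y * X⁻¹ * Y)
@[simp] lemma t1_Y : t1 Y = Y * X⁻¹ * Y := en_Y Y (Y * X⁻¹ * Y)
@[simp] lemma t2_X : t2 X = X := en_X X (X⁻¹ * Y)
@[simp] lemma t2_Y : t2 Y = X⁻¹ * Y := en_Y X (X⁻¹ * Y)

lemma t02 : t0 * t2 = t2 * t0 := by
  apply aut_ext
  · simp [MulAut.mul_apply]
  · simp [MulAut.mul_apply, mul_assoc]
lemma t010 : t0 * t1 * t0 = t1 * t0 * t1 := by
  apply aut_ext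
  · simp [MulAut.mul_apply]
  · simp [MulAut.mul_apply, mul_assoc]
lemma t121 : t1 * t2 * t1 = t2 * t1 * t2 := by
  apply aut_ext
  · simp [MulAut.mul_apply, mul_assoc]
  · simp [MulAut.mul_apply, mul_assoc]

/-- the automorphisms as a sequence -/
def tS (j : ℕ) : MulAut F2 := if j = 0 then t0 else if j = 1 then t1 else t2

lemma tS_rel : RelB 3 tS (1 : MulAut F2) where
  comm i j h h' := by
    have hi : i = 0 := by omega
    have hj : j = 2 := by omega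
    subst hi hj
    exact t02
  braid i h := by
    have hi : i = 0 ∨ i = 1 := by omega
    rcases hi with rfl | rfl
    · exact t010
    · exact t121
  dcomm i _ _ := by rw [mul_one, one_mul]
  four _ := by rw [mul_one, mul_one, one_mul, mul_one]

/-- the braid group -/
abbrev B : Type := BrH (0 + 3)

/-- the action of the braid group -/
def tau : B →* MulAut F2 := (liftH (k := 3) tS_rel).comp (BrH (0 + 3)).subtype

/-- the generators of the braid group -/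
def s0 : B := aB 0 (by omega)
def s1 : B := aB 1 (by omega)
def s2 : B := aB 2 (by omega)

lemma tau_0 : tau s0 = t0 := liftH_a (k := 3) tS_rel (j := 0) (by omega)
lemma tau_1 : tau s1 = t1 := liftH_a (k := 3) tS_rel (j := 1) (by omega)
lemma tau_2 : tau s2 = t2 := liftH_a (k := 3) tS_rel (j := 2) (by omega)

lemma s02 : s0 * s2 = s2 * s0 :=
  Subtype.ext ((relH (0 + 3)).comm 0 2 (by omega) (by omega))
lemma s010 : s0 * s1 * s0 = s1 * s0 * s1 :=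
  Subtype.ext ((relH (0 + 3)).braid 0 (by omega))
lemma s121 : s1 * s2 * s1 = s2 * s1 * s2 :=
  Subtype.ext ((relH (0 + 3)).braid 1 (by omega))

/-- induction on the braid group -/
theorem indB {p : B → Prop} (h0 : p s0) (h1 : p s1) (h2 : p s2) (ho : p 1)
    (hm : ∀ x y, p x → p y → p (x * y)) (hi : ∀ x, p x → p x⁻¹) (x : B) : p x := by
  have key : ∀ (x : HB (0 + 3)) (hx : x ∈ BrH (0 + 3)), p ⟨x, hx⟩ := by
    intro x hx
    induction hx using Subgroup.closure_induction with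
    | mem x hx =>
      obtain ⟨j, hj, rfl⟩ := hx
      have h3 : j = 0 ∨ j = 1 ∨ j = 2 := by
        have : j < 0 + 3 := hj
        omega
      rcases h3 with rfl | rfl | rfl
      · exact h0
      · exact h1
      · exact h2
    | one => exact ho
    | mul x y hx hy ihx ihy => exact hm ⟨x, hx⟩ ⟨y, hy⟩ ihx ihy
    | inv x hx ihx => exact hi ⟨x, hx⟩ ihx
  exact key x.1 x.2

/-- the free subgroup -/
def f2 : F2 →* B := FreeGroup.lift ![s0 * s2⁻¹, s1 * (s0 * s2⁻¹) * s1⁻¹]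

lemma f2_X : f2 X = s0 * s2⁻¹ := by unfold f2 X; rw [FreeGroup.lift_apply_of]; rfl
lemma f2_Y : f2 Y = s1 * (s0 * s2⁻¹) * s1⁻¹ := by unfold f2 Y; rw [FreeGroup.lift_apply_of]; rfl

lemma act00 : s0 * f2 X * s0⁻¹ = f2 X := by
  rw [f2_X]
  have h : Commute s0 s2 := s02
  have h1 : Commute s0 (s0 * s2⁻¹) := (Commute.refl s0).mul_right h.inv_right
  rw [h1.eq, mul_inv_cancel_right]

lemma act01 : s0 * f2 Y * s0⁻¹ = f2 Y * (f2 X)⁻¹ := by
  rw [f2_X, f2_Y]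
  -- `s_1 s_2⁻¹ s_1⁻¹ = s_2⁻¹ s_1⁻¹ s_2`
  have h1 : s1 * s2⁻¹ * s1⁻¹ = s2⁻¹ * s1⁻¹ * s2 := by
    have h := s121
    calc s1 * s2⁻¹ * s1⁻¹ = s2⁻¹ * s1⁻¹ * (s1 * s2 * s1) * s2⁻¹ * s1⁻¹ := by group
      _ = s2⁻¹ * s1⁻¹ * (s2 * s1 * s2) * s2⁻¹ * s1⁻¹ := by rw [h]
      _ = s2⁻¹ * s1⁻¹ * s2 := by group
  have h0 := s010
  calc s0 * (s1 * (s0 * s2⁻¹) * s1⁻¹) * s0⁻¹ = (s0 * s1 * s0) * s2⁻¹ * s1⁻¹ * s0⁻¹ := by group
    _ = (s1 * s0 * s1) * s2⁻¹ * s1⁻¹ * s0⁻¹ := by rw [h0]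
    _ = s1 * s0 * (s1 * s2⁻¹ * s1⁻¹) * s0⁻¹ := by group
    _ = s1 * s0 * (s2⁻¹ * s1⁻¹ * s2) * s0⁻¹ := by rw [h1]
    _ = s1 * (s0 * s2⁻¹) * s1⁻¹ * (s0 * s2⁻¹)⁻¹ := by group

lemma act10 : s1 * f2 X * s1⁻¹ = f2 Y := by rw [f2_X, f2_Y]

lemma act11 : s1 * f2 Y * s1⁻¹ = f2 Y * (f2 X)⁻¹ * f2 Y := by
  have h0 := s010
  -- both sides of `s_0 s_1 s_0 = s_1 s_0 s_1` on `X`
  have e1 : (s0 * s1 * s0) * f2 X * (s0 * s1 * s0)⁻¹ = f2 Y * (f2 X)⁻¹ := by
    calc (s0 * s1 * s0) * f2 X * (s0 * s1 * s0)⁻¹ =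
        s0 * (s1 * (s0 * f2 X * s0⁻¹) * s1⁻¹) * s0⁻¹ := by group
      _ = f2 Y * (f2 X)⁻¹ := by rw [act00, act10, act01]
  have e2 : (s1 * s0 * s1) * f2 X * (s1 * s0 * s1)⁻¹ = s1 * f2 Y * s1⁻¹ * (f2 Y)⁻¹ := by
    calc (s1 * s0 * s1) * f2 X * (s1 * s0 * s1)⁻¹ =
        s1 * (s0 * (s1 * f2 X * s1⁻¹) * s0⁻¹) * s1⁻¹ := by group
      _ = s1 * (f2 Y * (f2 X)⁻¹) * s1⁻¹ := by rw [act10, act01]
      _ = (s1 * f2 Y * s1⁻¹) * (s1 * f2 X * s1⁻¹)⁻¹ := by group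
      _ = s1 * f2 Y * s1⁻¹ * (f2 Y)⁻¹ := by rw [act10]
  rw [h0, e2] at e1
  calc s1 * f2 Y * s1⁻¹ = (s1 * f2 Y * s1⁻¹ * (f2 Y)⁻¹) * f2 Y := by group
    _ = f2 Y * (f2 X)⁻¹ * f2 Y := by rw [e1]

lemma s2_eq : s2 = (f2 X)⁻¹ * s0 := by
  rw [f2_X]
  have h : Commute s0 s2 := s02
  calc s2 = s2 * s0 * s0⁻¹ := by group
    _ = s2 * s0⁻¹ * s0 := by
      rw [mul_assoc, mul_assoc, mul_inv_cancel, inv_mul_cancel]
    _ = (s0 * s2⁻¹)⁻¹ * s0 := by rw [mul_inv_rev, inv_inv]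

lemma act20 : s2 * f2 X * s2⁻¹ = f2 X := by
  rw [s2_eq]
  calc (f2 X)⁻¹ * s0 * f2 X * ((f2 X)⁻¹ * s0)⁻¹ = (f2 X)⁻¹ * (s0 * f2 X * s0⁻¹) * f2 X := by group
    _ = f2 X := by rw [act00]; group

lemma act21 : s2 * f2 Y * s2⁻¹ = (f2 X)⁻¹ * f2 Y := by
  rw [s2_eq]
  calc (f2 X)⁻¹ * s0 * f2 Y * ((f2 X)⁻¹ * s0)⁻¹ = (f2 X)⁻¹ * (s0 * f2 Y * s0⁻¹) * f2 X := by group
    _ = (f2 X)⁻¹ * f2 Y := by rw [act01]; group

/-- equivariance -/
theorem f2_tau (x : B) : ∀ w : F2, f2 (tau x w) = x * f2 w * x⁻¹ := by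
  have hgen : ∀ (s : B) (t : MulAut F2), tau s = t → f2 (t X) = s * f2 X * s⁻¹ →
      f2 (t Y) = s * f2 Y * s⁻¹ → ∀ w : F2, f2 (tau s w) = s * f2 w * s⁻¹ := by
    intro s t hs hx hy w
    have h : f2.comp t.toMonoidHom = (MulAut.conj s).toMonoidHom.comp f2 := ext2 hx hy
    rw [hs]
    exact DFunLike.congr_fun h w
  induction x using indB with
  | h0 => exact hgen s0 t0 tau_0 (by rw [t0_X, act00]) (by rw [t0_Y, map_mul, map_inv, act01])
  | h1 => exact hgen s1 t1 tau_1 (by rw [t1_X, act10]) (by rw [t1_Y, map_mul, map_mul, map_inv, act11])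
  | h2 => exact hgen s2 t2 tau_2 (by rw [t2_X, act20]) (by rw [t2_Y, map_mul, map_inv, act21])
  | ho => intro w; rw [map_one]; simp
  | hm x y hx hy =>
    intro w
    rw [map_mul, MulAut.mul_apply, hx, hy]
    group
  | hi x hx =>
    intro w
    have h1 := hx (tau x⁻¹ w)
    rw [← MulAut.mul_apply, ← map_mul, mul_inv_cancel, map_one, MulAut.one_apply] at h1
    rw [h1]
    group

/-- the free subgroup acts by conjugation -/
theorem tau_f2 (w : F2) : tau (f2 w) = MulAut.conj w := by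
  have h : tau.comp f2 = MulAut.conj := by
    apply ext2
    · rw [MonoidHom.comp_apply, f2_X, map_mul, map_inv, tau_0, tau_2]
      rw [mul_inv_eq_iff_eq_mul]
      apply aut_ext
      · simp [MulAut.mul_apply]
      · simp [MulAut.mul_apply]
    · rw [MonoidHom.comp_apply, f2_Y, map_mul, map_mul, map_mul, map_inv, map_inv, tau_0, tau_1,
        tau_2]
      rw [mul_inv_eq_iff_eq_mul, ← mul_assoc, mul_inv_eq_iff_eq_mul]
      apply aut_ext
      · simp [MulAut.mul_apply]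
      · simp [MulAut.mul_apply, mul_assoc]
  exact DFunLike.congr_fun h w

theorem center_F2 {w : F2} (h : ∀ v, w * v = v * w) : w = 1 := by
  by_contra hne
  have h1 := Pool.Agent.Helper18.BN4.comm_trans hne (h (FreeGroup.of 0)).symm (h (FreeGroup.of 1))
  have h2 := Pool.Agent.Helper18.BN4.of_comm h1
  exact absurd h2 (by decide)

theorem f2_inj : Function.Injective f2 := by
  rw [injective_iff_map_eq_one]
  intro w hw
  have h1 := tau_f2 w
  rw [hw, map_one] at h1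
  apply center_F2
  intro v
  have h2 := DFunLike.congr_fun h1 v
  rw [MulAut.one_apply, MulAut.conj_apply] at h2
  rw [eq_mul_inv_iff_mul_eq] at h2
  exact h2.symm

end Pool.Agent.Helper38.D4
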