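import Pool.Agent.Helper38.D4.Br1

/-!
# Project D4: automorphisms of the free group of rank two which act trivially on the abelianization
-/

namespace Pool.Agent.Helper38.D4

open Pool.Agent.Helper7.AG (SL mA mB tr mA_braid Artin)
open Pool.Agent.Helper20.DN
open Pool.Agent.Helper38.BN (HB aH dH BrH)
open Pool.Agent.Helper32.Outer (F2 NR nielsen)

/-- the homomorphism to `SL(2, ℤ)` -/
noncomputable def rB : B →* SL := rho.comp (jB 0)
/-- the length -/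
noncomputable def lB : B →* Multiplicative ℤ := (lenD 0).comp (jB 0)
/-- the crossed homomorphism -/
noncomputable def bB (x : B) : ℤ × ℤ := be al0 (jB 0 x)

lemma jB_0 : jB 0 s0 = lf 0 := jB_a (by omega)
lemma jB_1 : jB 0 s1 = ct := jB_a (by omega)
lemma jB_2 : jB 0 s2 = lf 2 := jB_a (by omega)

@[simp] lemma rB_0 : rB s0 = mA := by
  show rho (jB 0 s0) = mA
  rw [jB_0, rho_lf]
@[simp] lemma rB_1 : rB s1 = mB := by
  show rho (jB 0 s1) = mB
  rw [jB_1, rho_ct]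
@[simp] lemma rB_2 : rB s2 = mA := by
  show rho (jB 0 s2) = mA
  rw [jB_2, rho_lf]
@[simp] lemma lB_0 : lB s0 = Multiplicative.ofAdd 1 := by
  show lenD 0 (jB 0 s0) = _
  rw [jB_0, len_lf]
@[simp] lemma lB_1 : lB s1 = Multiplicative.ofAdd 1 := by
  show lenD 0 (jB 0 s1) = _
  rw [jB_1, len_ct]
@[simp] lemma lB_2 : lB s2 = Multiplicative.ofAdd 1 := by
  show lenD 0 (jB 0 s2) = _
  rw [jB_2, len_lf]

lemma rB_f2 (w : F2) : rB (f2 w) = 1 := by
  have h : rB.comp f2 = 1 := by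
    apply ext2
    · rw [MonoidHom.comp_apply, f2_X, map_mul, map_inv, rB_0, rB_2, mul_inv_cancel]; rfl
    · rw [MonoidHom.comp_apply, f2_Y, map_mul, map_mul, map_mul, map_inv, map_inv, rB_0, rB_1, rB_2,
        mul_inv_cancel, mul_one, mul_inv_cancel]; rfl
  exact DFunLike.congr_fun h w

lemma lB_f2 (w : F2) : lB (f2 w) = 1 := by
  have h : lB.comp f2 = 1 := by
    apply ext2
    · rw [MonoidHom.comp_apply, f2_X, map_mul, map_inv, lB_0, lB_2, mul_inv_cancel]; rfl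
    · rw [MonoidHom.comp_apply, f2_Y, map_mul, map_mul, map_mul, map_inv, map_inv, lB_0, lB_1, lB_2,
        mul_inv_cancel, mul_one, mul_inv_cancel]; rfl
  exact DFunLike.congr_fun h w

lemma bB_mul (x y : B) : bB (x * y) = bB x + vF ℤ (rB x) (bB y) := by
  show be al0 (jB 0 (x * y)) = _
  rw [map_mul, be_cr]
  rfl

lemma bB_conj {x : B} (hx : rB x = 1) (y : B) : bB (y * x * y⁻¹) = vF ℤ (rB y) (bB x) := by
  show be al0 (jB 0 (y * x * y⁻¹)) = _
  rw [map_mul, map_mul, map_inv, be_conj hx]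
  rfl

lemma bB_X : bB (f2 X) = (1, 0) := by
  show be al0 (jB 0 (f2 X)) = _
  rw [f2_X, map_mul, map_inv, jB_0, jB_2, be_diff]
  rfl

lemma bB_Y : bB (f2 Y) = (1, -1) := by
  rw [← act10, bB_conj (rB_f2 X), rB_1, bB_X, vF_mB]
  rfl

lemma bB_mulk {x : B} (hx : rB x = 1) (y : B) : bB (x * y) = bB x + bB y := by
  rw [bB_mul, hx, vF_one]

lemma bB_invk {x : B} (hx : rB x = 1) : bB x⁻¹ = -bB x := by
  show be al0 (jB 0 x⁻¹) = _
  rw [map_inv, be_inv hx]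
  rfl

/-! ### the kernel -/

theorem decompB (x : B) : ∃ w y, x = f2 w * y ∧ y ∈ Subgroup.closure ({s0, s1} : Set B) := by
  have m0 : s0 ∈ Subgroup.closure ({s0, s1} : Set B) := Subgroup.subset_closure (Or.inl rfl)
  have m1 : s1 ∈ Subgroup.closure ({s0, s1} : Set B) := Subgroup.subset_closure (Or.inr rfl)
  induction x using indB with
  | h0 => exact ⟨1, s0, by rw [map_one, one_mul], m0⟩
  | h1 => exact ⟨1, s1, by rw [map_one, one_mul], m1⟩
  | h2 => exact ⟨X⁻¹, s0, by rw [map_inv, ← s2_eq], m0⟩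
  | ho => exact ⟨1, 1, by rw [map_one, one_mul], one_mem _⟩
  | hm x y hx hy =>
    obtain ⟨w, a, rfl, ha⟩ := hx
    obtain ⟨v, b, rfl, hb⟩ := hy
    refine ⟨w * tau a v, a * b, ?_, mul_mem ha hb⟩
    rw [map_mul, f2_tau]
    group
  | hi x hx =>
    obtain ⟨w, a, rfl, ha⟩ := hx
    refine ⟨tau a⁻¹ w⁻¹, a⁻¹, ?_, inv_mem ha⟩
    rw [f2_tau, map_inv]
    group

/-- the element `(s_0 s_1)³` -/
def d3 : B := (s0 * s1) ^ 3

lemma rB_d3 : rB d3 = -1 := by
  unfold d3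
  rw [map_pow, map_mul, rB_0, rB_1, (Pool.Agent.Helper7.AG.tr_AB mA_braid mA_mB_ne).2.2]

lemma lB_d3 : lB d3 = Multiplicative.ofAdd 6 := by
  unfold d3
  rw [map_pow, map_mul, lB_0, lB_1, ← ofAdd_add, ← ofAdd_nsmul]
  rfl

theorem kerB {x : B} (h : rB x = 1 ∨ rB x = -1) :
    ∃ (w : F2) (n : ℤ), x = f2 w * d3 ^ n ∧ rB x = (-1) ^ n ∧ lB x = Multiplicative.ofAdd (6 * n) := by
  obtain ⟨w, y, rfl, hy⟩ := decompB x
  have h1 : rB y = 1 ∨ rB y = -1 := by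
    rwa [map_mul, rB_f2, one_mul] at h
  obtain ⟨n, hn⟩ := Pool.Agent.Helper7.AG.ker_B3 s010 rB_0 rB_1 hy h1
  have hn' : y = d3 ^ n := hn
  refine ⟨w, n, by rw [hn'], ?_, ?_⟩
  · rw [map_mul, rB_f2, one_mul, hn', map_zpow, rB_d3]
  · rw [map_mul, lB_f2, one_mul, hn', map_zpow, lB_d3, ← ofAdd_zsmul]
    congr 1
    simp [mul_comm]

/-- the kernel of `(rB, lB)` -/
theorem kerB_one {x : B} (h : rB x = 1) (hl : lB x = 1) : ∃ w, x = f2 w := by
  obtain ⟨w, n, h1, -, h2⟩ := kerB (Or.inl h)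
  rw [hl] at h2
  have h3 : 6 * n = 0 := by
    have := congrArg Multiplicative.toAdd h2
    simpa using this.symm
  have h4 : n = 0 := by omega
  exact ⟨w, by rw [h1, h4, zpow_zero, mul_one]⟩

/-! ### the group generated by `tau` and the reflection -/

/-- the reflection -/
def Jr : MulAut F2 := mk2 X⁻¹ (X⁻¹ * Y * X⁻¹) X⁻¹ (X⁻¹ * Y * X⁻¹) (by simp) (by simp [mul_assoc])
  (by simp) (by simp [mul_assoc])

@[simp] lemma Jr_X : Jr X = X⁻¹ := en_X X⁻¹ (X⁻¹ * Y * X⁻¹)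
@[simp] lemma Jr_Y : Jr Y = X⁻¹ * Y * X⁻¹ := en_Y X⁻¹ (X⁻¹ * Y * X⁻¹)

lemma Jr_Jr : Jr * Jr = 1 := by
  apply aut_ext
  · simp [MulAut.mul_apply]
  · simp [MulAut.mul_apply, mul_assoc]

lemma t0i_X : t0⁻¹ X = X := by rw [MulAut.inv_apply, MulEquiv.symm_apply_eq]; simp
lemma t0i_Y : t0⁻¹ Y = Y * X := by rw [MulAut.inv_apply, MulEquiv.symm_apply_eq]; simp
lemma t1i_X : t1⁻¹ X = X * Y⁻¹ * X := by
  rw [MulAut.inv_apply, MulEquiv.symm_apply_eq]; simp
lemma t1i_Y : t1⁻¹ Y = X := by rw [MulAut.inv_apply, MulEquiv.symm_apply_eq]; simp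
lemma t2i_X : t2⁻¹ X = X := by rw [MulAut.inv_apply, MulEquiv.symm_apply_eq]; simp
lemma t2i_Y : t2⁻¹ Y = X * Y := by rw [MulAut.inv_apply, MulEquiv.symm_apply_eq]; simp

lemma Jr_t0 : Jr * t0 = t0⁻¹ * Jr := by
  apply aut_ext
  · rw [MulAut.mul_apply, MulAut.mul_apply, t0_X, Jr_X, map_inv, t0i_X]
  · rw [MulAut.mul_apply, MulAut.mul_apply, t0_Y, Jr_Y, map_mul, map_inv, Jr_X, Jr_Y, map_mul, map_mul,
      map_inv, t0i_X, t0i_Y]
    group
lemma Jr_t1 : Jr * t1 = t1⁻¹ * Jr := by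
  apply aut_ext
  · rw [MulAut.mul_apply, MulAut.mul_apply, t1_X, Jr_X, Jr_Y, map_inv, t1i_X]
    group
  · rw [MulAut.mul_apply, MulAut.mul_apply, t1_Y, Jr_Y, map_mul, map_mul, map_inv, Jr_X, Jr_Y, map_mul,
      map_mul, map_inv, t1i_X, t1i_Y]
    group
lemma Jr_t2 : Jr * t2 = t2⁻¹ * Jr := by
  apply aut_ext
  · rw [MulAut.mul_apply, MulAut.mul_apply, t2_X, Jr_X, map_inv, t2i_X]
  · rw [MulAut.mul_apply, MulAut.mul_apply, t2_Y, Jr_Y, map_mul, map_inv, Jr_X, Jr_Y, map_mul, map_mul,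
      map_inv, t2i_X, t2i_Y]
    group

lemma Jr_tau (z : B) : ∃ z', Jr * tau z = tau z' * Jr := by
  induction z using indB with
  | h0 => exact ⟨s0⁻¹, by rw [tau_0, map_inv, tau_0, Jr_t0]⟩
  | h1 => exact ⟨s1⁻¹, by rw [tau_1, map_inv, tau_1, Jr_t1]⟩
  | h2 => exact ⟨s2⁻¹, by rw [tau_2, map_inv, tau_2, Jr_t2]⟩
  | ho => exact ⟨1, by rw [map_one, one_mul, mul_one]⟩
  | hm x y hx hy =>
    obtain ⟨a, ha⟩ := hx
    obtain ⟨b, hb⟩ := hy
    exact ⟨a * b, by rw [map_mul, ← mul_assoc, ha, mul_assoc, hb, map_mul, mul_assoc]⟩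
  | hi x hx =>
    obtain ⟨a, ha⟩ := hx
    refine ⟨a⁻¹, ?_⟩
    rw [map_inv, map_inv, mul_inv_eq_iff_eq_mul, mul_assoc, ha, inv_mul_cancel_left]

/-- the subgroup of the automorphisms -/
def Hs : Subgroup (MulAut F2) where
  carrier := {θ | ∃ z, θ = tau z ∨ θ = tau z * Jr}
  one_mem' := ⟨1, Or.inl (map_one _).symm⟩
  mul_mem' := by
    rintro _ _ ⟨z, rfl | rfl⟩ ⟨z', rfl | rfl⟩
    · exact ⟨z * z', Or.inl (map_mul _ _ _).symm⟩
    · exact ⟨z * z', Or.inr (by rw [map_mul, mul_assoc])⟩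
    · obtain ⟨a, ha⟩ := Jr_tau z'
      exact ⟨z * a, Or.inr (by rw [map_mul, mul_assoc, ha, mul_assoc])⟩
    · obtain ⟨a, ha⟩ := Jr_tau z'
      refine ⟨z * a, Or.inl ?_⟩
      rw [map_mul, mul_assoc, ← mul_assoc Jr, ha, mul_assoc (tau a), Jr_Jr, mul_one]
  inv_mem' := by
    rintro _ ⟨z, rfl | rfl⟩
    · exact ⟨z⁻¹, Or.inl (map_inv _ _).symm⟩
    · obtain ⟨a, ha⟩ := Jr_tau z⁻¹
      refine ⟨a, Or.inr ?_⟩
      have h : Jr⁻¹ = Jr := inv_eq_of_mul_eq_one_left Jr_Jr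
      rw [mul_inv_rev, h, ← map_inv, ha]

lemma tau_mem (z : B) : tau z ∈ Hs := ⟨z, Or.inl rfl⟩
lemma Jr_mem : Jr ∈ Hs := ⟨1, Or.inr (by rw [map_one, one_mul])⟩

/-- the inversion of `X` -/
def io1 : MulAut F2 := Jr * (t0 * t2)

lemma io1_X : io1 X = X⁻¹ := by
  unfold io1
  simp [MulAut.mul_apply]
lemma io1_Y : io1 Y = Y := by
  unfold io1
  simp [MulAut.mul_apply, mul_assoc]
lemma io1_mem : io1 ∈ Hs :=
  mul_mem Jr_mem (mul_mem (tau_0 ▸ tau_mem s0) (tau_2 ▸ tau_mem s2))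

/-- the rotation -/
def ro : MulAut F2 := t1 * (t0 * t2)
lemma ro_X : ro X = Y := by
  unfold ro
  simp [MulAut.mul_apply]
lemma ro_Y : ro Y = X⁻¹ := by
  unfold ro
  simp [MulAut.mul_apply, mul_assoc]
lemma ro_mem : ro ∈ Hs :=
  mul_mem (tau_1 ▸ tau_mem s1) (mul_mem (tau_0 ▸ tau_mem s0) (tau_2 ▸ tau_mem s2))

/-- the exchange of `X` and `Y` -/
def ex : MulAut F2 := ro⁻¹ * io1
lemma ex_X : ex X = Y := by
  unfold ex
  rw [MulAut.mul_apply, io1_X, MulAut.inv_apply, MulEquiv.symm_apply_eq, ro_Y]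
lemma ex_Y : ex Y = X := by
  unfold ex
  rw [MulAut.mul_apply, io1_Y, MulAut.inv_apply, MulEquiv.symm_apply_eq, ro_X]
lemma ex_mem : ex ∈ Hs := mul_mem (inv_mem ro_mem) io1_mem

theorem NR_mem {s t : F2} (h : NR s t) : ∃ θ ∈ Hs, θ X = s ∧ θ Y = t := by
  induction h with
  | base => exact ⟨1, one_mem _, rfl, rfl⟩
  | swap _ ih =>
    obtain ⟨θ, hθ, rfl, rfl⟩ := ih
    exact ⟨θ * ex, mul_mem hθ ex_mem, by rw [MulAut.mul_apply, ex_X], by rw [MulAut.mul_apply, ex_Y]⟩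
  | inv _ ih =>
    obtain ⟨θ, hθ, rfl, rfl⟩ := ih
    exact ⟨θ * io1, mul_mem hθ io1_mem, by rw [MulAut.mul_apply, io1_X, map_inv],
      by rw [MulAut.mul_apply, io1_Y]⟩
  | mul _ ih =>
    obtain ⟨θ, hθ, rfl, rfl⟩ := ih
    refine ⟨θ * t2⁻¹, mul_mem hθ (inv_mem (tau_2 ▸ tau_mem s2)), ?_, ?_⟩
    · rw [MulAut.mul_apply, t2i_X]
    · rw [MulAut.mul_apply, t2i_Y, map_mul]
  | conj g _ ih =>
    obtain ⟨θ, hθ, rfl, rfl⟩ := ih
    exact ⟨MulAut.conj g * θ, mul_mem (tau_f2 g ▸ tau_mem (f2 g)) hθ, rfl, rfl⟩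

/-- every automorphism is in `Hs` -/
theorem mem_Hs (θ : MulAut F2) : θ ∈ Hs := by
  have hg : Subgroup.closure ({θ X, θ Y} : Set F2) = ⊤ := by
    rw [eq_top_iff]
    intro g _
    obtain ⟨v, rfl⟩ := θ.surjective g
    have h : Subgroup.closure (Set.range (FreeGroup.of : Fin 2 → F2)) = ⊤ :=
      FreeGroup.closure_range_of (Fin 2)
    have hv : v ∈ Subgroup.closure (Set.range (FreeGroup.of : Fin 2 → F2)) := by rw [h]; trivial
    induction hv using Subgroup.closure_induction with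
    | mem x hx =>
      obtain ⟨i, rfl⟩ := hx
      fin_cases i
      · exact Subgroup.subset_closure (Or.inl rfl)
      · exact Subgroup.subset_closure (Or.inr rfl)
    | one => rw [map_one]; exact one_mem _
    | mul x y _ _ hx hy => rw [map_mul]; exact mul_mem (hx trivial) (hy trivial)
    | inv x _ hx => rw [map_inv]; exact inv_mem (hx trivial)
  obtain ⟨θ', h', hX, hY⟩ := NR_mem (nielsen _ _ _ le_rfl hg)
  rwa [← aut_ext hX hY]

/-- the square of the action of `d3` -/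
theorem tau_d3 : tau d3 * tau d3 = MulAut.conj (Y * X⁻¹ * Y⁻¹ * X) := by
  have e : tau d3 = t0 * t1 * (t0 * t1) * (t0 * t1) := by
    unfold d3
    rw [map_pow, map_mul, tau_0, tau_1, pow_succ, pow_two]
  have hX : tau d3 X = Y * X⁻¹ * Y⁻¹ := by
    rw [e]
    simp [MulAut.mul_apply, mul_assoc]
  have hY : tau d3 Y = Y * X⁻¹ * Y⁻¹ * X * Y⁻¹ := by
    rw [e]
    simp [MulAut.mul_apply, mul_assoc]
  apply aut_ext
  · rw [MulAut.mul_apply, hX, map_mul, map_mul, map_inv, map_inv, hX, hY, MulAut.conj_apply]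
    group
  · rw [MulAut.mul_apply, hY, map_mul, map_mul, map_mul, map_mul, map_inv, map_inv, hX, hY,
      MulAut.conj_apply]
    group

/-- automorphisms which are trivial on the abelianization are inner -/
theorem IA_inner {θ : MulAut F2} (h : ∀ w, bB (f2 (θ w)) = bB (f2 w)) : ∃ v, θ = MulAut.conj v := by
  obtain ⟨z, hz | hz⟩ := mem_Hs θ
  · have h1 : ∀ w, vF ℤ (rB z) (bB (f2 w)) = bB (f2 w) := by
      intro w
      rw [← bB_conj (rB_f2 w), ← f2_tau, ← hz, h]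
    have hX := h1 X
    have hY := h1 Y
    rw [bB_X] at hX
    rw [bB_Y] at hY
    have a1 := congrArg Prod.fst hX
    have a2 := congrArg Prod.snd hX
    have a3 := congrArg Prod.fst hY
    have a4 := congrArg Prod.snd hY
    simp only [vF, Int.cast_id] at a1 a2 a3 a4
    have hz1 : rB z = 1 := by
      ext i j
      fin_cases i <;> fin_cases j
      · show (rB z) 0 0 = 1
        linarith
      · show (rB z) 0 1 = 0
        linarith
      · show (rB z) 1 0 = 0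
        linarith
      · show (rB z) 1 1 = 1
        linarith
    obtain ⟨w, n, h2, h3, -⟩ := kerB (Or.inl hz1)
    rw [hz1] at h3
    have hn : Even n := by
      by_contra hodd
      rw [Int.not_even_iff_odd] at hodd
      rw [hodd.neg_one_zpow] at h3
      have h4 := congrArg (fun g : SL => g 0 0) h3
      simp at h4
    obtain ⟨k, rfl⟩ := hn
    refine ⟨w * (Y * X⁻¹ * Y⁻¹ * X) ^ k, ?_⟩
    rw [hz, h2, map_mul, tau_f2, map_zpow, ← two_mul, zpow_mul, zpow_two, tau_d3, ← map_zpow, ← map_mul]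
  · exfalso
    have h1 : ∀ w, vF ℤ (rB z) (bB (f2 (Jr w))) = bB (f2 w) := by
      intro w
      rw [← bB_conj (rB_f2 _), ← f2_tau, ← MulAut.mul_apply, ← hz, h]
    have hX := h1 X
    have hY := h1 Y
    rw [Jr_X, map_inv, bB_invk (rB_f2 X), bB_X] at hX
    rw [Jr_Y, map_mul, map_mul, map_inv, bB_mulk (by rw [map_mul, map_inv, rB_f2, rB_f2]; simp),
      bB_mulk (by rw [map_inv, rB_f2, inv_one]), bB_invk (rB_f2 X), bB_X, bB_Y] at hY
    have a1 := congrArg Prod.fst hX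
    have a2 := congrArg Prod.snd hX
    have a3 := congrArg Prod.fst hY
    have a4 := congrArg Prod.snd hY
    simp [vF] at a1 a2 a3 a4
    have hd := det_q (rB z)
    have b1 : (rB z) 0 0 = -1 := by linarith
    have b3 : (rB z) 0 1 = 0 := by linarith
    have b4 : (rB z) 1 1 = 1 := by linarith
    rw [b1, b3, b4] at hd
    norm_num at hd

end Pool.Agent.Helper38.D4
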