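import Pool.Agent.Helper38.D4.Br2

/-!
# Project D4: automorphisms of the braid group on four strands which preserve the length are inner
-/

namespace Pool.Agent.Helper38.D4

open Pool.Agent.Helper7.AG (SL mA mB tr mA_braid Artin)
open Pool.Agent.Helper20.DN
open Pool.Agent.Helper38.BN (HB aH dH BrH)
open Pool.Agent.Helper32.Outer (F2)

/-- the folding -/
def ff : D 0 →* B := lift4 ![s0, s0, s2, s2] s1
  (by
    intro i j
    fin_cases i <;> fin_cases j <;> first | rfl | exact s02 | exact s02.symm)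
  (by
    intro i
    fin_cases i
    · exact s010
    · exact s010
    · exact s121.symm
    · exact s121.symm)

lemma ff_lf (i : Fin 4) : ff (lf i) = (![s0, s0, s2, s2] : Fin 4 → B) i := lift4_lf _ _ _ _ i
lemma ff_0 : ff (lf 0) = s0 := ff_lf 0
lemma ff_1 : ff (lf 1) = s0 := ff_lf 1
lemma ff_2 : ff (lf 2) = s2 := ff_lf 2
lemma ff_3 : ff (lf 3) = s2 := ff_lf 3
lemma ff_ct : ff ct = s1 := lift4_ct _ _ _ _

lemma ff_jB (x : B) : ff (jB 0 x) = x := by
  induction x using indB with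
  | h0 => rw [jB_0, ff_0]
  | h1 => rw [jB_1, ff_ct]
  | h2 => rw [jB_2, ff_2]
  | ho => rw [map_one, map_one]
  | hm x y hx hy => rw [map_mul, map_mul, hx, hy]
  | hi x hx => rw [map_inv, map_inv, hx]

lemma rB_ff (x : D 0) : rB (ff x) = rho x := by
  have h : rB.comp ff = rho := by
    apply hom4_ext
    · intro i
      rw [MonoidHom.comp_apply, ff_lf, rho_lf]
      fin_cases i
      · exact rB_0
      · exact rB_0
      · exact rB_2
      · exact rB_2
    · rw [MonoidHom.comp_apply, ff_ct, rho_ct, rB_1]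
  exact DFunLike.congr_fun h x

lemma rB_surj : Function.Surjective rB := by
  intro g
  obtain ⟨x, rfl⟩ := rho_surj g
  exact ⟨ff x, rB_ff x⟩

/-- the elements over `1` and `-1` -/
lemma ker_one {x : B} {s : SL} (hs : s = 1 ∨ s = -1) (h : rB x = s) {n : ℤ}
    (hl : lB x = Multiplicative.ofAdd n) : ∃ k : ℤ, s = (-1) ^ k ∧ n = 6 * k := by
  obtain ⟨w, k, -, h1, h2⟩ := kerB (x := x) (by rw [h]; exact hs)
  refine ⟨k, by rw [← h, h1], ?_⟩
  rw [hl] at h2
  exact Multiplicative.ofAdd.injective h2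

/-- inner -/
def Inn4 (β : MulAut B) : Prop := ∃ s : B, ∀ b, β b = s * b * s⁻¹

lemma Inn4.of_conj {β : MulAut B} {m : B} (h : Inn4 (MulAut.conj m * β)) : Inn4 β := by
  obtain ⟨s, hs⟩ := h
  refine ⟨m⁻¹ * s, fun b => ?_⟩
  have h1 := hs b
  rw [MulAut.mul_apply, MulAut.conj_apply] at h1
  calc β b = m⁻¹ * (m * β b * m⁻¹) * m := by group
    _ = m⁻¹ * (s * b * s⁻¹) * m := by rw [h1]
    _ = m⁻¹ * s * b * (m⁻¹ * s)⁻¹ := by group

lemma lB_conj {β : MulAut B} (hl : ∀ b, lB (β b) = lB b) (m : B) (b : B) :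
    lB ((MulAut.conj m * β) b) = lB b := by
  rw [MulAut.mul_apply, MulAut.conj_apply, map_mul, map_mul, map_inv, mul_comm (lB m),
    mul_inv_cancel_right, hl]

lemma rB_conj {β : MulAut B} {m : B} (hm : rB m = 1 ∨ rB m = -1) (hr : ∀ b, rB (β b) = rB b) (b : B) :
    rB ((MulAut.conj m * β) b) = rB b := by
  rw [MulAut.mul_apply, MulAut.conj_apply, map_mul, map_mul, map_inv, hr]
  rcases hm with h | h <;> rw [h] <;> simp

/-- the identity on the free subgroup implies the identity -/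
theorem step_c {β : MulAut B} (hr : ∀ b, rB (β b) = rB b) (hl : ∀ b, lB (β b) = lB b)
    (hf : ∀ w, β (f2 w) = f2 w) (x : B) : β x = x := by
  obtain ⟨u, hu⟩ := kerB_one (x := x⁻¹ * β x) (by rw [map_mul, map_inv, hr, inv_mul_cancel])
    (by rw [map_mul, map_inv, hl, inv_mul_cancel])
  have h1 : ∀ w, u * w = w * u := by
    intro w
    apply f2_inj
    have h2 : β (x * f2 w * x⁻¹) = x * f2 w * x⁻¹ := by rw [← f2_tau, hf]
    rw [map_mul, map_mul, map_inv, hf] at h2
    have h3 : β x = x * f2 u := by rw [← hu]; group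
    rw [h3] at h2
    have h4 : f2 u * f2 w * (f2 u)⁻¹ = f2 w := by
      calc f2 u * f2 w * (f2 u)⁻¹ = x⁻¹ * (x * f2 u * f2 w * (x * f2 u)⁻¹) * x := by group
        _ = x⁻¹ * (x * f2 w * x⁻¹) * x := by rw [h2]
        _ = f2 w := by group
    rw [map_mul, map_mul]
    exact mul_inv_eq_iff_eq_mul.1 h4
  have h2 := center_F2 h1
  rw [h2, map_one, inv_mul_eq_one] at hu
  exact hu.symm

/-- trivial on the classes implies inner -/
theorem step_b {β : MulAut B} (hr : ∀ b, rB (β b) = rB b) (hl : ∀ b, lB (β b) = lB b)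
    (hb : ∀ b, rB b = 1 → bB (β b) = bB b) : Inn4 β := by
  have hr' : ∀ b, rB (β⁻¹ b) = rB b := fun b => by rw [← hr (β⁻¹ b), MulAut.apply_inv_self]
  have hl' : ∀ b, lB (β⁻¹ b) = lB b := fun b => by rw [← hl (β⁻¹ b), MulAut.apply_inv_self]
  have h1 : ∀ w, ∃ v, β (f2 w) = f2 v := fun w =>
    kerB_one (by rw [hr, rB_f2]) (by rw [hl, lB_f2])
  have h2 : ∀ w, ∃ v, β⁻¹ (f2 w) = f2 v := fun w =>
    kerB_one (by rw [hr', rB_f2]) (by rw [hl', lB_f2])
  choose f hf using h1
  choose g hg using h2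
  let θ : MulAut F2 :=
    { toFun := f
      invFun := g
      left_inv := fun w => f2_inj (by rw [← hg, ← hf, MulAut.inv_apply_self])
      right_inv := fun w => f2_inj (by rw [← hf, ← hg, MulAut.apply_inv_self])
      map_mul' := fun v w => f2_inj (by rw [← hf, map_mul, map_mul, map_mul, hf, hf]) }
  have hθ : ∀ w, f2 (θ w) = β (f2 w) := fun w => (hf w).symm
  obtain ⟨v, hv⟩ := IA_inner (θ := θ) (fun w => by rw [hθ, hb _ (rB_f2 w)])
  have h3 : Inn4 (MulAut.conj (f2 v)⁻¹ * β) := by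
    refine ⟨1, fun b => ?_⟩
    rw [one_mul, inv_one, mul_one]
    apply step_c (rB_conj (Or.inl (by rw [map_inv, rB_f2, inv_one])) hr) (lB_conj hl _)
    intro w
    rw [MulAut.mul_apply, MulAut.conj_apply, ← hθ, hv, MulAut.conj_apply, map_mul, map_mul, map_inv]
    group
  exact h3.of_conj

/-- the action on the classes -/
theorem cls_e {β : MulAut B} (hr : ∀ b, rB (β b) = rB b) : ∃ e : ℤ, ∀ b, rB b = 1 →
    bB (β b) = e • bB b := by
  have hcr : IsCr (fun x => bB (β (ff x))) := by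
    intro x y
    show bB (β (ff (x * y))) = _
    rw [map_mul, map_mul, bB_mul, hr, rB_ff]
  refine ⟨(bB (β s0)).1 - (bB (β s2)).1, fun b hb => ?_⟩
  have h1 := expand_ker hcr (u := jB 0 b) hb
  rw [ff_jB] at h1
  have h2 : (fun j => (bB (β (ff (lf j)))).1) =
      (fun _ => (bB (β s2)).1) + ((bB (β s0)).1 - (bB (β s2)).1) • al0 := by
    funext j
    show (bB (β (ff (lf j)))).1 = (bB (β s2)).1 + ((bB (β s0)).1 - (bB (β s2)).1) * al0 j
    have e0 : al0 0 = 1 := rfl
    have e1 : al0 1 = 1 := rfl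
    have e2 : al0 2 = 0 := rfl
    have e3 : al0 3 = 0 := rfl
    fin_cases j
    · show (bB (β (ff (lf 0)))).1 = _ + _ * al0 0
      rw [ff_0, e0]; ring
    · show (bB (β (ff (lf 1)))).1 = _ + _ * al0 1
      rw [ff_1, e1]; ring
    · show (bB (β (ff (lf 2)))).1 = _ + _ * al0 2
      rw [ff_2, e2]; ring
    · show (bB (β (ff (lf 3)))).1 = _ + _ * al0 3
      rw [ff_3, e3]; ring
  rw [h1, h2, be_add, be_const_ker _ hb, be_zsmul]
  exact zero_add _

theorem cls_unit {β : MulAut B} (hr : ∀ b, rB (β b) = rB b) : ∃ e : ℤ, (e = 1 ∨ e = -1) ∧ ∀ b,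
    rB b = 1 → bB (β b) = e • bB b := by
  have hr' : ∀ b, rB (β⁻¹ b) = rB b := fun b => by rw [← hr (β⁻¹ b), MulAut.apply_inv_self]
  obtain ⟨e, he⟩ := cls_e hr
  obtain ⟨e', he'⟩ := cls_e hr'
  refine ⟨e, ?_, he⟩
  have h1 := he (β⁻¹ (f2 X)) (by rw [hr', rB_f2])
  rw [MulAut.apply_inv_self, he' _ (rB_f2 X), bB_X] at h1
  have h2 := congrArg Prod.fst h1
  have h3 : (1 : ℤ) = e * e' := by simpa using h2
  exact Int.eq_one_or_neg_one_of_mul_eq_one h3.symm

theorem step_a {β : MulAut B} (hr : ∀ b, rB (β b) = rB b) (hl : ∀ b, lB (β b) = lB b) : Inn4 β := by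
  obtain ⟨e, he, hb⟩ := cls_unit hr
  rcases he with rfl | rfl
  · exact step_b hr hl (fun b h => by rw [hb b h, one_smul])
  · have h1 : Inn4 (MulAut.conj d3 * β) := by
      apply step_b (rB_conj (Or.inr rB_d3) hr) (lB_conj hl _)
      intro b h
      rw [MulAut.mul_apply, MulAut.conj_apply, bB_conj (by rw [hr, h]), rB_d3, hb b h]
      ext <;> simp [vF]
    exact h1.of_conj

/-- automorphisms of the braid group which preserve the length are inner -/
theorem inn4 {β : MulAut B} (hl : ∀ b, lB (β b) = lB b) : Inn4 β := by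
  have hf : Function.Surjective ((rB.comp β.toMonoidHom).comp ff) := by
    intro g
    obtain ⟨x, hx⟩ := rB_surj g
    refine ⟨jB 0 (β.symm x), ?_⟩
    show rB (β (ff (jB 0 (β.symm x)))) = g
    rw [ff_jB, MulEquiv.apply_symm_apply, hx]
  obtain ⟨M, s, hM, hs, h1, h2⟩ := surj_class hf
  have g0 : ((rB (β s0) : SL) : Matrix (Fin 2) (Fin 2) ℤ) * M =
      s • (M * (mA : Matrix (Fin 2) (Fin 2) ℤ)) := by
    have := h1 0
    rw [MonoidHom.comp_apply, ff_0] at this
    exact this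
  have g2 : ((rB (β s2) : SL) : Matrix (Fin 2) (Fin 2) ℤ) * M =
      s • (M * (mA : Matrix (Fin 2) (Fin 2) ℤ)) := by
    have := h1 2
    rw [MonoidHom.comp_apply, ff_2] at this
    exact this
  have g1 : ((rB (β s1) : SL) : Matrix (Fin 2) (Fin 2) ℤ) * M =
      s • (M * (mB : Matrix (Fin 2) (Fin 2) ℤ)) := by
    rw [MonoidHom.comp_apply, ff_ct] at h2
    exact h2
  have hsgn : (if s = 1 then (1 : SL) else -1) = 1 ∨ (if s = 1 then (1 : SL) else -1) = -1 := by
    split_ifs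
    · exact Or.inl rfl
    · exact Or.inr rfl
  rcases hM with hM | hM
  · obtain ⟨m, hm⟩ := rB_surj (⟨M, hM⟩ : SL)
    have k0 := conj_one hM hs g0 (rB m) hm
    have k1 := conj_one hM hs g1 (rB m) hm
    have k2 := conj_one hM hs g2 (rB m) hm
    have e1 : rB (m⁻¹ * β s1 * m * s1⁻¹) = (if s = 1 then (1 : SL) else -1) := by
      rw [map_mul, map_mul, map_mul, map_inv, map_inv, k1, rB_1, mul_inv_cancel_right]
    have e2 : lB (m⁻¹ * β s1 * m * s1⁻¹) = Multiplicative.ofAdd 0 := by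
      rw [map_mul, map_mul, map_mul, map_inv, map_inv, hl, mul_comm (lB m)⁻¹, inv_mul_cancel_right,
        mul_inv_cancel]
      rfl
    obtain ⟨k, hk, hk'⟩ := ker_one hsgn e1 e2
    have hk0 : k = 0 := by omega
    rw [hk0, zpow_zero] at hk
    rw [hk, one_mul] at k0 k1 k2
    have hr : ∀ b, rB ((MulAut.conj m⁻¹ * β) b) = rB b := by
      intro b
      have h3 : ∀ x, (MulAut.conj m⁻¹ * β) x = m⁻¹ * β x * m := fun x => by
        rw [MulAut.mul_apply, MulAut.conj_apply, inv_inv]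
      induction b using indB with
      | h0 => rw [h3, map_mul, map_mul, map_inv, k0, rB_0]
      | h1 => rw [h3, map_mul, map_mul, map_inv, k1, rB_1]
      | h2 => rw [h3, map_mul, map_mul, map_inv, k2, rB_2]
      | ho => rw [map_one]
      | hm x y hx hy => rw [map_mul, map_mul, hx, hy, map_mul]
      | hi x hx => rw [map_inv, map_inv, hx, map_inv]
    exact (step_a hr (lB_conj hl _)).of_conj
  · exfalso
    have hM' : (M * mJ).det = 1 := by rw [det_mJ, hM, neg_neg]
    obtain ⟨m, hm⟩ := rB_surj (⟨M * mJ, hM'⟩ : SL)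
    have k1 := conj_one hM' hs (inv_J hs mJ_B g1) (rB m) hm
    have e1 : rB (m⁻¹ * (β s1)⁻¹ * m * s1⁻¹) = (if s = 1 then (1 : SL) else -1) := by
      rw [map_mul, map_mul, map_mul, map_inv, map_inv, map_inv, k1, rB_1, mul_inv_cancel_right]
    have e2 : lB (m⁻¹ * (β s1)⁻¹ * m * s1⁻¹) = Multiplicative.ofAdd (-2) := by
      rw [map_mul, map_mul, map_mul, map_inv, map_inv, map_inv, hl, mul_comm (lB m)⁻¹,
        inv_mul_cancel_right, lB_1]
      rfl
    obtain ⟨k, -, hk'⟩ := ker_one hsgn e1 e2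
    omega

/-- the statement on the braid group -/
theorem brInner0 : BrInner 0 := by
  intro β hl _
  exact inn4 hl

end Pool.Agent.Helper38.D4
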