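import Pool.Agent.Helper38.D4.Nil

/-!
# Project D4: crossed homomorphisms `D 0 → R × R` over `rho`
-/

namespace Pool.Agent.Helper38.D4

open Pool.Agent.Helper7.AG (SL mA mB tr mA_braid)
open Pool.Agent.Helper20.DN

section
variable (R : Type*) [CommRing R]

/-- the action of a matrix on a pair -/
def vF (g : SL) (v : R × R) : R × R :=
  ((g 0 0 : ℤ) * v.1 + (g 0 1 : ℤ) * v.2, (g 1 0 : ℤ) * v.1 + (g 1 1 : ℤ) * v.2)

variable {R}

lemma vF_mul (g h : SL) (v : R × R) : vF R (g * h) v = vF R g (vF R h v) := by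
  have e : ∀ i j, (g * h : SL) i j = g i 0 * h 0 j + g i 1 * h 1 j := by
    intro i j
    rw [Matrix.SpecialLinearGroup.coe_mul, Matrix.mul_apply, Fin.sum_univ_two]
  ext <;> simp only [vF, e] <;> push_cast <;> ring

@[simp] lemma vF_one (v : R × R) : vF R 1 v = v := by ext <;> simp [vF]
lemma vF_add (g : SL) (v w : R × R) : vF R g (v + w) = vF R g v + vF R g w := by
  ext <;> simp [vF] <;> ring
lemma vF_neg (g : SL) (v : R × R) : vF R g (-v) = -vF R g v := by
  ext <;> simp [vF] <;> ring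
lemma vF_sub (g : SL) (v w : R × R) : vF R g (v - w) = vF R g v - vF R g w := by
  ext <;> simp [vF] <;> ring
@[simp] lemma vF_zero (g : SL) : vF R g 0 = 0 := by ext <;> simp [vF]
lemma vF_zsmul (g : SL) (n : ℤ) (v : R × R) : vF R g (n • v) = n • vF R g v := by
  ext <;> simp [vF] <;> ring
lemma vF_mA (v : R × R) : vF R mA v = (v.1 + v.2, v.2) := by
  ext <;> simp [vF, mA_00, mA_01, mA_10, mA_11]
lemma vF_mB (v : R × R) : vF R mB v = (v.1, -v.1 + v.2) := by
  ext <;> simp [vF, mB_00, mB_01, mB_10, mB_11]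

/-- crossed homomorphisms over `rho` -/
def IsCr (γ : D 0 → R × R) : Prop := ∀ x y, γ (x * y) = γ x + vF R (rho x) (γ y)

lemma IsCr.one {γ : D 0 → R × R} (h : IsCr γ) : γ 1 = 0 := by
  have h1 := h 1 1
  rw [mul_one, map_one, vF_one] at h1
  exact left_eq_add.1 h1

lemma IsCr.inv {γ : D 0 → R × R} (h : IsCr γ) (x : D 0) : γ x⁻¹ = -vF R (rho x)⁻¹ (γ x) := by
  have h1 := h x⁻¹ x
  rw [inv_mul_cancel, h.one, map_inv] at h1
  exact eq_neg_of_add_eq_zero_left h1.symm

theorem cr_ext {γ γ' : D 0 → R × R} (h : IsCr γ) (h' : IsCr γ') (hl : ∀ i, γ (lf i) = γ' (lf i))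
    (hc : γ ct = γ' ct) (x : D 0) : γ x = γ' x := by
  induction x using ind4 with
  | h i => exact hl i
  | hc => exact hc
  | h1 => rw [h.one, h'.one]
  | hm x y hx hy => rw [h, h', hx, hy]
  | hi x hx => rw [h.inv, h'.inv, hx]

/-- the coboundary of `v` -/
def cob (v : R × R) (x : D 0) : R × R := v - vF R (rho x) v

lemma cob_cr (v : R × R) : IsCr (cob v) := by
  intro x y
  unfold cob
  rw [map_mul, vF_mul, vF_sub]
  abel

lemma IsCr.add {γ γ' : D 0 → R × R} (h : IsCr γ) (h' : IsCr γ') : IsCr (fun x => γ x + γ' x) := by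
  intro x y
  show γ (x * y) + γ' (x * y) = γ x + γ' x + vF R (rho x) (γ y + γ' y)
  rw [h, h', vF_add, add_add_add_comm]

lemma IsCr.zsmul {γ : D 0 → R × R} (h : IsCr γ) (n : ℤ) : IsCr (fun x => n • γ x) := by
  intro x y
  show n • γ (x * y) = _
  rw [h, vF_zsmul, smul_add]

lemma IsCr.comp {γ : D 0 → R × R} (h : IsCr γ) {φ : MulAut (D 0)} (hφ : ∀ y, rho (φ y) = rho y) :
    IsCr (fun x => γ (φ x)) := by
  intro x y
  show γ (φ (x * y)) = _
  rw [map_mul, h, hφ]

/-- the values on the generators -/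
theorem IsCr.gen {γ : D 0 → R × R} (h : IsCr γ) (h2 : ∀ r : R, 2 * r = 0 → r = 0) (i : Fin 4) :
    (γ (lf i)).2 = 0 ∧ (γ ct).1 = 0 := by
  have h1 := congrArg γ (lf_braid i)
  rw [h, h, h, h, map_mul, map_mul, rho_lf, rho_ct, vF_mul, vF_mul] at h1
  simp only [vF_mA, vF_mB] at h1
  have e1 := congrArg Prod.fst h1
  have e2 := congrArg Prod.snd h1
  simp only [Prod.fst_add, Prod.snd_add] at e1 e2
  have e3 : (γ (lf i)).2 = (γ ct).1 := by linear_combination e1
  have e4 : 2 * (γ ct).1 = 0 := by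
    rw [e3] at e2
    linear_combination e2
  have e5 := h2 _ e4
  exact ⟨by rw [e3, e5], e5⟩

/-- the action on the multiplicative form of `R × R` -/
def vN : SL →* MulAut (Multiplicative (R × R)) where
  toFun g :=
    { toFun := fun v => Multiplicative.ofAdd (vF R g (Multiplicative.toAdd v))
      invFun := fun v => Multiplicative.ofAdd (vF R g⁻¹ (Multiplicative.toAdd v))
      left_inv := fun v => by
        show Multiplicative.ofAdd (vF R g⁻¹ (vF R g (Multiplicative.toAdd v))) = v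
        rw [← vF_mul, inv_mul_cancel, vF_one]; rfl
      right_inv := fun v => by
        show Multiplicative.ofAdd (vF R g (vF R g⁻¹ (Multiplicative.toAdd v))) = v
        rw [← vF_mul, mul_inv_cancel, vF_one]; rfl
      map_mul' := fun v w => congrArg Multiplicative.ofAdd (vF_add g _ _) }
  map_one' := by
    ext v : 1
    exact congrArg Multiplicative.ofAdd (vF_one _)
  map_mul' g h := by
    ext v : 1
    exact congrArg Multiplicative.ofAdd (vF_mul g h _)

end

/-- the affine group -/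
abbrev Af : Type := Multiplicative (ℤ × ℤ) ⋊[vN (R := ℤ)] SL

lemma Af_ext {a b : Af} (h : Multiplicative.toAdd a.left = Multiplicative.toAdd b.left)
    (h' : a.right = b.right) : a = b := SemidirectProduct.ext h h'

lemma Af_left (a b : Af) : Multiplicative.toAdd (a * b).left =
    Multiplicative.toAdd a.left + vF ℤ a.right (Multiplicative.toAdd b.left) := rfl
lemma Af_right (a b : Af) : (a * b).right = a.right * b.right := rfl

/-- the homomorphism to the affine group -/
def beh (α : Fin 4 → ℤ) : D 0 →* Af :=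
  lift4 (fun i => ⟨Multiplicative.ofAdd (α i, 0), mA⟩) ⟨Multiplicative.ofAdd 0, mB⟩
    (fun i j => by
      apply Af_ext
      · rw [Af_left, Af_left]
        simp only [toAdd_ofAdd, vF_mA]
        ext <;> simp <;> ring
      · rfl)
    (fun i => by
      apply Af_ext
      · simp only [Af_left, Af_right, toAdd_ofAdd, vF_mul, vF_mA, vF_mB]
        ext <;> simp
      · exact mA_braid)

lemma beh_right (α : Fin 4 → ℤ) (x : D 0) : (beh α x).right = rho x := by
  have h : SemidirectProduct.rightHom.comp (beh α) = rho := by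
    apply hom4_ext
    · intro i
      show (beh α (lf i)).right = _
      unfold beh
      rw [lift4_lf, rho_lf]
    · show (beh α ct).right = _
      unfold beh
      rw [lift4_ct, rho_ct]
  exact DFunLike.congr_fun h x

/-- the crossed homomorphism of a vector -/
def be (α : Fin 4 → ℤ) (x : D 0) : ℤ × ℤ := Multiplicative.toAdd (beh α x).left

theorem be_cr (α : Fin 4 → ℤ) : IsCr (be α) := by
  intro x y
  unfold be
  rw [map_mul, Af_left, beh_right]

@[simp] lemma be_lf (α : Fin 4 → ℤ) (i : Fin 4) : be α (lf i) = (α i, 0) := by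
  unfold be beh
  rw [lift4_lf]
  rfl
@[simp] lemma be_ct (α : Fin 4 → ℤ) : be α ct = 0 := by
  unfold be beh
  rw [lift4_ct]
  rfl

lemma be_add (α α' : Fin 4 → ℤ) (x : D 0) : be (α + α') x = be α x + be α' x := by
  refine cr_ext (be_cr _) ((be_cr α).add (be_cr α')) (fun i => ?_) ?_ x
  · simp
  · simp

lemma be_zsmul (n : ℤ) (α : Fin 4 → ℤ) (x : D 0) : be (n • α) x = n • be α x := by
  refine cr_ext (be_cr _) ((be_cr α).zsmul n) (fun i => ?_) ?_ x
  · simp
  · simp

/-- the constant vectors give coboundaries -/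
lemma be_const (c : ℤ) (x : D 0) : be (fun _ => c) x = cob (0, -c) x := by
  refine cr_ext (be_cr _) (cob_cr _) (fun i => ?_) ?_ x
  · rw [be_lf]; unfold cob; rw [rho_lf, vF_mA]; ext <;> simp
  · rw [be_ct]; unfold cob; rw [rho_ct, vF_mB]; ext <;> simp

lemma cob_ker {R : Type*} [CommRing R] (v : R × R) {u : D 0} (hu : rho u = 1) : cob v u = 0 := by
  unfold cob
  rw [hu, vF_one, sub_self]

lemma be_const_ker (c : ℤ) {u : D 0} (hu : rho u = 1) : be (fun _ => c) u = 0 := by
  rw [be_const, cob_ker _ hu]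

lemma two_int (r : ℤ) (h : 2 * r = 0) : r = 0 := by omega

/-- the expansion of a crossed homomorphism -/
theorem expand {γ : D 0 → ℤ × ℤ} (h : IsCr γ) : ∃ v : ℤ × ℤ, ∀ x,
    γ x = be (fun j => (γ (lf j)).1) x + cob v x := by
  refine ⟨((γ ct).2, 0), fun x => ?_⟩
  refine cr_ext h ((be_cr _).add (cob_cr _)) (fun i => ?_) ?_ x
  · rw [be_lf]; unfold cob; rw [rho_lf, vF_mA]
    ext
    · simp
    · simp [(h.gen two_int i).1]
  · rw [be_ct]; unfold cob; rw [rho_ct, vF_mB]
    ext
    · simp [(h.gen two_int 0).2]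
    · simp

theorem expand_ker {γ : D 0 → ℤ × ℤ} (h : IsCr γ) {u : D 0} (hu : rho u = 1) :
    γ u = be (fun j => (γ (lf j)).1) u := by
  obtain ⟨v, hv⟩ := expand h
  rw [hv, cob_ker _ hu, add_zero]

/-- the difference of two leaves -/
theorem cr_diff {γ : D 0 → ℤ × ℤ} (h : IsCr γ) {φ : MulAut (D 0)} (hφ : ∀ y, rho (φ y) = rho y)
    (j k : Fin 4) : γ (φ (lf j * (lf k)⁻¹)) = γ (φ (lf j)) - γ (φ (lf k)) := by
  rw [map_mul, map_inv, h, h.inv, vF_neg, ← vF_mul, hφ, hφ, rho_lf, rho_lf, mul_inv_cancel, vF_one,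
    sub_eq_add_neg]

lemma rho_diff (j k : Fin 4) : rho (lf j * (lf k)⁻¹) = 1 := by
  rw [map_mul, map_inv, rho_lf, rho_lf, mul_inv_cancel]

lemma be_diff (α : Fin 4 → ℤ) (j k : Fin 4) : be α (lf j * (lf k)⁻¹) = (α j - α k, 0) := by
  have h := cr_diff (be_cr α) (φ := 1) (fun y => rfl) j k
  simp only [MulAut.one_apply] at h
  rw [h, be_lf, be_lf]
  ext <;> simp

end Pool.Agent.Helper38.D4
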