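import Pool.Agent.Helper20.DN.Final
import Pool.Agent.Helper7.AG.Sl6
import Pool.Agent.Helper7.AG.Sl5
import Pool.Agent.Helper7.AG.Sl4
import Pool.Agent.Helper38.BT.SlB

/-!
# Project D4 (MP_2ec7a7_al): the Artin group of type `D̃_4`, leaves, center node, `rho`

`D 0` is the Artin group of type `D̃_4`: the center node `ct` and the leaves `lf 0, …, lf 3`.
`rho : D 0 → SL(2, ℤ)`, `lf i ↦ mA`, `ct ↦ mB`.
-/

namespace Pool.Agent.Helper38.D4

open Pool.Agent.Helper7.AG (SL mA mB tr mA_braid)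
open Pool.Agent.Helper20.DN Pool.Agent.Helper38.BN

/-- the leaves -/
def lf (i : Fin 4) : D 0 :=
  match i with
  | 0 => aD 0
  | 1 => eD
  | 2 => aD 2
  | 3 => bD

/-- the center node -/
def ct : D 0 := aD 1

lemma lf0 : lf 0 = aD 0 := rfl
lemma lf1 : lf 1 = eD := rfl
lemma lf2 : lf 2 = aD 2 := rfl
lemma lf3 : lf 3 = bD := rfl

theorem lf_comm (i j : Fin 4) : lf i * lf j = lf j * lf i := by
  have h := relD 0
  have h02 : (aD 0 : D 0) * aD 2 = aD 2 * aD 0 := h.comm 0 2 (by omega) (by omega)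
  have h01 : (eD : D 0) * aD 0 = aD 0 * eD := h.ea
  have h12 : (eD : D 0) * aD 2 = aD 2 * eD := h.ec 2 (by omega) (by omega)
  have h23 : (bD : D 0) * aD 2 = aD 2 * bD := h.ba
  have h03 : (bD : D 0) * aD 0 = aD 0 * bD := h.bc 0 (by omega)
  have h13 : (bD : D 0) * eD = eD * bD := h.be
  fin_cases i <;> fin_cases j <;>
    first | rfl | exact h02 | exact h02.symm | exact h01 | exact h01.symm | exact h12 |
      exact h12.symm | exact h23 | exact h23.symm | exact h03 | exact h03.symm | exact h13 |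
      exact h13.symm

theorem lf_braid (i : Fin 4) : lf i * ct * lf i = ct * lf i * ct := by
  have h := relD 0
  have h0 : (aD 0 : D 0) * aD 1 * aD 0 = aD 1 * aD 0 * aD 1 := h.braid 0 (by omega)
  have h1 : (aD 1 : D 0) * aD 2 * aD 1 = aD 2 * aD 1 * aD 2 := h.braid 1 (by omega)
  have h2 : (bD : D 0) * aD 1 * bD = aD 1 * bD * aD 1 := h.bb
  have h3 : (eD : D 0) * aD 1 * eD = aD 1 * eD * aD 1 := h.eb
  fin_cases i
  · exact h0
  · exact h3
  · exact h1.symm
  · exact h2

section
variable {K : Type*} [Group K]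

/-- the generators of `K` as a sequence -/
def seq4 (x : Fin 4 → K) (y : K) (j : ℕ) : K := if j = 0 then x 0 else if j = 1 then y else x 2

theorem rel4 {x : Fin 4 → K} {y : K} (h1 : ∀ i j, x i * x j = x j * x i)
    (h2 : ∀ i, x i * y * x i = y * x i * y) : RelD 0 (seq4 x y) (x 3) (x 1) where
  comm i j h h' := by
    have hi : i = 0 := by omega
    have hj : j = 2 := by omega
    subst hi hj
    exact h1 0 2
  braid i h := by
    have hi : i = 0 ∨ i = 1 := by omega
    rcases hi with rfl | rfl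
    · exact h2 0
    · exact (h2 2).symm
  ba := h1 3 2
  bb := h2 3
  bc i h := by
    have hi : i = 0 := by omega
    subst hi
    exact h1 3 0
  ea := h1 1 0
  eb := h2 1
  ec i h h' := by
    have hi : i = 2 := by omega
    subst hi
    exact h1 1 2
  be := h1 3 1

/-- the universal property -/
def lift4 (x : Fin 4 → K) (y : K) (h1 : ∀ i j, x i * x j = x j * x i)
    (h2 : ∀ i, x i * y * x i = y * x i * y) : D 0 →* K := liftD (rel4 h1 h2)

lemma lift4_lf (x : Fin 4 → K) (y : K) (h1 : ∀ i j, x i * x j = x j * x i)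
    (h2 : ∀ i, x i * y * x i = y * x i * y) (i : Fin 4) : lift4 x y h1 h2 (lf i) = x i := by
  fin_cases i
  · exact liftD_a (rel4 h1 h2) (show 0 < 0 + 3 by omega)
  · exact liftD_e (rel4 h1 h2)
  · exact liftD_a (rel4 h1 h2) (show 2 < 0 + 3 by omega)
  · exact liftD_b (rel4 h1 h2)

lemma lift4_ct (x : Fin 4 → K) (y : K) (h1 : ∀ i j, x i * x j = x j * x i)
    (h2 : ∀ i, x i * y * x i = y * x i * y) : lift4 x y h1 h2 ct = y :=
  liftD_a (rel4 h1 h2) (show 1 < 0 + 3 by omega)

theorem hom4_ext {f g : D 0 →* K} (h : ∀ i, f (lf i) = g (lf i)) (hc : f ct = g ct) : f = g := by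
  apply homD_ext
  · intro j hj
    have h3 : j = 0 ∨ j = 1 ∨ j = 2 := by omega
    rcases h3 with rfl | rfl | rfl
    · exact h 0
    · exact hc
    · exact h 2
  · exact h 3
  · exact h 1

end

theorem closure4 : Subgroup.closure (Set.range lf ∪ {ct} : Set (D 0)) = ⊤ := by
  have h : Subgroup.closure ({bD, eD} ∪ (aD : ℕ → D 0) '' {j | j < 0 + 3}) = ⊤ := closure_D
  rw [eq_top_iff, ← h, Subgroup.closure_le]
  have hm : ∀ i, lf i ∈ Subgroup.closure (Set.range lf ∪ {ct} : Set (D 0)) := fun i =>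
    Subgroup.subset_closure (Or.inl ⟨i, rfl⟩)
  rintro x ((rfl | rfl) | ⟨j, hj, rfl⟩)
  · exact hm 3
  · exact hm 1
  · have h3 : j = 0 ∨ j = 1 ∨ j = 2 := by
      have : j < 0 + 3 := hj
      omega
    rcases h3 with rfl | rfl | rfl
    · exact hm 0
    · exact Subgroup.subset_closure (Or.inr rfl)
    · exact hm 2

/-- induction -/
theorem ind4 {p : D 0 → Prop} (h : ∀ i, p (lf i)) (hc : p ct) (h1 : p 1)
    (hm : ∀ x y, p x → p y → p (x * y)) (hi : ∀ x, p x → p x⁻¹) (x : D 0) : p x := by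
  have hx : x ∈ Subgroup.closure (Set.range lf ∪ {ct} : Set (D 0)) := by
    rw [closure4]; exact Subgroup.mem_top x
  induction hx using Subgroup.closure_induction with
  | mem x hx =>
    rcases hx with ⟨i, rfl⟩ | hx
    · exact h i
    · rw [Set.mem_singleton_iff] at hx
      rw [hx]; exact hc
  | one => exact h1
  | mul x y _ _ hx hy => exact hm x y hx hy
  | inv x _ hx => exact hi x hx

/-- `lf i ↦ mA`, `ct ↦ mB` -/
def rho : D 0 →* SL := lift4 (fun _ => mA) mB (fun _ _ => rfl) (fun _ => mA_braid)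

@[simp] lemma rho_lf (i : Fin 4) : rho (lf i) = mA := lift4_lf _ _ _ _ i
@[simp] lemma rho_ct : rho ct = mB := lift4_ct _ _ _ _

theorem rho_surj : Function.Surjective rho := by
  rw [← MonoidHom.range_eq_top, eq_top_iff, ← Pool.Agent.Helper7.AG.closure_AB, Subgroup.closure_le]
  rintro x (rfl | rfl)
  · exact ⟨lf 0, rho_lf 0⟩
  · exact ⟨ct, rho_ct⟩

@[simp] lemma len_lf (i : Fin 4) : lenD 0 (lf i) = Multiplicative.ofAdd 1 := by
  fin_cases i
  · exact lenD_a (by omega)
  · exact lenD_e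
  · exact lenD_a (by omega)
  · exact lenD_b
@[simp] lemma len_ct : lenD 0 ct = Multiplicative.ofAdd 1 := lenD_a (by omega)

end Pool.Agent.Helper38.D4
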