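import Pool.Agent.Helper38.D4.Nm
import Pool.Agent.Helper20.DN.S7

/-!
# Project D4: normalized automorphisms preserve the kernels of the foldings
-/

namespace Pool.Agent.Helper38.D4

open Pool.Agent.Helper7.AG (SL mA mB tr mA_braid Artin)
open Pool.Agent.Helper20.DN
open Pool.Agent.Helper38.BN (G xG yG homG_ext rG xw)
open Pool.Agent.Helper38.DN (qR fR fR_inj qR_eq_one decompN memN QQ QQ_apply QQ_one Vd comm_Vd
  LR_of_v0 LR_N LL_N)

/-- `NN` is preserved -/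
theorem Nm.mapNN {ψ : MulAut (D 0)} (h : Nm ψ) {x : D 0} (hx : x ∈ NN 0) : ψ x ∈ NN 0 := by
  rw [Pool.Agent.Helper38.DN.NN_eq] at hx ⊢
  obtain ⟨s, hs⟩ := h.pi
  have h2 : ∀ x, Pool.Agent.Helper38.DN.piD 0 ((MulAut.conj s⁻¹ * ψ) x) =
      Pool.Agent.Helper38.DN.piD 0 x := by
    intro x
    change Pool.Agent.Helper38.DN.piD 0 (s⁻¹ * ψ x * s⁻¹⁻¹) = Pool.Agent.Helper38.DN.piD 0 x
    rw [map_mul, map_mul, hs, map_mul, map_mul, map_inv, map_inv, map_inv]
    group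
  have h3 := Pool.Agent.Helper38.DN.NN_char_pure Pool.Agent.Helper38.DN.NN_fg h2 hx
  have h4 := (inferInstance : (Pool.Agent.Helper38.DN.NN 0).Normal).conj_mem _ h3 s
  have h5 : s * (MulAut.conj s⁻¹ * ψ) x * s⁻¹ = ψ x := by
    change s * (s⁻¹ * ψ x * s⁻¹⁻¹) * s⁻¹ = ψ x
    group
  rwa [h5] at h4

/-! ### the parity -/

theorem sgn_lam0 (l : L (0 + 3)) : (sgn 0 (lam 0 l)).1 = 1 := by
  obtain ⟨g, rfl⟩ := mkL_surj (0 + 3) l
  let f : G (0 + 3) →* ℤˣ := (MonoidHom.fst ℤˣ ℤˣ).comp ((sgn 0).comp ((lam 0).comp (mkL (0 + 3))))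
  have hx : ∀ i, i ≤ 0 + 3 → f (xG i) = 1 := by
    intro i hi
    have h1 := sgn_sW (p := 0) (xW i)
    have h2 : sW (0 + 3) (xW i) = mkL (0 + 3) (xG i) := sW_x hi
    rw [h2] at h1
    exact congrArg Prod.fst h1
  have hr : f (rG (0 + 3)) = 1 := by
    have h1 := sgn_ze (p := 0)
    rw [← lam_r] at h1
    have h2 := congrArg Prod.fst h1
    have h3 : ((((-1) ^ (0 + 4), 1) : ℤˣ × ℤˣ)).1 = 1 := by decide
    exact h2.trans h3
  have hy : f yG = 1 := by
    have h1 : f (yG * (xG 0 * xG 1 * xG 2 * xG 3)) = 1 := hr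
    rw [map_mul, map_mul, map_mul, map_mul, hx 0 (by omega), hx 1 (by omega), hx 2 (by omega),
      hx 3 (by omega)] at h1
    simpa using h1
  have h : f = 1 := homG_ext hx hy
  exact DFunLike.congr_fun h g

lemma memN_even {x : D 0} (hx : x ∈ NN 0) : ∃ w, qR 0 (iD x) = fR 0 w ∧ parW (0 + 3) w = 1 := by
  obtain ⟨l, w, h⟩ := decompN (p := 0) (x := iD x) hx
  refine ⟨w, by rw [h, map_mul, Pool.Agent.Helper38.DN.qR_lam, one_mul]; rfl, ?_⟩
  have h1 := congrArg (sgn 0) h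
  have h2 : sgn 0 (iD x) = 1 := SemidirectProduct.rightHom_inl x
  rw [h2, map_mul, sgn_sW'] at h1
  have h3 := congrArg Prod.fst h1
  rw [Prod.fst_mul, sgn_lam0, one_mul] at h3
  exact h3.symm

/-! ### the classes on `LR` -/

theorem be_LR {α : Fin 4 → ℤ} (hα : α 2 = α 3) (h0 : α 0 ≠ α 2) {x : D 0} (hx : x ∈ LR 0) :
    rho x = 1 ∧ be α x = 0 := by
  -- the normal closure of `v_0`
  have hV : ∀ z ∈ Vd 0, rho z = 1 ∧ be α z = 0 := by
    let N : Subgroup (D 0) :=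
      { carrier := {z | rho z = 1 ∧ be α z = 0}
        mul_mem' := fun {a b} ha hb => ⟨by rw [map_mul, ha.1, hb.1, mul_one],
          by rw [be_mul ha.1, ha.2, hb.2, add_zero]⟩
        one_mem' := ⟨map_one _, (be_cr α).one⟩
        inv_mem' := fun {a} ha => ⟨by rw [map_inv, ha.1, inv_one],
          by rw [be_inv ha.1, ha.2, neg_zero]⟩ }
    have hN : N.Normal := ⟨fun z hz g => ⟨by rw [map_mul, map_mul, hz.1, mul_one, map_inv,
      mul_inv_cancel], by rw [be_conj hz.1, hz.2, vF_zero]⟩⟩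
    have hle : Vd 0 ≤ N := by
      apply Subgroup.normalClosure_le_normal
      intro z hz
      rw [Set.mem_singleton_iff] at hz
      rw [hz]
      refine ⟨rho_diff 3 2, ?_⟩
      have h1 := be_diff α 3 2
      rw [← hα, sub_self] at h1
      exact h1
    exact fun z hz => hle hz
  have hc : ∀ y, rho (y * x * y⁻¹ * x⁻¹) = 1 ∧ be α (y * x * y⁻¹ * x⁻¹) = 0 := fun y =>
    hV _ (comm_Vd hx y)
  have hr : ∀ y, rho x * rho y = rho y * rho x := by
    intro y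
    have h1 := (hc y).1
    rw [map_mul, map_mul, map_mul, map_inv, map_inv, mul_inv_eq_one, mul_inv_eq_iff_eq_mul] at h1
    exact h1.symm
  have hs : rho x = 1 ∨ rho x = -1 := by
    by_contra hcon
    rw [not_or] at hcon
    have h1 := hr (lf 0)
    have h2 := hr ct
    rw [rho_lf] at h1
    rw [rho_ct] at h2
    exact mA_mB_ne (Pool.Agent.Helper7.AG.comm_of_comm hcon.1 hcon.2 h1 h2)
  have hb : ∀ y, be α y + vF ℤ (rho y) (be α x) = be α x + vF ℤ (rho x) (be α y) := by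
    intro y
    have h1 : y * x = (y * x * y⁻¹ * x⁻¹) * (x * y) := by group
    have h2 := congrArg (be α) h1
    rw [be_mul (hc y).1, (hc y).2, be_cr, be_cr] at h2
    rw [h2]
    exact zero_add (be α x + vF ℤ (rho x) (be α y))
  have b0 := hb (lf 0)
  have b2 := hb (lf 2)
  have bc := hb ct
  rw [be_lf, rho_lf, vF_mA] at b0 b2
  rw [be_ct, rho_ct, vF_mB] at bc
  rcases hs with hs | hs
  · refine ⟨hs, ?_⟩
    rw [hs, vF_one] at b0 bc
    have e1 := congrArg Prod.fst b0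
    have e2 := congrArg Prod.snd bc
    simp only [Prod.fst_add, Prod.snd_add, Prod.snd_zero] at e1 e2
    ext
    · show (be α x).1 = 0
      omega
    · show (be α x).2 = 0
      omega
  · exfalso
    have hneg : ∀ v : ℤ × ℤ, vF ℤ (-1) v = -v := by
      intro v
      ext <;> simp [vF]
    rw [hs, hneg] at b0 b2
    have e1 := congrArg Prod.fst b0
    have e2 := congrArg Prod.fst b2
    simp only [Prod.fst_add, Prod.fst_neg] at e1 e2
    omega

/-- the image of `v_0` is in `LR` -/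
theorem Nm.v0 {ψ : MulAut (D 0)} (h : Nm ψ) : QQ ψ (bD * (aD (0 + 2))⁻¹) = 1 := by
  obtain ⟨s, hs, hb⟩ := h.cls
  have hu : (eD * (aD 0)⁻¹ : D 0) ∈ NN 0 := LL_N u0_LL
  have hv : (bD * (aD (0 + 2))⁻¹ : D 0) ∈ NN 0 := LR_N v0_LR
  obtain ⟨u, hu', pu⟩ := memN_even (h.mapNN hu)
  obtain ⟨v, hv', pv⟩ := memN_even (h.mapNN hv)
  rw [← QQ_apply] at hu' hv'
  have hcomm : (eD * (aD 0)⁻¹ : D 0) * (bD * (aD (0 + 2))⁻¹) =
      (bD * (aD (0 + 2))⁻¹) * (eD * (aD 0)⁻¹) := by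
    have c : ∀ i j, Commute (lf i) (lf j) := fun i j => lf_comm i j
    exact (((c 1 3).mul_right (c 1 2).inv_right).mul_left
      ((c 0 3).mul_right (c 0 2).inv_right).inv_left).eq
  have huv : u * v = v * u := by
    apply fR_inj (p := 0)
    rw [map_mul, map_mul, ← hu', ← hv', ← map_mul, ← map_mul, hcomm]
  by_contra hne
  have hv1 : v ≠ 1 := by
    rintro rfl
    exact hne (by rw [hv', map_one])
  obtain ⟨c, -, -, hc⟩ := cyc_cent hv1 pv
  obtain ⟨b, hb'⟩ := Subgroup.mem_zpowers_iff.1 (hc v pv rfl)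
  obtain ⟨a, ha⟩ := Subgroup.mem_zpowers_iff.1 (hc u pu huv)
  have hb0 : b ≠ 0 := by
    rintro rfl
    exact hv1 (by rw [← hb', zpow_zero])
  have hx : QQ ψ ((eD * (aD 0)⁻¹ : D 0) ^ b * (bD * (aD (0 + 2))⁻¹) ^ (-a)) = 1 := by
    rw [map_mul, map_zpow, map_zpow, hu', hv', ← map_zpow, ← map_zpow, ← map_mul, ← ha, ← hb',
      ← zpow_mul, ← zpow_mul, ← zpow_add]
    have e : a * b + b * -a = 0 := by ring
    rw [e, zpow_zero, map_one]
  rw [QQ_one] at hx
  have ru : rho (eD * (aD 0)⁻¹ : D 0) = 1 := rho_diff 1 0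
  have rv : rho (bD * (aD (0 + 2))⁻¹ : D 0) = 1 := rho_diff 3 2
  have h1 := (be_LR (α := sg1 0) (by decide) (by decide) hx).2
  rw [hb (sg1 0) _ (by rw [map_mul, rho_zpow ru, rho_zpow rv, mul_one]), be_mul (rho_zpow ru _),
    be_zpow ru, be_zpow rv] at h1
  have e1 : be (sg1 0) (eD * (aD 0)⁻¹ : D 0) = (-1, 0) := be_diff (sg1 0) 1 0
  have e2 : be (sg1 0) (bD * (aD (0 + 2))⁻¹ : D 0) = (0, 0) := be_diff (sg1 0) 3 2
  rw [e1, e2] at h1
  have h2 := congrArg Prod.fst h1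
  rcases hs with rfl | rfl
  · simp at h2
    exact hb0 h2
  · simp at h2
    exact hb0 h2

theorem Nm.plr {ψ : MulAut (D 0)} (h : Nm ψ) : PLR ψ := by
  intro x
  constructor
  · intro hx
    have h1 := LR_of_v0 (ψ := ψ⁻¹) (fun y hy => h.inv.mapNN hy) h.inv.v0 hx
    rwa [MulAut.inv_apply_self] at h1
  · exact fun hx => LR_of_v0 (fun y hy => h.mapNN hy) h.v0 hx

theorem Nm.pll {ψ : MulAut (D 0)} (h : Nm ψ) : PLL ψ := by
  have h1 := h.mir.plr.mirror
  rwa [mir_mir] at h1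

theorem pi_eps (x : D 0) : Pool.Agent.Helper38.DN.piD 0 (eps 0 x) = Pool.Agent.Helper38.DN.piD 0 x := by
  have h : (Pool.Agent.Helper38.DN.piD 0).comp (eps 0).toMonoidHom = Pool.Agent.Helper38.DN.piD 0 := by
    have hl : ∀ i, ∃ a b, Pool.Agent.Helper38.DN.piD 0 (lf i) = Equiv.swap a b := by
      intro i
      fin_cases i
      · exact ⟨0, 1, Pool.Agent.Helper38.DN.piD_a (by omega)⟩
      · exact ⟨0, 1, Pool.Agent.Helper38.DN.piD_e⟩
      · exact ⟨2, 3, Pool.Agent.Helper38.DN.piD_a (by omega)⟩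
      · exact ⟨2, 3, Pool.Agent.Helper38.DN.piD_b⟩
    apply hom4_ext
    · intro i
      obtain ⟨a, b, h⟩ := hl i
      show Pool.Agent.Helper38.DN.piD 0 (eps 0 (lf i)) = _
      rw [eps_lf, map_inv, h, Equiv.swap_inv]
    · show Pool.Agent.Helper38.DN.piD 0 (eps 0 ct) = _
      have h : Pool.Agent.Helper38.DN.piD 0 ct = Equiv.swap 1 2 :=
        Pool.Agent.Helper38.DN.piD_a (by omega)
      rw [eps_ct, map_inv, h, Equiv.swap_inv]
  exact DFunLike.congr_fun h x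

/-- the form of the normalized automorphisms -/
theorem Nm.form (hB : BrInner 0) (hS : Solv 0) {ψ : MulAut (D 0)} (h : Nm ψ) :
    ∃ γ : Dh 0, ψ = cj 0 γ ∨ ψ = cj 0 γ * eps 0 := by
  obtain ⟨t, ht⟩ := h.pi
  have h1 : PiC ψ := ⟨Pool.Agent.Helper38.DN.piD 0 t, fun x => by
    rw [piH_foldG, piH_foldG, ht, map_mul, map_mul, map_inv]⟩
  have h2 : PiC (ψ * eps 0) := ⟨Pool.Agent.Helper38.DN.piD 0 t, fun x => by
    rw [piH_foldG, piH_foldG, MulAut.mul_apply, ht, map_mul, map_mul, map_inv, pi_eps]⟩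
  exact aut_pres hB hS h.plr h.pll h1 h2

end Pool.Agent.Helper38.D4
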