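import Pool.Agent.Helper20.DN.S6
import Pool.Agent.Helper7.AG.Fv
import Pool.Agent.Helper7.AG.Fsum

/-!
# Project D4: the equation in `W 3`

The even subgroup of `W 3` is free on `R = x_0 x_1 x_2 x_3`, `x_1 x_2` and `x_2 x_3`; the equation is solved by
`mult_word` for the free product of `⟨R⟩` and `⟨x_1 x_2, x_2 x_3⟩`.
-/

namespace Pool.Agent.Helper38.D4

open Pool.Agent.Helper20.DN
open Pool.Agent.Helper7.AG (FreeProd freeProd_sum mult_word)

/-- the free group with the basis `R`, `x_1 x_2`, `x_2 x_3` -/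
abbrev FB : Type := FreeGroup (Unit ⊕ Bool)

/-- the basis elements -/
def fr : FB := FreeGroup.of (Sum.inl ())
def fa : FB := FreeGroup.of (Sum.inr false)
def fb : FB := FreeGroup.of (Sum.inr true)

/-- the homomorphism to `W 3` -/
def thW : FB →* W 3 := FreeGroup.lift (Sum.elim (fun _ => RW 3)
  (fun b => if b = true then xW 2 * xW 3 else xW 1 * xW 2))

lemma thW_r : thW fr = RW 3 := by unfold thW fr; rw [FreeGroup.lift_apply_of]; rfl
lemma thW_a : thW fa = xW 1 * xW 2 := by unfold thW fa; rw [FreeGroup.lift_apply_of]; rfl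
lemma thW_b : thW fb = xW 2 * xW 3 := by unfold thW fb; rw [FreeGroup.lift_apply_of]; rfl

/-! ### `thW` is injective -/

/-- the free group on `x_0 x_i` -/
abbrev FT : Type := FreeGroup (Fin 3)

/-- the inversion of the basis -/
def tauT : FT →* FT := FreeGroup.lift (fun i => (FreeGroup.of i)⁻¹)

lemma tauT_of (i : Fin 3) : tauT (FreeGroup.of i) = (FreeGroup.of i)⁻¹ := FreeGroup.lift_apply_of

lemma tauT_tauT (g : FT) : tauT (tauT g) = g := by
  have h : tauT.comp tauT = MonoidHom.id FT := by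
    ext i
    rw [MonoidHom.comp_apply, tauT_of, map_inv, tauT_of, inv_inv]
    rfl
  exact DFunLike.congr_fun h g

/-- the element `t_i` -/
def tI (i : ℕ) : FT := if i = 0 then 1 else if i = 1 then FreeGroup.of 0 else if i = 2 then
  FreeGroup.of 1 else if i = 3 then FreeGroup.of 2 else 1

lemma tauT_tI (i : ℕ) : tauT (tI i) = (tI i)⁻¹ := by
  unfold tI
  split_ifs <;> simp [tauT_of]

/-- the action of `x_i` -/
def PX (i : ℕ) : Equiv.Perm (FT × Bool) where
  toFun q := ((tI i)⁻¹ * tauT q.1, !q.2)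
  invFun q := ((tI i)⁻¹ * tauT q.1, !q.2)
  left_inv q := by
    rcases q with ⟨g, b⟩
    simp [tauT_tI, tauT_tauT]
  right_inv q := by
    rcases q with ⟨g, b⟩
    simp [tauT_tI, tauT_tauT]

lemma PX_apply (i : ℕ) (g : FT) (b : Bool) : PX i (g, b) = ((tI i)⁻¹ * tauT g, !b) := rfl

lemma PX_sq (i : ℕ) : PX i * PX i = 1 := by
  ext q : 1
  exact (PX i).left_inv q

/-- the action of `W 3` -/
def actW : W 3 →* Equiv.Perm (FT × Bool) := liftW PX (fun i _ => PX_sq i)

lemma actW_x {i : ℕ} (h : i ≤ 3) : actW (xW i) = PX i := liftW_x _ _ h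

/-- the homomorphism to `FT` -/
def thT : FB →* FT := FreeGroup.lift (Sum.elim (fun _ => tI 1 * (tI 2)⁻¹ * tI 3)
  (fun b => if b = true then (tI 2)⁻¹ * tI 3 else (tI 1)⁻¹ * tI 2))

lemma thT_r : thT fr = tI 1 * (tI 2)⁻¹ * tI 3 := by
  unfold thT fr; rw [FreeGroup.lift_apply_of]; rfl
lemma thT_a : thT fa = (tI 1)⁻¹ * tI 2 := by unfold thT fa; rw [FreeGroup.lift_apply_of]; rfl
lemma thT_b : thT fb = (tI 2)⁻¹ * tI 3 := by unfold thT fb; rw [FreeGroup.lift_apply_of]; rfl

/-- the left inverse -/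
def thB : FT →* FB := FreeGroup.lift ![fr * fb⁻¹, fr * fb⁻¹ * fa, fr * fb⁻¹ * fa * fb]

lemma thB_thT (x : FB) : thB (thT x) = x := by
  have e1 : thB (tI 1) = fr * fb⁻¹ := by
    show thB (FreeGroup.of 0) = _
    unfold thB; rw [FreeGroup.lift_apply_of]; rfl
  have e2 : thB (tI 2) = fr * fb⁻¹ * fa := by
    show thB (FreeGroup.of 1) = _
    unfold thB; rw [FreeGroup.lift_apply_of]; rfl
  have e3 : thB (tI 3) = fr * fb⁻¹ * fa * fb := by
    show thB (FreeGroup.of 2) = _
    unfold thB; rw [FreeGroup.lift_apply_of]; rfl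
  have h : thB.comp thT = MonoidHom.id FB := by
    ext o
    rcases o with u | b
    · show thB (thT fr) = fr
      rw [thT_r, map_mul, map_mul, map_inv, e1, e2, e3]
      group
    · cases b
      · show thB (thT fa) = fa
        rw [thT_a, map_mul, map_inv, e1, e2]
        group
      · show thB (thT fb) = fb
        rw [thT_b, map_mul, map_inv, e3, e2]
        group
  exact DFunLike.congr_fun h x

/-- the left multiplication -/
def Lm : FT →* Equiv.Perm (FT × Bool) where
  toFun h :=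
    { toFun := fun q => (h * q.1, q.2)
      invFun := fun q => (h⁻¹ * q.1, q.2)
      left_inv := fun q => by simp
      right_inv := fun q => by simp }
  map_one' := by
    ext q : 1
    exact Prod.ext (one_mul _) rfl
  map_mul' h h' := by
    ext q : 1
    exact Prod.ext (mul_assoc _ _ _) rfl

lemma PX_PX (i j : ℕ) (q : FT × Bool) : PX i (PX j q) = ((tI i)⁻¹ * tI j * q.1, q.2) := by
  rcases q with ⟨g, b⟩
  rw [PX_apply, PX_apply, map_mul, map_inv, tauT_tI, tauT_tauT, inv_inv, Bool.not_not, mul_assoc]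

theorem actW_thW (x : FB) : actW (thW x) = Lm (thT x) := by
  have h : actW.comp thW = Lm.comp thT := by
    ext o : 1
    rcases o with u | b
    · show actW (thW fr) = Lm (thT fr)
      rw [thW_r, thT_r]
      have e : (RW 3 : W 3) = xW 0 * xW 1 * (xW 2 * xW 3) := by
        show xW 0 * xW 1 * xW 2 * xW 3 = _
        rw [mul_assoc]
      rw [e, map_mul, map_mul, map_mul, actW_x (by omega), actW_x (by omega), actW_x (by omega),
        actW_x (by omega)]
      ext q : 1
      show PX 0 (PX 1 (PX 2 (PX 3 q))) = (tI 1 * (tI 2)⁻¹ * tI 3 * q.1, q.2)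
      rw [PX_PX, PX_PX]
      simp [tI, mul_assoc]
    · cases b
      · show actW (thW fa) = Lm (thT fa)
        rw [thW_a, thT_a, map_mul, actW_x (by omega), actW_x (by omega)]
        ext q : 1
        exact PX_PX 1 2 q
      · show actW (thW fb) = Lm (thT fb)
        rw [thW_b, thT_b, map_mul, actW_x (by omega), actW_x (by omega)]
        ext q : 1
        exact PX_PX 2 3 q
  exact DFunLike.congr_fun h x

theorem thW_inj : Function.Injective thW := by
  rw [injective_iff_map_eq_one]
  intro x hx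
  have h1 := DFunLike.congr_fun (actW_thW x) (1, false)
  rw [hx, map_one] at h1
  have h2 : thT x = 1 := by
    have h3 : ((1 : FT), false) = (thT x * 1, false) := h1
    have h4 := congrArg Prod.fst h3
    simpa using h4.symm
  rw [← thB_thT x, h2, map_one]

/-! ### the equation -/

/-- the free product of `⟨r⟩` and `⟨u⟩` -/
abbrev FU : Type := FreeGroup (Unit ⊕ Unit)

/-- the homomorphism `r ↦ r`, `u ↦ t` -/
def eh (t : FreeGroup Bool) : FU →* FB :=
  FreeGroup.lift (Sum.elim (fun _ => fr) (fun _ => FreeGroup.map Sum.inr t))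

lemma eh_r (t : FreeGroup Bool) : eh t (FreeGroup.of (Sum.inl ())) = fr := by
  unfold eh; rw [FreeGroup.lift_apply_of]; rfl
lemma eh_u (t : FreeGroup Bool) : eh t (FreeGroup.of (Sum.inr ())) = FreeGroup.map Sum.inr t := by
  unfold eh; rw [FreeGroup.lift_apply_of]; rfl

/-- `u ↦ t` -/
def fh (t : FreeGroup Bool) : FreeGroup Unit →* FreeGroup Bool := FreeGroup.lift (fun _ => t)

lemma fh_of (t : FreeGroup Bool) (n : ℤ) : fh t (FreeGroup.of () ^ n) = t ^ n := by
  unfold fh; rw [map_zpow, FreeGroup.lift_apply_of]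

lemma unit_pow (b : FreeGroup Unit) : ∃ n : ℤ, b = FreeGroup.of () ^ n :=
  ⟨FreeGroup.freeGroupUnitEquivInt b, (FreeGroup.freeGroupUnitEquivInt.left_inv b).symm⟩

/-- the homomorphism to the infinite dihedral group: `b⁻¹ ↦ s_0`, `a⁻¹ ↦ s_1` -/
def dh : FreeGroup Bool →* DihedralGroup 0 :=
  FreeGroup.lift (fun b => if b = true then DihedralGroup.sr 0 else DihedralGroup.sr 1)

/-- the generators `x_1 x_2` and `x_2 x_3` -/
def ga : FreeGroup Bool := FreeGroup.of false
def gb : FreeGroup Bool := FreeGroup.of true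

lemma dh_a : dh ga = DihedralGroup.sr 1 := by unfold dh ga; rw [FreeGroup.lift_apply_of]; rfl
lemma dh_b : dh gb = DihedralGroup.sr 0 := by unfold dh gb; rw [FreeGroup.lift_apply_of]; rfl

/-- the exponent sum of one letter -/
def es (c : Bool) : FreeGroup Bool →* Multiplicative ℤ :=
  FreeGroup.lift (fun b => if b = c then Multiplicative.ofAdd 1 else 1)

lemma es_self (c : Bool) : es c (FreeGroup.of c) = Multiplicative.ofAdd 1 := by
  unfold es; rw [FreeGroup.lift_apply_of, if_pos rfl]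
lemma es_ne {b c : Bool} (h : b ≠ c) : es c (FreeGroup.of b) = 1 := by
  unfold es; rw [FreeGroup.lift_apply_of, if_neg h]

lemma ofAdd_zpow_one {n : ℤ} (h : (Multiplicative.ofAdd (1 : ℤ)) ^ n = 1) : n = 0 := by
  have h1 := congrArg Multiplicative.toAdd h
  simpa using h1

lemma inj_of {t : FreeGroup Bool} (f : FreeGroup Bool →* Multiplicative ℤ) {e : ℤ} (he : e ≠ 0)
    (h : f t = Multiplicative.ofAdd e) : Function.Injective (fh t) := by
  rw [injective_iff_map_eq_one]
  intro b hb
  obtain ⟨n, rfl⟩ := unit_pow b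
  rw [fh_of] at hb
  have h1 := congrArg f hb
  rw [map_zpow, h, map_one] at h1
  have h2 := congrArg Multiplicative.toAdd h1
  simp only [toAdd_zpow, toAdd_ofAdd, toAdd_one, smul_eq_mul] at h2
  have h3 : n = 0 := by
    rcases mul_eq_zero.1 h2 with h3 | h3
    · exact h3
    · exact absurd h3 he
  rw [h3, zpow_zero]

lemma es_gb : es true gb = Multiplicative.ofAdd 1 := es_self true
lemma es_ga : es false ga = Multiplicative.ofAdd 1 := es_self false
lemma es_ga' : es true ga = 1 := es_ne (by decide)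
lemma es_gb' : es false gb = 1 := es_ne (by decide)

lemma only_one {n : ℤ} (hn : n ≠ 0) (h : (gb⁻¹ * ga⁻¹) ^ n = gb⁻¹ ^ n * ga⁻¹ ^ n) : n = 1 := by
  have h1 := congrArg dh h
  rw [map_zpow, map_mul, map_mul, map_zpow, map_zpow, map_inv, map_inv, dh_a, dh_b] at h1
  have i0 : (DihedralGroup.sr (0 : ZMod 0))⁻¹ = DihedralGroup.sr 0 := rfl
  have i1 : (DihedralGroup.sr (1 : ZMod 0))⁻¹ = DihedralGroup.sr 1 := rfl
  have sq : ∀ i : ZMod 0, (DihedralGroup.sr i : DihedralGroup 0) * DihedralGroup.sr i = 1 := by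
    intro i
    rw [DihedralGroup.sr_mul_sr, sub_self]
    rfl
  have sr : (DihedralGroup.sr (0 : ZMod 0) : DihedralGroup 0) * DihedralGroup.sr 1 =
      DihedralGroup.r 1 := by
    rw [DihedralGroup.sr_mul_sr, sub_zero]
  have zp : ∀ m : ℤ, (DihedralGroup.r (1 : ZMod 0) : DihedralGroup 0) ^ m = 1 → m = 0 := by
    intro m hm
    have h2 : ∀ k : ℕ, (DihedralGroup.r (1 : ZMod 0) : DihedralGroup 0) ^ k = 1 → k = 0 := by
      intro k hk
      have h3 : (DihedralGroup.r (1 : ZMod 0) : DihedralGroup 0) ^ k = DihedralGroup.r (k : ZMod 0) :=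
        DihedralGroup.r_one_pow k
      rw [h3] at hk
      have h4 : (k : ZMod 0) = 0 := by
        injection hk
      exact_mod_cast h4
    rcases Int.natAbs_eq m with h3 | h3
    · rw [h3, zpow_natCast] at hm
      have := h2 _ hm
      omega
    · rw [h3, zpow_neg, zpow_natCast, inv_eq_one] at hm
      have := h2 _ hm
      omega
  have he : ∀ (i : ZMod 0) (m : ℤ), (DihedralGroup.sr i : DihedralGroup 0) ^ (2 * m) = 1 := by
    intro i m
    rw [zpow_mul, zpow_two, sq, one_zpow]
  rw [i0, i1, sr] at h1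
  rcases Int.even_or_odd' n with ⟨m, hm | hm⟩
  · rw [hm, he, he, one_mul] at h1
    have := zp _ h1
    omega
  · rw [hm, zpow_add, zpow_add, zpow_add, he, he, one_mul, one_mul, zpow_one, zpow_one, zpow_one,
      sr, mul_eq_right] at h1
    have := zp _ h1
    omega

/-- the equation in the free product -/
theorem solve_free {x : FU} (h : eh (gb⁻¹ * ga⁻¹) x = eh gb⁻¹ x * eh ga⁻¹ x) :
    x = 1 ∨ ∃ m : ℤ, x = FreeGroup.of (Sum.inl ()) ^ m * FreeGroup.of (Sum.inr ()) *
      (FreeGroup.of (Sum.inl ()) ^ m)⁻¹ := by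
  have hi : ∀ t a, eh t (FreeGroup.map Sum.inl a) = FreeGroup.map (Sum.inl : Unit → Unit ⊕ Bool) a := by
    intro t a
    have h1 : (eh t).comp (FreeGroup.map Sum.inl) = FreeGroup.map (Sum.inl : Unit → Unit ⊕ Bool) := by
      ext u
      rw [MonoidHom.comp_apply, FreeGroup.map.of, FreeGroup.map.of]
      exact eh_r t
    exact DFunLike.congr_fun h1 a
  have hj : ∀ t b, eh t (FreeGroup.map Sum.inr b) =
      FreeGroup.map (Sum.inr : Bool → Unit ⊕ Bool) (fh t b) := by
    intro t b
    have h1 : (eh t).comp (FreeGroup.map Sum.inr) =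
        (FreeGroup.map (Sum.inr : Bool → Unit ⊕ Bool)).comp (fh t) := by
      ext u
      rw [MonoidHom.comp_apply, FreeGroup.map.of, MonoidHom.comp_apply]
      unfold fh
      rw [FreeGroup.lift_apply_of]
      exact eh_u t
    exact DFunLike.congr_fun h1 b
  have f1 : Function.Injective (fh gb⁻¹) := inj_of (es true) (e := -1) (by norm_num)
    (by rw [map_inv, es_gb]; rfl)
  have f2 : Function.Injective (fh ga⁻¹) := inj_of (es false) (e := -1) (by norm_num)
    (by rw [map_inv, es_ga]; rfl)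
  have f0 : Function.Injective (fh (gb⁻¹ * ga⁻¹)) := inj_of (es true) (e := -1) (by norm_num)
    (by rw [map_mul, map_inv, map_inv, es_gb, es_ga', inv_one, mul_one]; rfl)
  have h12 : ∀ b b' : FreeGroup Unit, b ≠ 1 → b' ≠ 1 → fh gb⁻¹ b * fh ga⁻¹ b' ≠ 1 := by
    intro b b' hb hb' h1
    obtain ⟨m, rfl⟩ := unit_pow b
    obtain ⟨n, rfl⟩ := unit_pow b'
    rw [fh_of, fh_of] at h1
    have h2 := congrArg (es true) h1
    rw [map_mul, map_zpow, map_zpow, map_inv, map_inv, es_gb, es_ga', inv_one, one_zpow, mul_one,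
      (es true).map_one, inv_zpow, inv_eq_one] at h2
    exact hb (by rw [ofAdd_zpow_one h2, zpow_zero])
  rcases mult_word (freeProd_sum Unit Unit) (freeProd_sum Unit Bool) (hi _) (hi _) (hi _) (hj _) (hj _)
    (hj _) f0 f1 f2 h12 h with h1 | ⟨a, b, hb, h1, h2⟩
  · exact Or.inl h1
  · right
    obtain ⟨m, rfl⟩ := unit_pow a
    obtain ⟨n, rfl⟩ := unit_pow b
    rw [fh_of, fh_of, fh_of] at h2
    have hn : n ≠ 0 := by
      rintro rfl
      exact hb (zpow_zero _)
    have h3 := only_one hn h2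
    refine ⟨m, ?_⟩
    rw [h1, h3, zpow_one, map_zpow, FreeGroup.map.of, FreeGroup.map.of]

/-- `u ↦ x` in `W 3` -/
def psW (t : W 3) : FU →* W 3 := FreeGroup.lift (Sum.elim (fun _ => RW 3) (fun _ => t))

lemma psW_eh (t : FreeGroup Bool) (x : FU) : thW (eh t x) = psW (thW (FreeGroup.map Sum.inr t)) x := by
  have h : thW.comp (eh t) = psW (thW (FreeGroup.map Sum.inr t)) := by
    ext o : 1
    rcases o with u | u
    · rw [MonoidHom.comp_apply]
      show thW (eh t (FreeGroup.of (Sum.inl ()))) = _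
      rw [eh_r, thW_r]
      unfold psW
      rw [FreeGroup.lift_apply_of]
      rfl
    · rw [MonoidHom.comp_apply]
      show thW (eh t (FreeGroup.of (Sum.inr ()))) = _
      rw [eh_u]
      unfold psW
      rw [FreeGroup.lift_apply_of]
      rfl
  exact DFunLike.congr_fun h x

lemma wA_psW {j : ℕ} (hj : j < 3) (t : W 3) (x : FU) : wA j (psW t x) = psW (wA j t) x := by
  have h : (wA j : MulAut (W 3)).toMonoidHom.comp (psW t) = psW (wA j t) := by
    ext o : 1
    rcases o with u | u
    · show wA j (psW t (FreeGroup.of (Sum.inl u))) = _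
      unfold psW
      rw [FreeGroup.lift_apply_of, FreeGroup.lift_apply_of]
      exact wA_R hj
    · show wA j (psW t (FreeGroup.of (Sum.inr u))) = _
      unfold psW
      rw [FreeGroup.lift_apply_of, FreeGroup.lift_apply_of]
      rfl
  exact DFunLike.congr_fun h x

/-- the equation in `W 3` -/
theorem solv0 : Solv 0 := by
  intro w hw h
  have hw' : w ∈ Subgroup.closure ({RW 3, xW 3 * xW 2} : Set (W 3)) := hw
  have h' : w * wA 2 (wA 1 w) = wA 1 w := h
  obtain ⟨x, rfl⟩ : ∃ x, psW (xW 3 * xW 2) x = w := by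
    have h1 : (psW (xW 3 * xW 2)).range = Subgroup.closure {RW 3, (xW 3 * xW 2 : W 3)} := by
      unfold psW
      rw [FreeGroup.range_lift_eq_closure]
      congr 1
      ext y
      constructor
      · rintro ⟨u | u, rfl⟩
        · exact Or.inl rfl
        · exact Or.inr rfl
      · rintro (rfl | rfl)
        · exact ⟨Sum.inl (), rfl⟩
        · exact ⟨Sum.inr (), rfl⟩
    rw [← h1] at hw'
    exact hw'
  have a1 : wA 1 (xW 3 * xW 2 : W 3) = xW 3 * xW 1 := by
    rw [map_mul, wA_x (by omega) (by omega), wA_x (by omega) (by omega)]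
    rfl
  have a2 : wA 2 (xW 3 * xW 1 : W 3) = xW 2 * xW 1 := by
    rw [map_mul, wA_x (by omega) (by omega), wA_x (by omega) (by omega)]
    rfl
  rw [wA_psW (by omega), a1, wA_psW (by omega), a2] at h'
  have tb : thW (FreeGroup.map Sum.inr gb⁻¹) = xW 3 * xW 2 := by
    have e : FreeGroup.map (Sum.inr : Bool → Unit ⊕ Bool) gb = fb := FreeGroup.map.of
    rw [map_inv, map_inv, e, thW_b, mul_inv_rev, xW_inv, xW_inv]
  have tna : thW (FreeGroup.map Sum.inr ga⁻¹) = xW 2 * xW 1 := by
    have e : FreeGroup.map (Sum.inr : Bool → Unit ⊕ Bool) ga = fa := FreeGroup.map.of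
    rw [map_inv, map_inv, e, thW_a, mul_inv_rev, xW_inv, xW_inv]
  have tab : thW (FreeGroup.map Sum.inr (gb⁻¹ * ga⁻¹)) = xW 3 * xW 1 := by
    rw [map_mul, map_mul, tb, tna, mul_assoc, xW_sq']
  rw [← tb, ← tna, ← tab, ← psW_eh, ← psW_eh, ← psW_eh, ← map_mul] at h'
  have h2 := thW_inj h'
  rcases solve_free h2.symm with rfl | ⟨m, rfl⟩
  · left; exact map_one _
  · right
    refine ⟨m, ?_⟩
    rw [map_mul, map_mul, map_inv, map_zpow]
    have e1 : psW (xW 3 * xW 2) (FreeGroup.of (Sum.inl ())) = RW 3 := by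
      unfold psW; rw [FreeGroup.lift_apply_of]; rfl
    have e2 : psW (xW 3 * xW 2) (FreeGroup.of (Sum.inr ())) = xW 3 * xW 2 := by
      unfold psW; rw [FreeGroup.lift_apply_of]; rfl
    rw [e1, e2]

end Pool.Agent.Helper38.D4
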