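import Pool.Agent.Helper38.D4.Br3
import Pool.Agent.Helper38.D4.Pr
import Pool.Agent.Helper38.D4.Solv
import Pool.Agent.Helper20.DN.Desc

/-!
# Project D4: the automorphism group of the Artin group of type `D̃_4`
-/

namespace Pool.Agent.Helper38.D4

open Pool.Agent.Helper7.AG (SL mA mB tr mA_braid Artin)
open Pool.Agent.Helper20.DN

/-- the form of the automorphisms -/
def Pf (φ : MulAut (D 0)) : Prop := ∃ (x : D 0) (g : GraphAut (Dt (0 + 4))),
  φ = MulAut.conj x * gam (Dt (0 + 4)) g ∨ φ = MulAut.conj x * gam (Dt (0 + 4)) g * eps 0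

lemma Pf.of_conj {φ : MulAut (D 0)} {x : D 0} (h : Pf (MulAut.conj x * φ)) : Pf φ := by
  obtain ⟨y, g, h⟩ := h
  refine ⟨x⁻¹ * y, g, ?_⟩
  have e : φ = MulAut.conj x⁻¹ * (MulAut.conj x * φ) := by
    rw [← mul_assoc, ← map_mul, inv_mul_cancel, map_one, one_mul]
  rcases h with h | h
  · left
    rw [e, h, map_mul, mul_assoc]
  · right
    rw [e, h, map_mul]
    simp only [mul_assoc]

lemma Pf.of_eps {φ : MulAut (D 0)} (h : Pf (φ * eps 0)) : Pf φ := by
  obtain ⟨y, g, h⟩ := h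
  have e : φ = φ * eps 0 * eps 0 := by rw [mul_assoc, eps_eps, mul_one]
  refine ⟨y, g, ?_⟩
  rcases h with h | h
  · right
    rw [e, h]
  · left
    rw [e, h, mul_assoc, eps_eps, mul_one]

lemma Pf.of_gg {φ : MulAut (D 0)} {σ : Equiv.Perm (Fin 4)} (h : Pf (φ * gg σ)) : Pf φ := by
  obtain ⟨y, g, h⟩ := h
  have e1 : gg σ = gam (Dt (0 + 4)) (gr σ) := rfl
  have e : φ = φ * gg σ * gam (Dt (0 + 4)) (gr σ)⁻¹ := by
    rw [e1, mul_assoc, ← map_mul, mul_inv_cancel, map_one, mul_one]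
  refine ⟨y, g * (gr σ)⁻¹, ?_⟩
  rcases h with h | h
  · left
    rw [e, h, mul_assoc, ← map_mul]
  · right
    rw [e, h, mul_assoc, eps_gam, ← mul_assoc, mul_assoc (MulAut.conj y), ← map_mul]

theorem Pf.of_cj {φ : MulAut (D 0)} (h : ∃ γ : Dh 0, φ = cj 0 γ ∨ φ = cj 0 γ * eps 0) : Pf φ := by
  obtain ⟨γ, h⟩ := h
  obtain ⟨x, u, v, hx⟩ := cj_form γ
  rw [hx] at h
  exact ⟨x, gT 0 u v, h⟩

theorem form_over {φ : MulAut (D 0)} (h : ∀ y, rho (φ y) = rho y) : Pf φ := by
  obtain ⟨σ, hσ⟩ := exists_Nm h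
  exact (Pf.of_cj (hσ.form brInner0 solv0)).of_gg

/-- the form of all automorphisms -/
theorem form0 (φ : MulAut (D 0)) : Pf φ := by
  obtain ⟨x, ⟨h, -⟩ | ⟨h, -⟩⟩ := norm_rho φ
  · exact (form_over h).of_conj
  · exact (form_over h).of_conj.of_eps

/-! ### uniqueness -/

theorem gg_inner {σ : Equiv.Perm (Fin 4)} {x : D 0} (h : gg σ = MulAut.conj x) : σ = 1 := by
  have hr : ∀ y, rho x * rho y = rho y * rho x := by
    intro y
    have h1 := DFunLike.congr_fun h y
    rw [MulAut.conj_apply] at h1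
    have h2 := congrArg rho h1
    rw [rho_gg, map_mul, map_mul, map_inv] at h2
    exact (eq_mul_inv_iff_mul_eq.1 h2).symm
  have hs : rho x = 1 ∨ rho x = -1 := by
    by_contra hcon
    rw [not_or] at hcon
    have h1 := hr (lf 0)
    have h2 := hr ct
    rw [rho_lf] at h1
    rw [rho_ct] at h2
    exact mA_mB_ne (Pool.Agent.Helper7.AG.comm_of_comm hcon.1 hcon.2 h1 h2)
  have hb : ∀ (α : Fin 4 → ℤ) (i j : Fin 4), ((α (σ i) - α (σ j), 0) : ℤ × ℤ) =
      vF ℤ (rho x) (α i - α j, 0) := by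
    intro α i j
    have h1 := DFunLike.congr_fun h (lf i * (lf j)⁻¹)
    have h2 := congrArg (be α) h1
    rw [MulAut.conj_apply, be_conj (rho_diff i j), be_gg, be_diff, be_diff] at h2
    exact h2
  rcases hs with hs | hs
  · ext i : 1
    obtain ⟨j, hj⟩ : ∃ j : Fin 4, j ≠ i := by
      by_cases hi : i = 0
      · exact ⟨1, by rw [hi]; decide⟩
      · exact ⟨0, fun h => hi h.symm⟩
    have h1 := hb (sg1 i) i j
    rw [hs, vF_one] at h1
    have h2 := congrArg Prod.fst h1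
    simp only [sg1] at h2
    rw [if_neg hj] at h2
    by_contra hne
    have hne' : ¬ σ i = i := hne
    rw [if_neg hne'] at h2
    split_ifs at h2 <;> simp at h2
  · exfalso
    have hneg : ∀ v : ℤ × ℤ, vF ℤ (-1) v = -v := by
      intro v
      ext <;> simp [vF]
    have key : ∀ j : Fin 4, j ≠ 0 → σ j = 0 := by
      intro j hj
      have h1 := hb (sg1 0) 0 j
      rw [hs, hneg] at h1
      have h2 := congrArg Prod.fst h1
      simp only [sg1, Prod.fst_neg] at h2
      rw [if_neg hj] at h2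
      by_contra hne
      rw [if_neg hne] at h2
      split_ifs at h2 <;> simp at h2
    have h1 := σ.injective ((key 1 (by decide)).trans (key 2 (by decide)).symm)
    exact absurd h1 (by decide)

theorem gam_inner0 {g : GraphAut (Dt (0 + 4))} {x : D 0}
    (h : gam (Dt (0 + 4)) g = MulAut.conj x) : g = 1 := by
  obtain ⟨σ, rfl⟩ := gr_surj g
  rw [gg_inner (σ := σ) h, map_one]

theorem gam_eps_inner0 (g : GraphAut (Dt (0 + 4))) (x : D 0) :
    gam (Dt (0 + 4)) g * eps 0 ≠ MulAut.conj x := by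
  intro h
  obtain ⟨σ, rfl⟩ := gr_surj g
  have h1 := DFunLike.congr_fun h ct
  have h2 := congrArg (lenD 0) h1
  rw [MulAut.mul_apply, eps_ct, MulAut.conj_apply, map_mul, map_mul, map_inv (lenD 0) x,
    mul_comm (lenD 0 x), mul_inv_cancel_right] at h2
  have h3 : lenD 0 (gam (Dt (0 + 4)) (gr σ) ct⁻¹) = lenD 0 ct⁻¹ := len_gg σ _
  rw [h3, map_inv, len_ct] at h2
  have h4 := congrArg Multiplicative.toAdd h2
  simp at h4

/-- the description of the automorphism group for `n = 4` -/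
theorem stmt0 : Stmt (Dt (0 + 4)) := by
  have h1 := out_general (G := D 0) (ε := eps 0) (γ := gam (Dt (0 + 4))) center_D eps_eps eps_gam
    (fun g x hg => gam_inner0 hg) gam_eps_inner0 form0
  exact ⟨eps 0, gam (Dt (0 + 4)), invertsGens_eps, gam_of _, eps_eps, eps_gam, h1⟩

/-- the group is isomorphic to the symmetric group of degree four -/
def IsS4 (E : Type*) [Group E] : Prop := Nonempty (E ≃* Equiv.Perm (Fin 4))

/-- the theorem for `n = 4` -/
theorem main4 : Described (Dt 4) ∧ IsS4 (GraphAut (Dt 4)) :=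
  ⟨described_of stmt0, graphAut_S4⟩

end Pool.Agent.Helper38.D4
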