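import Pool.Agent.Helper38.D4.Coc

/-!
# Project D4: the action on the classes is a signed permutation
-/

namespace Pool.Agent.Helper38.D4

open Pool.Agent.Helper7.AG (SL mA mB tr mA_braid)
open Pool.Agent.Helper20.DN

/-! ### the homomorphisms to `Gm` -/

lemma theta_right (e : Fin 4 → ℚ) (he : ∀ i, e i = 0 ∨ e i = 1) (x : D 0) :
    (theta e he x).right = rho x := by
  have h : SemidirectProduct.rightHom.comp (theta e he) = rho := by
    apply hom4_ext
    · intro i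
      show (theta e he (lf i)).right = _
      unfold theta
      rw [lift4_lf, rho_lf]
    · show (theta e he ct).right = _
      unfold theta
      rw [lift4_ct, rho_ct]
  exact DFunLike.congr_fun h x

theorem theta_left {e : Fin 4 → ℤ} (he : ∀ i, ((e i : ℤ) : ℚ) = 0 ∨ ((e i : ℤ) : ℚ) = 1) (x : D 0) :
    ((theta (fun i => (e i : ℚ)) he x).left.x, (theta (fun i => (e i : ℚ)) he x).left.y) =
      (((be e x).1 : ℚ), ((be e x).2 : ℚ)) := by
  refine cr_ext (R := ℚ)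
    (γ := fun x => ((theta (fun i => (e i : ℚ)) he x).left.x, (theta (fun i => (e i : ℚ)) he x).left.y))
    (γ' := fun x => (((be e x).1 : ℚ), ((be e x).2 : ℚ))) ?_ ?_ (fun i => ?_) ?_ x
  · intro x y
    simp only [map_mul, Gm_left, theta_right]
    ext <;> simp [actF, vF]
  · intro x y
    simp only [be_cr e x y]
    ext <;> simp [vF]
  · simp only [be_lf]
    unfold theta
    rw [lift4_lf]
    ext <;> simp [leafN]
  · simp only [be_ct]
    unfold theta
    rw [lift4_ct]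
    ext <;> simp [ctrN]

/-! ### the matrix of an automorphism -/

/-- the entries -/
def mm (α : Fin 4 → ℤ) (φ : MulAut (D 0)) (j : Fin 4) : ℤ := (be α (φ (lf j))).1

lemma mm_add (α α' : Fin 4 → ℤ) (φ : MulAut (D 0)) (j : Fin 4) :
    mm (α + α') φ j = mm α φ j + mm α' φ j := by
  unfold mm; rw [be_add]; rfl
lemma mm_zsmul (n : ℤ) (α : Fin 4 → ℤ) (φ : MulAut (D 0)) (j : Fin 4) :
    mm (n • α) φ j = n * mm α φ j := by
  unfold mm; rw [be_zsmul]; rfl

section
variable {φ : MulAut (D 0)}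

lemma rho_inv (hφ : ∀ y, rho (φ y) = rho y) (y : D 0) : rho (φ⁻¹ y) = rho y := by
  rw [← hφ (φ⁻¹ y), MulAut.apply_inv_self]

lemma mm_diff (hφ : ∀ y, rho (φ y) = rho y) (α : Fin 4 → ℤ) (j k : Fin 4) :
    (be α (φ (lf j * (lf k)⁻¹))).1 = mm α φ j - mm α φ k := by
  rw [cr_diff (be_cr α) hφ]; rfl

lemma mm_const (hφ : ∀ y, rho (φ y) = rho y) (c : ℤ) (j k : Fin 4) :
    mm (fun _ => c) φ j - mm (fun _ => c) φ k = 0 := by
  rw [← mm_diff hφ, be_const_ker c (by rw [hφ, rho_diff])]; rfl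

theorem key_int (hφ : ∀ y, rho (φ y) = rho y) {e : Fin 4 → ℤ} (he : ∀ i, e i = 0 ∨ e i = 1) :
    ∃ T : ℚ, ∀ i j, ((mm e φ i : ℚ) - mm e φ j) * (12 * T + ((mm e φ i : ℚ) - mm e φ j) ^ 2) = 0 := by
  have he' : ∀ i, ((e i : ℤ) : ℚ) = 0 ∨ ((e i : ℤ) : ℚ) = 1 := fun i => by
    rcases he i with h | h <;> rw [h] <;> simp
  let θ : D 0 →* Gm := theta (fun i => (e i : ℚ)) he'
  have ha : ∀ i, (⟨(θ (φ (lf i))).left, mA⟩ : Gm) = θ (φ (lf i)) := fun i =>
    SemidirectProduct.ext rfl (by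
      show mA = (θ (φ (lf i))).right
      rw [theta_right, hφ, rho_lf])
  have hc : (⟨(θ (φ ct)).left, mB⟩ : Gm) = θ (φ ct) :=
    SemidirectProduct.ext rfl (by
      show mB = (θ (φ ct)).right
      rw [theta_right, hφ, rho_ct])
  obtain ⟨T, hT⟩ := key (a := fun i => (θ (φ (lf i))).left) (c := (θ (φ ct)).left)
    (fun i j => by
      simp only [ha]
      rw [← map_mul, ← map_mul, lf_comm, map_mul, map_mul])
    (fun i => by
      simp only [ha, hc]
      rw [← map_mul, ← map_mul, ← map_mul, ← map_mul, lf_braid, map_mul, map_mul, map_mul, map_mul])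
  refine ⟨T, fun i j => ?_⟩
  have h1 : ∀ i, (θ (φ (lf i))).left.x = (mm e φ i : ℚ) := fun i =>
    congrArg Prod.fst (theta_left he' (φ (lf i)))
  have h2 := hT i j
  simp only [h1] at h2
  exact h2

/-- divisibility -/
theorem prim (hφ : ∀ y, rho (φ y) = rho y) {e : Fin 4 → ℤ} {d : ℤ}
    (h : ∀ j k, d ∣ mm e φ j - mm e φ k) (i i' : Fin 4) : d ∣ e i - e i' := by
  have h1 : ∀ j, ∃ s, mm e φ j - mm e φ 0 = d * s := fun j => h j 0
  choose s hs using h1
  have h2 : mm e φ = (fun _ => mm e φ 0) + d • s := by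
    funext j
    show mm e φ j = mm e φ 0 + d * s j
    rw [← hs]; ring
  have hu : rho (φ⁻¹ (lf i * (lf i')⁻¹)) = 1 := by rw [rho_inv hφ, rho_diff]
  have h3 := expand_ker ((be_cr e).comp hφ) hu
  simp only [MulAut.apply_inv_self] at h3
  have h4 : be e (lf i * (lf i')⁻¹) = be (mm e φ) (φ⁻¹ (lf i * (lf i')⁻¹)) := h3
  rw [h2, be_add, be_const_ker _ hu, zero_add (be (d • s) _), be_zsmul, be_diff] at h4
  exact ⟨(be s (φ⁻¹ (lf i * (lf i')⁻¹))).1, congrArg Prod.fst h4⟩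

/-- the differences are `0`, `1` or `-1` -/
theorem diff_unit (hφ : ∀ y, rho (φ y) = rho y) {e : Fin 4 → ℤ} (he : ∀ i, e i = 0 ∨ e i = 1)
    (j k : Fin 4) : mm e φ j - mm e φ k = 0 ∨ mm e φ j - mm e φ k = 1 ∨ mm e φ j - mm e φ k = -1 := by
  obtain ⟨T, hT⟩ := key_int hφ he
  obtain ⟨d, hd⟩ : ∃ d, mm e φ j - mm e φ k = d := ⟨_, rfl⟩
  rw [hd]
  by_cases h0 : d = 0
  · exact Or.inl h0
  have hdq : ((mm e φ j : ℚ) - mm e φ k) = (d : ℚ) := by rw [← hd]; push_cast; ring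
  have hT1 : 12 * T = -(d : ℚ) ^ 2 := by
    have h1 := hT j k
    rw [hdq] at h1
    rcases mul_eq_zero.1 h1 with h2 | h2
    · exact absurd (by exact_mod_cast h2) h0
    · linear_combination h2
  have hdiv : ∀ j k, d ∣ mm e φ j - mm e φ k := by
    intro j k
    have h1 := hT j k
    rw [hT1] at h1
    rcases mul_eq_zero.1 h1 with h2 | h2
    · have h3 : mm e φ j - mm e φ k = 0 := by exact_mod_cast h2
      rw [h3]; exact dvd_zero d
    · have h3 : (mm e φ j - mm e φ k) ^ 2 = d ^ 2 := by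
        have h4 : ((mm e φ j : ℚ) - mm e φ k) ^ 2 = (d : ℚ) ^ 2 := by linear_combination h2
        exact_mod_cast h4
      rcases sq_eq_sq_iff_eq_or_eq_neg.1 h3 with h4 | h4
      · rw [h4]
      · rw [h4]; exact (dvd_neg).2 dvd_rfl
  have hp := prim hφ hdiv
  by_cases hc : ∀ i, e i = e 0
  · exfalso
    have h1 : e = fun _ => e 0 := funext hc
    have h2 := mm_const hφ (e 0) j k
    rw [← h1, hd] at h2
    exact h0 h2
  · push_neg at hc
    obtain ⟨i, hi⟩ := hc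
    have h1 := hp i 0
    have h2 : d ∣ 1 := by
      rcases he i with h3 | h3 <;> rcases he 0 with h4 | h4 <;> rw [h3, h4] at h1 hi
      · exact absurd rfl hi
      · simpa using h1
      · simpa using h1
      · exact absurd rfl hi
    right
    exact Int.isUnit_iff.1 (isUnit_of_dvd_one h2)

/-- the vectors of the standard basis -/
def sg1 (i : Fin 4) : Fin 4 → ℤ := fun j => if j = i then 1 else 0

lemma vec_eq (α : Fin 4 → ℤ) : α = α 0 • sg1 0 + α 1 • sg1 1 + α 2 • sg1 2 + α 3 • sg1 3 := by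
  funext j
  fin_cases j <;> simp [sg1]

/-- the matrix -/
def ma (φ : MulAut (D 0)) (i j : Fin 4) : ℤ := mm (sg1 i) φ j

lemma mm_ma (α : Fin 4 → ℤ) (j : Fin 4) :
    mm α φ j = α 0 * ma φ 0 j + α 1 * ma φ 1 j + α 2 * ma φ 2 j + α 3 * ma φ 3 j := by
  conv_lhs => rw [vec_eq α]
  rw [mm_add, mm_add, mm_add, mm_zsmul, mm_zsmul, mm_zsmul, mm_zsmul]
  rfl

/-- different leaves are separated -/
theorem sep (hφ : ∀ y, rho (φ y) = rho y) {j k : Fin 4} (hjk : j ≠ k) : ∃ i, ma φ i j ≠ ma φ i k := by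
  by_contra hcon
  push_neg at hcon
  have hu : rho (φ (lf j * (lf k)⁻¹)) = 1 := by rw [hφ, rho_diff]
  have hφ' := rho_inv hφ
  have h3 := expand_ker ((be_cr (sg1 j)).comp (φ := φ⁻¹) hφ') hu
  simp only [MulAut.inv_apply_self] at h3
  have h4 : be (sg1 j) (lf j * (lf k)⁻¹) = be (mm (sg1 j) φ⁻¹) (φ (lf j * (lf k)⁻¹)) := h3
  have h5 := congrArg Prod.fst h4
  rw [be_diff, mm_diff hφ, mm_ma (mm (sg1 j) φ⁻¹) j, mm_ma (mm (sg1 j) φ⁻¹) k, hcon 0, hcon 1,
    hcon 2, hcon 3, sub_self] at h5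
  simp [sg1, Ne.symm hjk] at h5

/-- a root of `A_3` -/
def IsRoot (w : Fin 4 → ℤ) (p q : Fin 4) : Prop := p ≠ q ∧ ∀ i, w i = sg1 p i - sg1 q i

theorem root_of {w : Fin 4 → ℤ} (h0 : ∃ i, w i ≠ 0) (hs : w 0 + w 1 + w 2 + w 3 = 0)
    (h1 : ∀ i, w i = 0 ∨ w i = 1 ∨ w i = -1)
    (h2 : ∀ i j, i ≠ j → w i + w j = 0 ∨ w i + w j = 1 ∨ w i + w j = -1) :
    ∃ p q, IsRoot w p q := by
  obtain ⟨p, hp⟩ : ∃ p, w p = 1 := by
    by_contra hc
    push_neg at hc
    have h3 : ∀ i, w i = 0 ∨ w i = -1 := fun i => by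
      rcases h1 i with h | h | h
      · exact Or.inl h
      · exact absurd h (hc i)
      · exact Or.inr h
    obtain ⟨i, hi⟩ := h0
    have e0 := h3 0
    have e1 := h3 1
    have e2 := h3 2
    have e3 := h3 3
    fin_cases i <;> simp only [Fin.zero_eta, Fin.mk_one, Fin.reduceFinMk] at hi <;> omega
  obtain ⟨q, hq⟩ : ∃ q, w q = -1 := by
    by_contra hc
    push_neg at hc
    have h3 : ∀ i, w i = 0 ∨ w i = 1 := fun i => by
      rcases h1 i with h | h | h
      · exact Or.inl h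
      · exact Or.inr h
      · exact absurd h (hc i)
    have e0 := h3 0
    have e1 := h3 1
    have e2 := h3 2
    have e3 := h3 3
    fin_cases p <;> simp only [Fin.zero_eta, Fin.mk_one, Fin.reduceFinMk] at hp <;> omega
  have hpq : p ≠ q := by
    rintro rfl
    omega
  refine ⟨p, q, hpq, fun i => ?_⟩
  unfold sg1
  by_cases hi : i = p
  · subst hi
    rw [if_pos rfl, if_neg hpq]
    omega
  · by_cases hi' : i = q
    · subst hi'
      rw [if_neg hi, if_pos rfl]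
      omega
    · rw [if_neg hi, if_neg hi']
      have e1 := h2 i p hi
      have e2 := h2 i q hi'
      have e3 := h1 i
      omega

/-- two roots whose difference is a root -/
theorem root_sub : ∀ p q p' q' r t : Fin 4, p ≠ q → p' ≠ q' → r ≠ t →
    (∀ i, sg1 p i - sg1 q i - (sg1 p' i - sg1 q' i) = sg1 r i - sg1 t i) →
    (p = p' ∧ q ≠ q') ∨ (q = q' ∧ p ≠ p') := by
  unfold sg1
  decide

/-- the difference of two columns is a root -/
theorem root_w (hφ : ∀ y, rho (φ y) = rho y) {j k : Fin 4} (hjk : j ≠ k) :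
    ∃ p q, IsRoot (fun i => ma φ i j - ma φ i k) p q := by
  apply root_of
  · obtain ⟨i, hi⟩ := sep hφ hjk
    exact ⟨i, sub_ne_zero.2 hi⟩
  · have h := mm_const hφ 1 j k
    rw [mm_ma, mm_ma] at h
    simp only [one_mul] at h
    linarith
  · intro i
    exact diff_unit hφ (e := sg1 i) (fun i' => by unfold sg1; split_ifs <;> simp) j k
  · intro i i' hii
    have h := diff_unit hφ (e := sg1 i + sg1 i') (fun r => by
      show sg1 i r + sg1 i' r = 0 ∨ sg1 i r + sg1 i' r = 1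
      unfold sg1
      by_cases h1 : r = i
      · by_cases h2 : r = i'
        · exact absurd (h1.symm.trans h2) hii
        · rw [if_pos h1, if_neg h2]; simp
      · by_cases h2 : r = i'
        · rw [if_neg h1, if_pos h2]; simp
        · rw [if_neg h1, if_neg h2]; simp) j k
    rw [mm_add, mm_add] at h
    have e : mm (sg1 i) φ j + mm (sg1 i') φ j - (mm (sg1 i) φ k + mm (sg1 i') φ k) =
        (ma φ i j - ma φ i k) + (ma φ i' j - ma φ i' k) := by unfold ma; ring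
    rw [e] at h
    exact h

private lemma inj_perm {f : Fin 4 → Fin 4} (h01 : f 0 ≠ f 1) (h02 : f 0 ≠ f 2) (h12 : f 1 ≠ f 2)
    (h03 : f 0 ≠ f 3) (h13 : f 1 ≠ f 3) (h23 : f 2 ≠ f 3) : ∃ σ : Equiv.Perm (Fin 4), ∀ i, σ i = f i := by
  have hi : Function.Injective f := by
    intro i j h
    fin_cases i <;> fin_cases j
    all_goals
      first
      | rfl
      | exact absurd h h01
      | exact absurd h h02
      | exact absurd h h12
      | exact absurd h h03
      | exact absurd h h13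
      | exact absurd h h23
      | exact absurd h.symm h01
      | exact absurd h.symm h02
      | exact absurd h.symm h12
      | exact absurd h.symm h03
      | exact absurd h.symm h13
      | exact absurd h.symm h23
  exact ⟨Equiv.ofBijective f (Finite.injective_iff_bijective.1 hi), fun i => rfl⟩

/-- the matrix is a signed permutation -/
theorem perm_ma (hφ : ∀ y, rho (φ y) = rho y) : ∃ (σ : Equiv.Perm (Fin 4)) (s : ℤ), (s = 1 ∨ s = -1) ∧
    ∀ i j, ma φ i j - ma φ i 3 = s * (sg1 (σ j) i - sg1 (σ 3) i) := by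
  obtain ⟨p0, q0, n0, r0⟩ := root_w hφ (show (0 : Fin 4) ≠ 3 by decide)
  obtain ⟨p1, q1, n1, r1⟩ := root_w hφ (show (1 : Fin 4) ≠ 3 by decide)
  obtain ⟨p2, q2, n2, r2⟩ := root_w hφ (show (2 : Fin 4) ≠ 3 by decide)
  obtain ⟨p3, q3, n3, r3⟩ := root_w hφ (show (0 : Fin 4) ≠ 1 by decide)
  obtain ⟨p4, q4, n4, r4⟩ := root_w hφ (show (0 : Fin 4) ≠ 2 by decide)
  obtain ⟨p5, q5, n5, r5⟩ := root_w hφ (show (1 : Fin 4) ≠ 2 by decide)
  have d01 := root_sub p0 q0 p1 q1 p3 q3 n0 n1 n3 (fun i => by rw [← r0, ← r1, ← r3]; ring)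
  have d02 := root_sub p0 q0 p2 q2 p4 q4 n0 n2 n4 (fun i => by rw [← r0, ← r2, ← r4]; ring)
  have d12 := root_sub p1 q1 p2 q2 p5 q5 n1 n2 n5 (fun i => by rw [← r1, ← r2, ← r5]; ring)
  have hcase : (q0 = q1 ∧ q0 = q2 ∧ p0 ≠ p1 ∧ p0 ≠ p2 ∧ p1 ≠ p2) ∨
      (p0 = p1 ∧ p0 = p2 ∧ q0 ≠ q1 ∧ q0 ≠ q2 ∧ q1 ≠ q2) := by
    rcases d01 with ⟨a1, a2⟩ | ⟨a1, a2⟩
    · right
      rcases d02 with ⟨b1, b2⟩ | ⟨b1, b2⟩
      · rcases d12 with ⟨c1, c2⟩ | ⟨c1, c2⟩
        · exact ⟨a1, b1, a2, b2, c2⟩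
        · exact absurd (a1.symm.trans b1) c2
      · exfalso
        rcases d12 with ⟨c1, c2⟩ | ⟨c1, c2⟩
        · exact b2 (a1.trans c1)
        · exact a2 (b1.trans c1.symm)
    · left
      rcases d02 with ⟨b1, b2⟩ | ⟨b1, b2⟩
      · exfalso
        rcases d12 with ⟨c1, c2⟩ | ⟨c1, c2⟩
        · exact a2 (b1.trans c1.symm)
        · exact b2 (a1.trans c1)
      · rcases d12 with ⟨c1, c2⟩ | ⟨c1, c2⟩
        · exact absurd (a1.symm.trans b1) c2
        · exact ⟨a1, b1, a2, b2, c2⟩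
  rcases hcase with ⟨e1, e2, f1, f2, f3⟩ | ⟨e1, e2, f1, f2, f3⟩
  · subst e1 e2
    obtain ⟨σ, hσ⟩ := inj_perm (f := ![p0, p1, p2, q0]) f1 f2 f3 n0 n1 n2
    refine ⟨σ, 1, Or.inl rfl, fun i j => ?_⟩
    rw [one_mul, hσ, hσ]
    fin_cases j
    · exact r0 i
    · exact r1 i
    · exact r2 i
    · simp
  · subst e1 e2
    obtain ⟨σ, hσ⟩ := inj_perm (f := ![q0, q1, q2, p0]) f1 f2 f3 n0.symm n1.symm n2.symm
    refine ⟨σ, -1, Or.inr rfl, fun i j => ?_⟩
    rw [hσ, hσ]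
    fin_cases j
    · exact (r0 i).trans (by simp)
    · exact (r1 i).trans (by simp)
    · exact (r2 i).trans (by simp)
    · simp

/-- the action on the classes -/
theorem perm_of (hφ : ∀ y, rho (φ y) = rho y) : ∃ (σ : Equiv.Perm (Fin 4)) (s : ℤ), (s = 1 ∨ s = -1) ∧
    ∀ α j k, mm α φ j - mm α φ k = s * (α (σ j) - α (σ k)) := by
  obtain ⟨σ, s, hs, h⟩ := perm_ma hφ
  refine ⟨σ, s, hs, fun α j k => ?_⟩
  have hα : ∀ r : Fin 4, α 0 * sg1 r 0 + α 1 * sg1 r 1 + α 2 * sg1 r 2 + α 3 * sg1 r 3 = α r := by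
    intro r
    fin_cases r <;> simp [sg1]
  have h3 : ∀ j, mm α φ j - mm α φ 3 = s * (α (σ j) - α (σ 3)) := by
    intro j
    rw [mm_ma, mm_ma, ← hα (σ j), ← hα (σ 3)]
    have h0 := h 0 j
    have h1 := h 1 j
    have h2 := h 2 j
    have h4 := h 3 j
    linear_combination α 0 * h0 + α 1 * h1 + α 2 * h2 + α 3 * h4
  have hj := h3 j
  have hk := h3 k
  linear_combination hj - hk

end

end Pool.Agent.Helper38.D4
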