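import Pool.Agent.Helper38.D4.Lin
import Pool.Agent.Helper38.D4.Perm
import Pool.Agent.Helper20.DN.Main

/-!
# Project D4: the graph automorphisms of `D̃_4`
-/

namespace Pool.Agent.Helper38.D4

open Pool.Agent.Helper7.AG (SL mA mB tr mA_braid Artin)
open Pool.Agent.Helper20.DN

/-- the number of a leaf -/
def nd : Fin 4 → Fin (0 + 4 + 1) := ![3, 4, 1, 0]

lemma lf_nd (i : Fin 4) : lf i = PresentedGroup.of (nd i) := by
  fin_cases i <;> rfl

lemma ct_nd : ct = PresentedGroup.of (2 : Fin (0 + 4 + 1)) := rfl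

/-- the nodes: the center node and the leaves -/
def ndE : Option (Fin 4) ≃ Fin (0 + 4 + 1) where
  toFun o := o.elim 2 nd
  invFun n := ![some 3, some 2, none, some 0, some 1] n
  left_inv o := by
    rcases o with _ | o
    · rfl
    · fin_cases o <;> rfl
  right_inv n := by
    fin_cases n <;> rfl

/-- the label as a function of the nodes -/
def lab : Option (Fin 4) → Option (Fin 4) → ℕ
  | none, none => 1
  | none, some _ => 3
  | some _, none => 3
  | some i, some j => if i = j then 1 else 2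

lemma Dt_lab (a b : Option (Fin 4)) : Dt (0 + 4) (ndE a) (ndE b) = lab a b := by
  rcases a with _ | a <;> rcases b with _ | b
  · rfl
  · fin_cases b <;> rfl
  · fin_cases a <;> rfl
  · fin_cases a <;> fin_cases b <;> rfl

/-- the permutation of the nodes -/
def grP (σ : Equiv.Perm (Fin 4)) : Equiv.Perm (Fin (0 + 4 + 1)) :=
  (ndE.symm.trans (Equiv.optionCongr σ)).trans ndE

lemma grP_E (σ : Equiv.Perm (Fin 4)) (a : Option (Fin 4)) : grP σ (ndE a) = ndE (a.map σ) := by
  show ndE (Equiv.optionCongr σ (ndE.symm (ndE a))) = _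
  rw [Equiv.symm_apply_apply]
  rfl

lemma lab_map (σ : Equiv.Perm (Fin 4)) (a b : Option (Fin 4)) :
    lab (a.map σ) (b.map σ) = lab a b := by
  rcases a with _ | a <;> rcases b with _ | b
  · rfl
  · rfl
  · rfl
  · show (if σ a = σ b then 1 else 2) = if a = b then 1 else 2
    by_cases h : a = b
    · rw [if_pos h, if_pos (congrArg σ h)]
    · rw [if_neg h, if_neg (fun h' => h (σ.injective h'))]

theorem grP_mem (σ : Equiv.Perm (Fin 4)) : grP σ ∈ GraphAut (Dt (0 + 4)) := by
  intro s t
  obtain ⟨a, rfl⟩ := ndE.surjective s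
  obtain ⟨b, rfl⟩ := ndE.surjective t
  rw [grP_E, grP_E, Dt_lab, Dt_lab, lab_map]

/-- the homomorphism -/
def gr : Equiv.Perm (Fin 4) →* GraphAut (Dt (0 + 4)) where
  toFun σ := ⟨grP σ, grP_mem σ⟩
  map_one' := by
    apply Subtype.ext
    ext s : 1
    obtain ⟨a, rfl⟩ := ndE.surjective s
    show grP 1 (ndE a) = ndE a
    rw [grP_E]
    rcases a with _ | a <;> rfl
  map_mul' σ τ := by
    apply Subtype.ext
    ext s : 1
    obtain ⟨a, rfl⟩ := ndE.surjective s
    show grP (σ * τ) (ndE a) = grP σ (grP τ (ndE a))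
    rw [grP_E, grP_E, grP_E]
    rcases a with _ | a <;> rfl

lemma gr_nd (σ : Equiv.Perm (Fin 4)) (i : Fin 4) : (gr σ).1 (nd i) = nd (σ i) := grP_E σ (some i)
lemma gr_two (σ : Equiv.Perm (Fin 4)) : (gr σ).1 2 = 2 := grP_E σ none

lemma nd_inj : Function.Injective nd := fun i j h => by
  have h1 : ndE (some i) = ndE (some j) := h
  exact Option.some_injective _ (ndE.injective h1)

theorem gr_inj : Function.Injective gr := by
  intro σ τ h
  ext i : 1
  apply nd_inj
  rw [← gr_nd, ← gr_nd, h]

theorem gr_surj : Function.Surjective gr := by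
  rintro ⟨g, hg⟩
  have hg' : ∀ a b, lab (ndE.symm (g (ndE a))) (ndE.symm (g (ndE b))) = lab a b := by
    intro a b
    rw [← Dt_lab, ← Dt_lab, Equiv.apply_symm_apply, Equiv.apply_symm_apply]
    exact hg _ _
  -- the center node is fixed
  have h2 : ndE.symm (g (ndE none)) = none := by
    have h0 := hg' none (some 0)
    have h1 := hg' none (some 1)
    obtain ⟨x, hx⟩ : ∃ x, ndE.symm (g (ndE none)) = x := ⟨_, rfl⟩
    rw [hx] at h0 h1 ⊢
    rcases x with _ | x
    · rfl
    · exfalso
      obtain ⟨y, hy⟩ : ∃ y, ndE.symm (g (ndE (some 0))) = y := ⟨_, rfl⟩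
      obtain ⟨z, hz⟩ : ∃ z, ndE.symm (g (ndE (some 1))) = z := ⟨_, rfl⟩
      rw [hy] at h0
      rw [hz] at h1
      have hy' : y = none := by
        rcases y with _ | y
        · rfl
        · simp only [lab] at h0
          split_ifs at h0 <;> omega
      have hz' : z = none := by
        rcases z with _ | z
        · rfl
        · simp only [lab] at h1
          split_ifs at h1 <;> omega
      have h3 := hy.trans (hy'.trans (hz'.symm.trans hz.symm))
      have h4 := ndE.injective (g.injective (ndE.symm.injective h3))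
      exact absurd h4 (by decide)
  have hs : ∀ i : Fin 4, ∃ j : Fin 4, ndE.symm (g (ndE (some i))) = some j := by
    intro i
    rcases h3 : ndE.symm (g (ndE (some i))) with _ | j
    · exfalso
      have h4 := ndE.injective (g.injective (ndE.symm.injective (h3.trans h2.symm)))
      exact absurd h4 (by simp)
    · exact ⟨j, rfl⟩
  choose f hf using hs
  have hfi : Function.Injective f := by
    intro i j h
    have h3 : ndE.symm (g (ndE (some i))) = ndE.symm (g (ndE (some j))) := by rw [hf, hf, h]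
    exact Option.some_injective _ (ndE.injective (g.injective (ndE.symm.injective h3)))
  refine ⟨Equiv.ofBijective f (Finite.injective_iff_bijective.1 hfi), ?_⟩
  apply Subtype.ext
  ext s : 1
  obtain ⟨a, rfl⟩ := ndE.surjective s
  show grP _ (ndE a) = g (ndE a)
  rw [grP_E]
  apply ndE.symm.injective
  rw [Equiv.symm_apply_apply]
  rcases a with _ | a
  · exact h2.symm
  · exact (hf a).symm

/-- the group of graph automorphisms is the symmetric group of degree four -/
theorem graphAut_S4 : Nonempty (GraphAut (Dt (0 + 4)) ≃* Equiv.Perm (Fin 4)) :=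
  ⟨(MulEquiv.ofBijective gr ⟨gr_inj, gr_surj⟩).symm⟩

/-- the action on `D 0` -/
noncomputable def gg (σ : Equiv.Perm (Fin 4)) : MulAut (D 0) := gam (Dt (0 + 4)) (gr σ)

lemma gg_mul (σ τ : Equiv.Perm (Fin 4)) : gg (σ * τ) = gg σ * gg τ := by
  unfold gg; rw [map_mul, map_mul]
lemma gg_one : gg 1 = 1 := by unfold gg; rw [map_one, map_one]

lemma gg_lf (σ : Equiv.Perm (Fin 4)) (i : Fin 4) : gg σ (lf i) = lf (σ i) := by
  rw [lf_nd, lf_nd]
  unfold gg
  rw [gam_of, gr_nd]
lemma gg_ct (σ : Equiv.Perm (Fin 4)) : gg σ ct = ct := by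
  rw [ct_nd]
  unfold gg
  rw [gam_of, gr_two]

lemma rho_gg (σ : Equiv.Perm (Fin 4)) (x : D 0) : rho (gg σ x) = rho x := by
  have h : rho.comp (gg σ).toMonoidHom = rho := by
    apply hom4_ext
    · intro i
      show rho (gg σ (lf i)) = _
      rw [gg_lf, rho_lf, rho_lf]
    · show rho (gg σ ct) = _
      rw [gg_ct]
  exact DFunLike.congr_fun h x

lemma len_gg (σ : Equiv.Perm (Fin 4)) (x : D 0) : lenD 0 (gg σ x) = lenD 0 x := by
  have h : (lenD 0).comp (gg σ).toMonoidHom = lenD 0 := by
    apply hom4_ext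
    · intro i
      show lenD 0 (gg σ (lf i)) = _
      rw [gg_lf, len_lf, len_lf]
    · show lenD 0 (gg σ ct) = _
      rw [gg_ct]
  exact DFunLike.congr_fun h x

lemma be_gg (α : Fin 4 → ℤ) (σ : Equiv.Perm (Fin 4)) (x : D 0) :
    be α (gg σ x) = be (fun i => α (σ i)) x := by
  refine cr_ext ((be_cr α).comp (rho_gg σ)) (be_cr _) (fun i => ?_) ?_ x
  · rw [gg_lf, be_lf, be_lf]
  · rw [gg_ct, be_ct, be_ct]

end Pool.Agent.Helper38.D4
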