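import Pool.Agent.Helper38.D4.Defs

/-!
# Project D4: the homomorphisms `rho ∘ φ`
-/

namespace Pool.Agent.Helper38.D4

open Pool.Agent.Helper7.AG (SL mA mB tr mA_braid mU mS)
open Pool.Agent.Helper20.DN
open Pool.Agent.Helper38.BN hiding eps

lemma eps_lf (i : Fin 4) : eps 0 (lf i) = (lf i)⁻¹ := by
  fin_cases i
  · exact eps_a (by omega)
  · exact eps_e
  · exact eps_a (by omega)
  · exact eps_b
lemma eps_ct : eps 0 ct = ct⁻¹ := eps_a (by omega)

lemma mA_mB_ne : mA * mB ≠ mB * mA := by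
  intro h
  have h1 := congrArg (fun X : SL => X 0 0) h
  simp [mA, mB] at h1

theorem surj_class {f : D 0 →* SL} (hf : Function.Surjective f) :
    ∃ (M : Matrix (Fin 2) (Fin 2) ℤ) (s : ℤ), (M.det = 1 ∨ M.det = -1) ∧ (s = 1 ∨ s = -1) ∧
      (∀ i, (f (lf i) : Matrix (Fin 2) (Fin 2) ℤ) * M =
        s • (M * (mA : Matrix (Fin 2) (Fin 2) ℤ))) ∧
      (f ct : Matrix (Fin 2) (Fin 2) ℤ) * M = s • (M * (mB : Matrix (Fin 2) (Fin 2) ℤ)) := by
  have hcomm : ∀ i j, f (lf i) * f (lf j) = f (lf j) * f (lf i) := fun i j => by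
    rw [← map_mul, lf_comm, map_mul]
  have hbr : ∀ i, f (lf i) * f ct * f (lf i) = f ct * f (lf i) * f ct := fun i => by
    rw [← map_mul, ← map_mul, lf_braid, map_mul, map_mul]
  have hn : f (lf 0) * f ct ≠ f ct * f (lf 0) := by
    intro h
    have h0 : f (lf 0) = f ct := by
      have h1 := hbr 0
      rw [h] at h1
      exact mul_left_cancel h1
    have hall : ∀ i, f (lf i) = f ct := by
      intro i
      have h1 := hbr i
      have h2 := hcomm i 0
      rw [h0] at h2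
      rw [h2] at h1
      exact mul_left_cancel h1
    have hz : ∀ x, f x ∈ Subgroup.zpowers (f ct) := by
      intro x
      induction x using ind4 with
      | h i => rw [hall i]; exact Subgroup.mem_zpowers _
      | hc => exact Subgroup.mem_zpowers _
      | h1 => rw [map_one]; exact one_mem _
      | hm x y hx hy => rw [map_mul]; exact mul_mem hx hy
      | hi x hx => rw [map_inv]; exact inv_mem hx
    obtain ⟨x, hx⟩ := hf mA
    obtain ⟨y, hy⟩ := hf mB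
    have h1 := hz x
    have h2 := hz y
    rw [hx, Subgroup.mem_zpowers_iff] at h1
    rw [hy, Subgroup.mem_zpowers_iff] at h2
    obtain ⟨m, hm⟩ := h1
    obtain ⟨n, hn⟩ := h2
    apply mA_mB_ne
    rw [← hm, ← hn, ← zpow_add, ← zpow_add, add_comm m n]
  have hall : ∀ i, f (lf i) = f (lf 0) := fun i =>
    Pool.Agent.Helper38.BT.class_B (hcomm 0 i) (hbr 0) (hbr i) hn
  have hg : Subgroup.closure {f (lf 0), f ct} = (⊤ : Subgroup SL) := by
    rw [eq_top_iff]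
    intro g _
    obtain ⟨x, rfl⟩ := hf g
    have h1 : f (lf 0) ∈ Subgroup.closure ({f (lf 0), f ct} : Set SL) :=
      Subgroup.subset_closure (Or.inl rfl)
    have h2 : f ct ∈ Subgroup.closure ({f (lf 0), f ct} : Set SL) :=
      Subgroup.subset_closure (Or.inr rfl)
    induction x using ind4 with
    | h i => rw [hall i]; exact h1
    | hc => exact h2
    | h1 => rw [map_one]; exact one_mem _
    | hm x y hx hy => rw [map_mul]; exact mul_mem (hx trivial) (hy trivial)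
    | hi x hx => rw [map_inv]; exact inv_mem (hx trivial)
  obtain ⟨t1, t2, -⟩ := Pool.Agent.Helper7.AG.tr_AB (hbr 0) hn
  obtain ⟨M, s, hM, hs, h1, h2⟩ := Pool.Agent.Helper7.AG.class_AB (hbr 0) t1 t2 hg
  exact ⟨M, s, hM, hs, fun i => by rw [hall]; exact h1, h2⟩

/-- conjugation of a matrix of determinant one -/
theorem conj_one {X Y : SL} {M : Matrix (Fin 2) (Fin 2) ℤ} (hM : M.det = 1) {s : ℤ}
    (hs : s = 1 ∨ s = -1)
    (h : (X : Matrix (Fin 2) (Fin 2) ℤ) * M = s • (M * (Y : Matrix (Fin 2) (Fin 2) ℤ))) :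
    ∀ m : SL, m = ⟨M, hM⟩ → m⁻¹ * X * m = (if s = 1 then 1 else -1) * Y := by
  intro m hm
  have h1 : X * m = m * ((if s = 1 then 1 else -1) * Y) := by
    apply Subtype.ext
    rcases hs with rfl | rfl
    · rw [if_pos rfl, one_mul, Matrix.SpecialLinearGroup.coe_mul, Matrix.SpecialLinearGroup.coe_mul,
        hm, h, one_smul]
    · rw [if_neg (by norm_num), Matrix.SpecialLinearGroup.coe_mul, Matrix.SpecialLinearGroup.coe_mul,
        Matrix.SpecialLinearGroup.coe_mul, Matrix.SpecialLinearGroup.coe_neg,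
        Matrix.SpecialLinearGroup.coe_one, hm, h]
      simp
  rw [mul_assoc, h1, inv_mul_cancel_left]

/-- the matrix `diag(1, -1)` -/
def mJ : Matrix (Fin 2) (Fin 2) ℤ := !![1, 0; 0, -1]

lemma mJ_A : ((mA⁻¹ : SL) : Matrix (Fin 2) (Fin 2) ℤ) * mJ = mJ * (mA : Matrix (Fin 2) (Fin 2) ℤ) := by
  rw [Matrix.SpecialLinearGroup.coe_inv, Matrix.adjugate_fin_two]
  ext i j; fin_cases i <;> fin_cases j <;> simp [mA, mJ, Matrix.mul_apply, Fin.sum_univ_two]
lemma mJ_B : ((mB⁻¹ : SL) : Matrix (Fin 2) (Fin 2) ℤ) * mJ = mJ * (mB : Matrix (Fin 2) (Fin 2) ℤ) := by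
  rw [Matrix.SpecialLinearGroup.coe_inv, Matrix.adjugate_fin_two]
  ext i j; fin_cases i <;> fin_cases j <;> simp [mB, mJ, Matrix.mul_apply, Fin.sum_univ_two]

/-- the same for the inverses -/
theorem inv_J {X Y : SL} {M : Matrix (Fin 2) (Fin 2) ℤ} {s : ℤ} (hs : s = 1 ∨ s = -1)
    (hY : ((Y⁻¹ : SL) : Matrix (Fin 2) (Fin 2) ℤ) * mJ = mJ * (Y : Matrix (Fin 2) (Fin 2) ℤ))
    (h : (X : Matrix (Fin 2) (Fin 2) ℤ) * M = s • (M * (Y : Matrix (Fin 2) (Fin 2) ℤ))) :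
    ((X⁻¹ : SL) : Matrix (Fin 2) (Fin 2) ℤ) * (M * mJ) =
      s • ((M * mJ) * (Y : Matrix (Fin 2) (Fin 2) ℤ)) := by
  have e1 : ((X⁻¹ : SL) : Matrix (Fin 2) (Fin 2) ℤ) * (X : Matrix (Fin 2) (Fin 2) ℤ) = 1 := by
    rw [← Matrix.SpecialLinearGroup.coe_mul, inv_mul_cancel, Matrix.SpecialLinearGroup.coe_one]
  have e2 : (Y : Matrix (Fin 2) (Fin 2) ℤ) * ((Y⁻¹ : SL) : Matrix (Fin 2) (Fin 2) ℤ) = 1 := by
    rw [← Matrix.SpecialLinearGroup.coe_mul, mul_inv_cancel, Matrix.SpecialLinearGroup.coe_one]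
  have h1 : ((X⁻¹ : SL) : Matrix (Fin 2) (Fin 2) ℤ) * M =
      s • (M * ((Y⁻¹ : SL) : Matrix (Fin 2) (Fin 2) ℤ)) := by
    have h2 : ((X⁻¹ : SL) : Matrix (Fin 2) (Fin 2) ℤ) *
        ((X : Matrix (Fin 2) (Fin 2) ℤ) * M) * ((Y⁻¹ : SL) : Matrix (Fin 2) (Fin 2) ℤ) =
        ((X⁻¹ : SL) : Matrix (Fin 2) (Fin 2) ℤ) *
        (s • (M * (Y : Matrix (Fin 2) (Fin 2) ℤ))) * ((Y⁻¹ : SL) : Matrix (Fin 2) (Fin 2) ℤ) := by
      rw [h]
    rw [← Matrix.mul_assoc, e1, Matrix.one_mul, Matrix.mul_smul, Matrix.smul_mul, Matrix.mul_assoc,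
      Matrix.mul_assoc M, e2, Matrix.mul_one] at h2
    rw [h2]
    rcases hs with rfl | rfl <;> simp
  rw [← Matrix.mul_assoc, h1, Matrix.smul_mul, Matrix.mul_assoc, hY, Matrix.mul_assoc]

lemma det_mJ (M : Matrix (Fin 2) (Fin 2) ℤ) : (M * mJ).det = -M.det := by
  rw [Matrix.det_mul]
  have : mJ.det = -1 := by simp [mJ, Matrix.det_fin_two]
  rw [this]; ring

/-- the elements of `D 0` over `1` and `-1` -/
theorem ker_rho {x : D 0} (h : rho x = 1 ∨ rho x = -1) :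
    ∃ k : ℤ, rho x = (-1) ^ k ∧ lenD 0 x = Multiplicative.ofAdd (6 * k) := by
  let g : D 0 →* SL × Multiplicative ℤ := rho.prod (lenD 0)
  let a : SL × Multiplicative ℤ := (mA, Multiplicative.ofAdd 1)
  let b : SL × Multiplicative ℤ := (mB, Multiplicative.ofAdd 1)
  have hab : a * b * a = b * a * b := Prod.ext mA_braid rfl
  have hmem : ∀ x, g x ∈ Subgroup.closure {a, b} := by
    intro x
    have h1 : a ∈ Subgroup.closure ({a, b} : Set (SL × Multiplicative ℤ)) :=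
      Subgroup.subset_closure (Or.inl rfl)
    have h2 : b ∈ Subgroup.closure ({a, b} : Set (SL × Multiplicative ℤ)) :=
      Subgroup.subset_closure (Or.inr rfl)
    induction x using ind4 with
    | h i =>
      have e : g (lf i) = a := Prod.ext (rho_lf i) (len_lf i)
      rw [e]; exact h1
    | hc =>
      have e : g ct = b := Prod.ext rho_ct len_ct
      rw [e]; exact h2
    | h1 => rw [map_one]; exact one_mem _
    | hm x y hx hy => rw [map_mul]; exact mul_mem hx hy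
    | hi x hx => rw [map_inv]; exact inv_mem hx
  obtain ⟨n, hn⟩ := Pool.Agent.Helper7.AG.ker_B3 hab (f := MonoidHom.fst SL (Multiplicative ℤ)) rfl rfl
    (hmem x) h
  refine ⟨n, ?_, ?_⟩
  · have h1 := congrArg Prod.fst hn
    have h2 : rho x = ((mA * mB) ^ 3) ^ n := h1
    rw [h2, (Pool.Agent.Helper7.AG.tr_AB mA_braid mA_mB_ne).2.2]
  · have h1 := congrArg Prod.snd hn
    have h2 : lenD 0 x = ((Multiplicative.ofAdd (1 : ℤ) * Multiplicative.ofAdd (1 : ℤ)) ^ 3) ^ n := h1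
    rw [h2, ← ofAdd_add, ← ofAdd_nsmul, ← ofAdd_zsmul]
    congr 1
    simp
    ring

/-- the length of the images -/
theorem len_map (ψ : MulAut (D 0)) : ∃ d : ℤ, (d = 1 ∨ d = -1) ∧ ∀ x, lenD 0 (ψ x) = (lenD 0 x) ^ d := by
  have key : ∀ ψ : MulAut (D 0), ∃ d : ℤ, ∀ x, lenD 0 (ψ x) = (lenD 0 x) ^ d := by
    intro ψ
    obtain ⟨d, hd⟩ : ∃ d : ℤ, Multiplicative.ofAdd d = lenD 0 (ψ ct) :=
      ⟨Multiplicative.toAdd (lenD 0 (ψ ct)), rfl⟩
    refine ⟨d, fun x => ?_⟩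
    have h1 : (lenD 0).comp ψ.toMonoidHom = (zpowGroupHom d).comp (lenD 0) := by
      apply hom4_ext
      · intro i
        show lenD 0 (ψ (lf i)) = (lenD 0 (lf i)) ^ d
        have h2 := congrArg (fun x => lenD 0 (ψ x)) (lf_braid i)
        simp only [map_mul] at h2
        have h3 : lenD 0 (ψ (lf i)) = lenD 0 (ψ ct) := by
          rw [mul_comm (lenD 0 (ψ ct)) (lenD 0 (ψ (lf i)))] at h2
          exact mul_left_cancel h2
        rw [h3, len_lf, ← hd, ← ofAdd_zsmul]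
        congr 1
        simp
      · show lenD 0 (ψ ct) = (lenD 0 ct) ^ d
        rw [len_ct, ← hd, ← ofAdd_zsmul]
        congr 1
        simp
    exact DFunLike.congr_fun h1 x
  obtain ⟨d, hd⟩ := key ψ
  obtain ⟨d', hd'⟩ := key ψ⁻¹
  refine ⟨d, ?_, hd⟩
  have h1 := hd (ψ⁻¹ ct)
  rw [hd', MulAut.apply_inv_self, len_ct, ← zpow_mul, ← ofAdd_zsmul] at h1
  have h2 : (1 : ℤ) = d * d' := by
    have := congrArg Multiplicative.toAdd h1
    simpa using this
  exact Int.eq_one_or_neg_one_of_mul_eq_one h2.symm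

/-- the normal form of an automorphism with respect to `rho` and the length -/
theorem norm_one {ψ : MulAut (D 0)} {s : SL} (hs : s = 1 ∨ s = -1) (h1 : ∀ i, rho (ψ (lf i)) = s * mA)
    (h2 : rho (ψ ct) = s * mB) : (∀ y, rho (ψ y) = rho y) ∧ ∀ y, lenD 0 (ψ y) = lenD 0 y := by
  obtain ⟨d, hd, hl⟩ := len_map ψ
  have e : rho (ψ ct * ct⁻¹) = s := by rw [map_mul, map_inv, h2, rho_ct, mul_inv_cancel_right]
  obtain ⟨k, hk, hk'⟩ := ker_rho (x := ψ ct * ct⁻¹) (by rw [e]; exact hs)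
  rw [map_mul, map_inv, hl, len_ct, ← ofAdd_zsmul, ← ofAdd_neg, ← ofAdd_add] at hk'
  have h3 : d - 1 = 6 * k := by
    have := congrArg Multiplicative.toAdd hk'
    simp only [toAdd_ofAdd, smul_eq_mul, mul_one] at this
    linarith
  have hk0 : k = 0 := by omega
  have hd1 : d = 1 := by omega
  subst hk0 hd1
  rw [zpow_zero, e] at hk
  subst hk
  refine ⟨fun y => ?_, fun y => by rw [hl, zpow_one]⟩
  have h4 : rho.comp ψ.toMonoidHom = rho := by
    apply hom4_ext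
    · intro i
      show rho (ψ (lf i)) = rho (lf i)
      rw [h1, one_mul, rho_lf]
    · show rho (ψ ct) = rho ct
      rw [h2, one_mul, rho_ct]
  exact DFunLike.congr_fun h4 y

theorem norm_det {ψ : MulAut (D 0)} {M : Matrix (Fin 2) (Fin 2) ℤ} {s : ℤ} (hM : M.det = 1)
    (hs : s = 1 ∨ s = -1)
    (h1 : ∀ i, (rho (ψ (lf i)) : Matrix (Fin 2) (Fin 2) ℤ) * M =
        s • (M * (mA : Matrix (Fin 2) (Fin 2) ℤ)))
    (h2 : (rho (ψ ct) : Matrix (Fin 2) (Fin 2) ℤ) * M = s • (M * (mB : Matrix (Fin 2) (Fin 2) ℤ))) :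
    ∃ x : D 0, (∀ y, rho ((MulAut.conj x * ψ) y) = rho y) ∧
      ∀ y, lenD 0 ((MulAut.conj x * ψ) y) = lenD 0 y := by
  obtain ⟨m, hm⟩ := rho_surj (⟨M, hM⟩ : SL)
  refine ⟨m⁻¹, norm_one (s := if s = 1 then 1 else -1) ?_ (fun i => ?_) ?_⟩
  · rcases hs with rfl | rfl <;> simp
  · rw [MulAut.mul_apply, MulAut.conj_apply, map_mul, map_mul, inv_inv, map_inv, hm]
    exact conj_one hM hs (h1 i) _ rfl
  · rw [MulAut.mul_apply, MulAut.conj_apply, map_mul, map_mul, inv_inv, map_inv, hm]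
    exact conj_one hM hs h2 _ rfl

/-- every automorphism is, up to conjugations and `eps`, over the identity -/
theorem norm_rho (φ : MulAut (D 0)) : ∃ x : D 0,
    ((∀ y, rho ((MulAut.conj x * φ) y) = rho y) ∧ ∀ y, lenD 0 ((MulAut.conj x * φ) y) = lenD 0 y) ∨
    ((∀ y, rho ((MulAut.conj x * (φ * eps 0)) y) = rho y) ∧
      ∀ y, lenD 0 ((MulAut.conj x * (φ * eps 0)) y) = lenD 0 y) := by
  have hf : Function.Surjective (rho.comp φ.toMonoidHom) := by
    intro g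
    obtain ⟨x, hx⟩ := rho_surj g
    exact ⟨φ.symm x, by
      show rho (φ (φ.symm x)) = g
      rw [MulEquiv.apply_symm_apply, hx]⟩
  obtain ⟨M, s, hM, hs, h1, h2⟩ := surj_class hf
  rcases hM with hM | hM
  · obtain ⟨x, hx⟩ := norm_det (ψ := φ) hM hs h1 h2
    exact ⟨x, Or.inl hx⟩
  · have h1' : ∀ i, (rho ((φ * eps 0) (lf i)) : Matrix (Fin 2) (Fin 2) ℤ) * (M * mJ) =
        s • ((M * mJ) * (mA : Matrix (Fin 2) (Fin 2) ℤ)) := by
      intro i
      rw [MulAut.mul_apply, eps_lf, map_inv, map_inv]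
      exact inv_J hs mJ_A (h1 i)
    have h2' : (rho ((φ * eps 0) ct) : Matrix (Fin 2) (Fin 2) ℤ) * (M * mJ) =
        s • ((M * mJ) * (mB : Matrix (Fin 2) (Fin 2) ℤ)) := by
      rw [MulAut.mul_apply, eps_ct, map_inv, map_inv]
      exact inv_J hs mJ_B h2
    obtain ⟨x, hx⟩ := norm_det (ψ := φ * eps 0) (by rw [det_mJ, hM, neg_neg]) hs h1' h2'
    exact ⟨x, Or.inr hx⟩

end Pool.Agent.Helper38.D4
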