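import Pool.Agent.Helper38.D4.Defs

/-!
# Project D4: the free nilpotent group of class three over `ℚ` with the action of `SL(2, ℤ)`

`N5` has the coordinates `(x, y, z, p, q)` (the Campbell-Hausdorff formula), `SL(2, ℤ)` acts on `(x, y)` and
`(p, q)`; `Gm = N5 ⋊ SL(2, ℤ)`.
-/

namespace Pool.Agent.Helper38.D4

open Pool.Agent.Helper7.AG (SL mA mB tr mA_braid)
open Pool.Agent.Helper20.DN Pool.Agent.Helper38.BN

/-- the group in logarithmic coordinates -/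
@[ext] structure N5 where
  x : ℚ
  y : ℚ
  z : ℚ
  p : ℚ
  q : ℚ

namespace N5

instance : Mul N5 := ⟨fun u v => ⟨u.x + v.x, u.y + v.y, u.z + v.z + (u.x * v.y - v.x * u.y) / 2,
  u.p + v.p + (u.x * v.z - v.x * u.z) / 2 + (u.x - v.x) * (u.x * v.y - v.x * u.y) / 12,
  u.q + v.q + (u.y * v.z - v.y * u.z) / 2 + (u.y - v.y) * (u.x * v.y - v.x * u.y) / 12⟩⟩
instance : One N5 := ⟨⟨0, 0, 0, 0, 0⟩⟩
instance : Inv N5 := ⟨fun u => ⟨-u.x, -u.y, -u.z, -u.p, -u.q⟩⟩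

@[simp] lemma mul_x (u v : N5) : (u * v).x = u.x + v.x := rfl
@[simp] lemma mul_y (u v : N5) : (u * v).y = u.y + v.y := rfl
@[simp] lemma mul_z (u v : N5) : (u * v).z = u.z + v.z + (u.x * v.y - v.x * u.y) / 2 := rfl
@[simp] lemma mul_p (u v : N5) : (u * v).p =
  u.p + v.p + (u.x * v.z - v.x * u.z) / 2 + (u.x - v.x) * (u.x * v.y - v.x * u.y) / 12 := rfl
@[simp] lemma mul_q (u v : N5) : (u * v).q =
  u.q + v.q + (u.y * v.z - v.y * u.z) / 2 + (u.y - v.y) * (u.x * v.y - v.x * u.y) / 12 := rfl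
@[simp] lemma one_x : (1 : N5).x = 0 := rfl
@[simp] lemma one_y : (1 : N5).y = 0 := rfl
@[simp] lemma one_z : (1 : N5).z = 0 := rfl
@[simp] lemma one_p : (1 : N5).p = 0 := rfl
@[simp] lemma one_q : (1 : N5).q = 0 := rfl
@[simp] lemma inv_x (u : N5) : u⁻¹.x = -u.x := rfl
@[simp] lemma inv_y (u : N5) : u⁻¹.y = -u.y := rfl
@[simp] lemma inv_z (u : N5) : u⁻¹.z = -u.z := rfl
@[simp] lemma inv_p (u : N5) : u⁻¹.p = -u.p := rfl
@[simp] lemma inv_q (u : N5) : u⁻¹.q = -u.q := rfl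

instance : Group N5 := Group.ofLeftAxioms
  (fun a b c => by ext <;> simp <;> ring)
  (fun a => by ext <;> simp)
  (fun a => by ext <;> simp <;> ring)

end N5

/-- the action of a matrix -/
def actF (g : SL) (u : N5) : N5 :=
  ⟨(g 0 0 : ℚ) * u.x + (g 0 1 : ℚ) * u.y, (g 1 0 : ℚ) * u.x + (g 1 1 : ℚ) * u.y, u.z,
    (g 0 0 : ℚ) * u.p + (g 0 1 : ℚ) * u.q, (g 1 0 : ℚ) * u.p + (g 1 1 : ℚ) * u.q⟩

lemma det_q (g : SL) : (g 0 0 : ℚ) * (g 1 1 : ℚ) - (g 0 1 : ℚ) * (g 1 0 : ℚ) = 1 := by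
  have h := g.2
  rw [Matrix.det_fin_two] at h
  exact_mod_cast h

lemma actF_mul (g h : SL) (u : N5) : actF (g * h) u = actF g (actF h u) := by
  have e : ∀ i j, (g * h : SL) i j = g i 0 * h 0 j + g i 1 * h 1 j := by
    intro i j
    rw [Matrix.SpecialLinearGroup.coe_mul, Matrix.mul_apply, Fin.sum_univ_two]
  ext <;> simp only [actF, e] <;> push_cast <;> ring

lemma actF_one (u : N5) : actF 1 u = u := by
  ext <;> simp [actF]

lemma actF_hom (g : SL) (u v : N5) : actF g (u * v) = actF g u * actF g v := by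
  have h := det_q g
  ext
  · simp only [actF, N5.mul_x, N5.mul_y]; ring
  · simp only [actF, N5.mul_x, N5.mul_y]; ring
  · simp only [actF, N5.mul_z]
    linear_combination (-(u.x * v.y - v.x * u.y) / 2) * h
  · simp only [actF, N5.mul_p, N5.mul_q]
    linear_combination (-((g 0 0 : ℚ) * (u.x - v.x) + (g 0 1 : ℚ) * (u.y - v.y)) *
      (u.x * v.y - v.x * u.y) / 12) * h
  · simp only [actF, N5.mul_p, N5.mul_q]
    linear_combination (-((g 1 0 : ℚ) * (u.x - v.x) + (g 1 1 : ℚ) * (u.y - v.y)) *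
      (u.x * v.y - v.x * u.y) / 12) * h

/-- the automorphism of a matrix -/
def actA (g : SL) : MulAut N5 where
  toFun := actF g
  invFun := actF g⁻¹
  left_inv u := by rw [← actF_mul, inv_mul_cancel, actF_one]
  right_inv u := by rw [← actF_mul, mul_inv_cancel, actF_one]
  map_mul' := actF_hom g

/-- the action of `SL(2, ℤ)` -/
def actN : SL →* MulAut N5 where
  toFun := actA
  map_one' := by ext u : 1; exact actF_one u
  map_mul' g h := by ext u : 1; exact actF_mul g h u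

/-- the semidirect product -/
abbrev Gm : Type := N5 ⋊[actN] SL

lemma actN_apply (g : SL) (u : N5) : actN g u = actF g u := rfl

lemma Gm_left (a b : Gm) : (a * b).left = a.left * actF a.right b.left := rfl
lemma Gm_right (a b : Gm) : (a * b).right = a.right * b.right := rfl

lemma mA_00 : (mA 0 0 : ℤ) = 1 := rfl
lemma mA_01 : (mA 0 1 : ℤ) = 1 := rfl
lemma mA_10 : (mA 1 0 : ℤ) = 0 := rfl
lemma mA_11 : (mA 1 1 : ℤ) = 1 := rfl
lemma mB_00 : (mB 0 0 : ℤ) = 1 := rfl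
lemma mB_01 : (mB 0 1 : ℤ) = 0 := rfl
lemma mB_10 : (mB 1 0 : ℤ) = -1 := rfl
lemma mB_11 : (mB 1 1 : ℤ) = 1 := rfl

lemma actF_mA (u : N5) : actF mA u = ⟨u.x + u.y, u.y, u.z, u.p + u.q, u.q⟩ := by
  ext <;> simp [actF, mA_00, mA_01, mA_10, mA_11]
lemma actF_mB (u : N5) : actF mB u = ⟨u.x, -u.x + u.y, u.z, u.p, -u.p + u.q⟩ := by
  ext <;> simp [actF, mB_00, mB_01, mB_10, mB_11]

/-- the image of a leaf with the parameter `t` (`0` or `1`) -/
def leafN (t : ℚ) : N5 := ⟨t, 0, t ^ 2 / 2 - 1 / 12, 0, t / 12 - t ^ 3 / 6⟩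
/-- the image of the center node -/
def ctrN : N5 := ⟨0, 0, -1 / 12, 0, 0⟩

theorem leaf_comm {s t : ℚ} (hs : s = 0 ∨ s = 1) (ht : t = 0 ∨ t = 1) :
    (⟨leafN s, mA⟩ : Gm) * ⟨leafN t, mA⟩ = ⟨leafN t, mA⟩ * ⟨leafN s, mA⟩ := by
  apply SemidirectProduct.ext
  · rw [Gm_left, Gm_left, actF_mA, actF_mA]
    rcases hs with rfl | rfl <;> rcases ht with rfl | rfl <;> ext <;> simp [leafN] <;> norm_num
  · rfl

theorem leaf_braid (t : ℚ) :
    (⟨leafN t, mA⟩ : Gm) * ⟨ctrN, mB⟩ * ⟨leafN t, mA⟩ = ⟨ctrN, mB⟩ * ⟨leafN t, mA⟩ * ⟨ctrN, mB⟩ := by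
  apply SemidirectProduct.ext
  · simp only [Gm_left, Gm_right, actF_mul, actF_mA, actF_mB]
    ext <;> simp [leafN, ctrN] <;> ring
  · exact mA_braid

/-- the homomorphism of a vector with the entries `0` and `1` -/
def theta (e : Fin 4 → ℚ) (he : ∀ i, e i = 0 ∨ e i = 1) : D 0 →* Gm :=
  lift4 (fun i => ⟨leafN (e i), mA⟩) ⟨ctrN, mB⟩ (fun i j => leaf_comm (he i) (he j))
    (fun i => leaf_braid (e i))

/-- THE KEY EQUATION for homomorphisms over `rho` -/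
theorem key {a : Fin 4 → N5} {c : N5} (h1 : ∀ i j, (⟨a i, mA⟩ : Gm) * ⟨a j, mA⟩ = ⟨a j, mA⟩ * ⟨a i, mA⟩)
    (h2 : ∀ i, (⟨a i, mA⟩ : Gm) * ⟨c, mB⟩ * ⟨a i, mA⟩ = ⟨c, mB⟩ * ⟨a i, mA⟩ * ⟨c, mB⟩) :
    ∃ T : ℚ, ∀ i j, ((a i).x - (a j).x) * (12 * T + ((a i).x - (a j).x) ^ 2) = 0 := by
  have hb : ∀ i, (a i).y = 0 ∧ c.x = 0 := by
    intro i
    have h := congrArg SemidirectProduct.left (h2 i)
    simp only [Gm_left, Gm_right, actF_mul, actF_mA, actF_mB] at h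
    have hx := congrArg N5.x h
    have hy := congrArg N5.y h
    simp at hx hy
    constructor <;> linarith
  refine ⟨c.z - c.y ^ 2 / 2, fun i j => ?_⟩
  have hc := (hb 0).2
  have hr : ∀ i, (a i).z = c.z + (a i).x ^ 2 / 2 - c.y ^ 2 / 2 ∧
      2 * (a i).q + c.z * (a i).x + (a i).x * (a i).z - (a i).x * c.y ^ 2 / 2 - (a i).x ^ 3 / 6 = 0 := by
    intro i
    have hy := (hb i).1
    have h := congrArg SemidirectProduct.left (h2 i)
    simp only [Gm_left, Gm_right, actF_mul, actF_mA, actF_mB] at h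
    have hz := congrArg N5.z h
    have hp := congrArg N5.p h
    have hq := congrArg N5.q h
    simp only [N5.mul_x, N5.mul_y, N5.mul_z, N5.mul_p, N5.mul_q, hy, hc] at hz hp hq
    constructor
    · linear_combination hz
    · linear_combination hp + hq
  obtain ⟨zi, qi⟩ := hr i
  obtain ⟨zj, qj⟩ := hr j
  have hyi := (hb i).1
  have hyj := (hb j).1
  have h := congrArg SemidirectProduct.left (h1 i j)
  simp only [Gm_left, Gm_right, actF_mul, actF_mA, actF_mB] at h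
  have hp := congrArg N5.p h
  simp only [N5.mul_x, N5.mul_y, N5.mul_z, N5.mul_p, N5.mul_q, hyi, hyj] at hp
  rw [zi] at qi hp
  rw [zj] at qj hp
  linear_combination 6 * hp + 3 * qi - 3 * qj

end Pool.Agent.Helper38.D4
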