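import Pool.Agent.Helper38.D4.Gr
import Pool.Agent.Helper38.DN.S2F

/-!
# Project D4: normalized automorphisms
-/

namespace Pool.Agent.Helper38.D4

open Pool.Agent.Helper7.AG (SL mA mB tr mA_braid Artin)
open Pool.Agent.Helper20.DN

/-- the automorphism is over the identity of `SL(2, ℤ)` and acts on the classes as `1` or `-1` -/
structure Nm (ψ : MulAut (D 0)) : Prop where
  ovr : ∀ y, rho (ψ y) = rho y
  cls : ∃ s : ℤ, (s = 1 ∨ s = -1) ∧ ∀ α u, rho u = 1 → be α (ψ u) = s • be α u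

/-- after a graph automorphism -/
theorem exists_Nm {φ : MulAut (D 0)} (hφ : ∀ y, rho (φ y) = rho y) :
    ∃ σ : Equiv.Perm (Fin 4), Nm (φ * gg σ) := by
  obtain ⟨σ, s, hs, h⟩ := perm_of hφ
  have hr : ∀ y, rho ((φ * gg σ⁻¹) y) = rho y := fun y => by
    rw [MulAut.mul_apply, hφ, rho_gg]
  refine ⟨σ⁻¹, hr, s, hs, fun α u hu => ?_⟩
  have h1 := expand_ker ((be_cr α).comp hr) hu
  rw [h1]
  have h2 : (fun j => (be α ((φ * gg σ⁻¹) (lf j))).1) =
      (fun _ => mm α φ (σ⁻¹ 0) - s * α 0) + s • α := by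
    funext j
    show (be α (φ (gg σ⁻¹ (lf j)))).1 = mm α φ (σ⁻¹ 0) - s * α 0 + s * α j
    rw [gg_lf]
    have h3 := h α (σ⁻¹ j) (σ⁻¹ 0)
    have e : ∀ x, σ (σ⁻¹ x) = x := fun x => Equiv.apply_symm_apply σ x
    rw [e, e] at h3
    unfold mm at h3 ⊢
    linear_combination h3
  rw [h2, be_add, be_const_ker _ hu, be_zsmul]
  exact zero_add (s • be α u)

lemma sq_sign {s : ℤ} (hs : s = 1 ∨ s = -1) (v : ℤ × ℤ) : s • s • v = v := by
  rcases hs with rfl | rfl <;> simp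

theorem Nm.inv {ψ : MulAut (D 0)} (h : Nm ψ) : Nm ψ⁻¹ := by
  obtain ⟨s, hs, hb⟩ := h.cls
  refine ⟨rho_inv h.ovr, s, hs, fun α u hu => ?_⟩
  have h1 := hb α (ψ⁻¹ u) (by rw [rho_inv h.ovr, hu])
  rw [MulAut.apply_inv_self] at h1
  rw [h1, sq_sign hs]

/-- the permutation of the leaves of the reflection -/
def ta : Equiv.Perm (Fin 4) := Equiv.swap 0 2 * Equiv.swap 1 3

lemma ta_ta (i : Fin 4) : ta (ta i) = i := by
  fin_cases i <;> decide

theorem sg_gg : sg 0 = gg ta := by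
  have h : (sg 0).toMonoidHom = (gg ta).toMonoidHom := by
    apply hom4_ext
    · intro i
      show sg 0 (lf i) = gg ta (lf i)
      rw [gg_lf]
      fin_cases i
      · exact sg_a (by omega)
      · exact sg_e
      · exact sg_a (by omega)
      · exact sg_b
    · show sg 0 ct = gg ta ct
      rw [gg_ct]
      exact sg_a (by omega)
  ext x
  exact DFunLike.congr_fun h x

theorem Nm.mir {ψ : MulAut (D 0)} (h : Nm ψ) : Nm (mir ψ) := by
  obtain ⟨s, hs, hb⟩ := h.cls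
  refine ⟨fun y => ?_, s, hs, fun α u hu => ?_⟩
  · rw [mir_apply, sg_gg, rho_gg, h.ovr, rho_gg]
  · rw [mir_apply, sg_gg, be_gg, hb _ _ (by rw [rho_gg, hu]), be_gg]
    have e : (fun i => α (ta (ta i))) = α := funext fun i => by rw [ta_ta]
    rw [e]

/-! ### elements of the kernel of `rho` -/

lemma be_mul {α : Fin 4 → ℤ} {x : D 0} (hx : rho x = 1) (y : D 0) :
    be α (x * y) = be α x + be α y := by rw [be_cr, hx, vF_one]

lemma be_inv {α : Fin 4 → ℤ} {x : D 0} (hx : rho x = 1) : be α x⁻¹ = -be α x := by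
  rw [(be_cr α).inv, hx, inv_one, vF_one]

lemma rho_zpow {x : D 0} (hx : rho x = 1) (n : ℤ) : rho (x ^ n) = 1 := by
  rw [map_zpow, hx, one_zpow]

/-- the restriction of `be α` to the kernel of `rho` -/
def beK (α : Fin 4 → ℤ) : rho.ker →* Multiplicative (ℤ × ℤ) where
  toFun x := Multiplicative.ofAdd (be α x.1)
  map_one' := by
    show Multiplicative.ofAdd (be α 1) = 1
    rw [(be_cr α).one]; rfl
  map_mul' x y := by
    show Multiplicative.ofAdd (be α (x.1 * y.1)) = _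
    rw [be_mul (MonoidHom.mem_ker.1 x.2)]; rfl

lemma be_zpow {α : Fin 4 → ℤ} {x : D 0} (hx : rho x = 1) (n : ℤ) : be α (x ^ n) = n • be α x := by
  have h := map_zpow (beK α) ⟨x, MonoidHom.mem_ker.2 hx⟩ n
  exact congrArg Multiplicative.toAdd h

lemma be_conj {α : Fin 4 → ℤ} {x : D 0} (hx : rho x = 1) (y : D 0) :
    be α (y * x * y⁻¹) = vF ℤ (rho y) (be α x) := by
  rw [be_cr, be_cr, (be_cr α).inv, map_mul, hx, mul_one, vF_neg, ← vF_mul, mul_inv_cancel, vF_one]
  abel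

/-- the values on the kernel -/
theorem be_surj {α : Fin 4 → ℤ} {i j : Fin 4} (h : α i - α j = 1) (w : ℤ × ℤ) :
    ∃ t : D 0, rho t = 1 ∧ be α t = w := by
  have h1 : rho (lf i * (lf j)⁻¹) = 1 := rho_diff i j
  have h2 : be α (lf i * (lf j)⁻¹) = (1, 0) := by rw [be_diff, h]
  have h3 : rho (ct * (lf i * (lf j)⁻¹) * ct⁻¹) = 1 := by
    rw [map_mul, map_mul, h1, mul_one, map_inv, mul_inv_cancel]
  have h4 : be α (ct * (lf i * (lf j)⁻¹) * ct⁻¹) = (1, -1) := by
    rw [be_conj h1, h2, rho_ct, vF_mB]; rfl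
  refine ⟨(lf i * (lf j)⁻¹) ^ (w.1 + w.2) * (ct * (lf i * (lf j)⁻¹) * ct⁻¹) ^ (-w.2), ?_, ?_⟩
  · rw [map_mul, rho_zpow h1, rho_zpow h3, one_mul]
  · rw [be_mul (rho_zpow h1 _), be_zpow h1, be_zpow h3, h2, h4]
    ext <;> simp

/-! ### the permutations of the strands -/

/-- the vector `(1, 1, 0, 0)` -/
def al0 : Fin 4 → ℤ := ![1, 1, 0, 0]

/-- the points of the plane ovr the field with two elements as strands -/
def pt (v : ZMod 2 × ZMod 2) : Fin (0 + 1 + 3) :=
  if v = (0, 0) then 0 else if v = (1, 0) then 1 else if v = (1, 1) then 2 else 3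

/-- reduction modulo two -/
def cst (v : ℤ × ℤ) : ZMod 2 × ZMod 2 := ((v.1 : ZMod 2), (v.2 : ZMod 2))

lemma cst_add (v w : ℤ × ℤ) : cst (v + w) = cst v + cst w := by
  ext <;> simp [cst]
lemma cst_vF (g : SL) (v : ℤ × ℤ) : cst (vF ℤ g v) = vF (ZMod 2) g (cst v) := by
  ext <;> simp [cst, vF]

lemma pt_surj (i : Fin (0 + 1 + 3)) : ∃ v, pt v = i := by
  fin_cases i
  · exact ⟨(0, 0), by decide⟩
  · exact ⟨(1, 0), by decide⟩
  · exact ⟨(1, 1), by decide⟩
  · exact ⟨(0, 1), by decide⟩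

theorem pi_pt (x : D 0) (v : ZMod 2 × ZMod 2) : Pool.Agent.Helper38.DN.piFD 0 x (pt v) =
    pt (vF (ZMod 2) (rho x) v + cst (be al0 x)) := by
  have hmul : ∀ x y, (∀ v, Pool.Agent.Helper38.DN.piFD 0 x (pt v) =
      pt (vF (ZMod 2) (rho x) v + cst (be al0 x))) → (∀ v, Pool.Agent.Helper38.DN.piFD 0 y (pt v) =
      pt (vF (ZMod 2) (rho y) v + cst (be al0 y))) → ∀ v, Pool.Agent.Helper38.DN.piFD 0 (x * y) (pt v) =
      pt (vF (ZMod 2) (rho (x * y)) v + cst (be al0 (x * y))) := by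
    intro x y hx hy v
    rw [map_mul, Equiv.Perm.mul_apply, hy, hx, be_cr, cst_add, cst_vF, vF_add, map_mul, vF_mul]
    congr 1
    abel
  have h0 : ∀ v, Pool.Agent.Helper38.DN.piFD 0 1 (pt v) =
      pt (vF (ZMod 2) (rho 1) v + cst (be al0 1)) := by
    intro v
    rw [map_one, map_one, vF_one, (be_cr al0).one]
    have e : cst 0 = 0 := by ext <;> simp [cst]
    rw [e, add_zero v]
    rfl
  revert v
  induction x using ind4 with
  | h i =>
    intro v
    rw [rho_lf, be_lf, vF_mA]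
    have hl : Pool.Agent.Helper38.DN.piFD 0 (lf i) =
        Pool.Agent.Helper38.BN.swF 1 (if i = 0 ∨ i = 1 then 0 else 2) := by
      fin_cases i
      · exact Pool.Agent.Helper38.DN.piFD_a (by omega)
      · exact Pool.Agent.Helper38.DN.piFD_e
      · exact Pool.Agent.Helper38.DN.piFD_a (by omega)
      · exact Pool.Agent.Helper38.DN.piFD_b
    rw [hl]
    obtain ⟨a, b⟩ := v
    fin_cases i <;> fin_cases a <;> fin_cases b <;> decide
  | hc =>
    intro v
    rw [rho_ct, be_ct, vF_mB]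
    have hl : Pool.Agent.Helper38.DN.piFD 0 ct = Pool.Agent.Helper38.BN.swF 1 1 :=
      Pool.Agent.Helper38.DN.piFD_a (by omega)
    rw [hl]
    obtain ⟨a, b⟩ := v
    fin_cases a <;> fin_cases b <;> decide
  | h1 => exact h0
  | hm x y hx hy => exact hmul x y hx hy
  | hi x hx =>
    intro v
    have h1 := hx (vF (ZMod 2) (rho x⁻¹) v + cst (be al0 x⁻¹))
    have h2 : vF (ZMod 2) (rho x) (vF (ZMod 2) (rho x⁻¹) v + cst (be al0 x⁻¹)) + cst (be al0 x) =
        v := by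
      have h3 := be_cr al0 x x⁻¹
      rw [mul_inv_cancel, (be_cr al0).one] at h3
      have h4 := congrArg cst h3
      rw [cst_add, cst_vF] at h4
      have e : cst 0 = 0 := by ext <;> simp [cst]
      rw [e] at h4
      rw [vF_add, ← vF_mul, map_inv, mul_inv_cancel, vF_one, add_assoc v, add_comm _ (cst (be al0 x)),
        ← h4]
      exact add_zero v
    rw [h2] at h1
    rw [map_inv, Equiv.Perm.inv_eq_iff_eq]
    exact h1.symm

/-- a normalized automorphism acts on the strands as an inner automorphism -/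
theorem Nm.pi {ψ : MulAut (D 0)} (h : Nm ψ) : ∃ t : D 0, ∀ x,
    Pool.Agent.Helper38.DN.piD 0 (ψ x) = Pool.Agent.Helper38.DN.piD 0 (t * x * t⁻¹) := by
  obtain ⟨s, hs, hb⟩ := h.cls
  obtain ⟨v, hv⟩ := expand ((be_cr al0).comp h.ovr)
  have h2 : (fun j => (be al0 (ψ (lf j))).1) = (fun _ => mm al0 ψ 0 - s * al0 0) + s • al0 := by
    funext j
    show (be al0 (ψ (lf j))).1 = mm al0 ψ 0 - s * al0 0 + s * al0 j
    have h3 := congrArg Prod.fst (hb al0 (lf j * (lf 0)⁻¹) (rho_diff j 0))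
    rw [mm_diff h.ovr, be_diff] at h3
    have h4 : mm al0 ψ j - mm al0 ψ 0 = s * (al0 j - al0 0) := h3
    unfold mm at h4 ⊢
    linear_combination h4
  rw [h2] at hv
  obtain ⟨t, ht, ht'⟩ := be_surj (α := al0) (i := 0) (j := 2) (by decide)
    ((0, -(mm al0 ψ 0 - s * al0 0)) + v)
  refine ⟨t, fun x => ?_⟩
  have h5 : be al0 (t * x * t⁻¹) = be al0 x + cob ((0, -(mm al0 ψ 0 - s * al0 0)) + v) x := by
    rw [be_cr, be_mul ht, be_inv ht, map_mul, ht, one_mul, ht', vF_neg]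
    unfold cob
    abel
  have h6 : be al0 (ψ x) = s • be al0 x + cob ((0, -(mm al0 ψ 0 - s * al0 0)) + v) x := by
    rw [hv x, be_add, be_const, be_zsmul]
    unfold cob
    rw [vF_add]
    abel
  have h8 : cst (be al0 (ψ x)) = cst (be al0 (t * x * t⁻¹)) := by
    rw [h5, h6, cst_add, cst_add]
    congr 1
    rcases hs with rfl | rfl
    · rw [one_smul]
    · rw [neg_one_zsmul]
      ext
      · show (((-(be al0 x)).1 : ℤ) : ZMod 2) = ((be al0 x).1 : ZMod 2)
        rw [Prod.fst_neg, Int.cast_neg]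
        exact ZMod.neg_eq_self_mod_two _
      · show (((-(be al0 x)).2 : ℤ) : ZMod 2) = ((be al0 x).2 : ZMod 2)
        rw [Prod.snd_neg, Int.cast_neg]
        exact ZMod.neg_eq_self_mod_two _
  have h9 : Pool.Agent.Helper38.DN.piFD 0 (ψ x) = Pool.Agent.Helper38.DN.piFD 0 (t * x * t⁻¹) := by
    ext i : 1
    obtain ⟨w, rfl⟩ := pt_surj i
    have e1 : rho (t * x * t⁻¹) = rho x := by rw [map_mul, map_mul, map_inv, ht]; simp
    rw [pi_pt, pi_pt, h8, h.ovr, e1]
  exact congrArg (Pool.Agent.Helper38.BN.extF (0 + 1)) h9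

end Pool.Agent.Helper38.D4
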