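import Pool.Agent.Helper88.D4.Stmts6
import Pool.Agent.Helper85.D4.OmD
import Pool.Agent.Helper76.D4.Base

/-!
Homogeneous units at a prime divisor.
-/

set_option autoImplicit false

namespace Pool.Agent.Helper38.D4

open Module Filter Topology Pool.Agent.Helper37.SD Pool.Agent.Helper20.TS Pool.Agent.Helper88.D4
open Pool.Agent.Helper76.D4 (sw14 bra_ge ge_of_mem)

theorem s_UNT : S_UNT := by
  intro K _ _ R ξ J a hC u hu
  obtain ⟨z, b, hz, hne, hv⟩ := Pool.Agent.Helper85.D4.ex_hframe_u hC u hu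
  have hJ := hC.alt
  have hbrk : brk J z = J (z 1) (z 2) (z 3) (z 0) := rfl
  rw [hbrk] at hne hv
  have hz0 : z 0 ≠ 0 := by
    intro h
    rw [h, map_zero] at hne
    exact hne rfl
  have hne' : J (z 0) (z 2) (z 3) (z 1) ≠ 0 := by
    intro h
    rw [sw14 hJ, h, neg_zero] at hne
    exact hne rfl
  have hz1 : z 1 ≠ 0 := by
    intro h
    rw [h, map_zero] at hne'
    exact hne' rfl
  have pos : ∀ i, z i ≠ 0 → (∃ x y w, J x y w (z i) ≠ 0) → 0 < b i := by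
    intro i hi ⟨x, y, w, hx⟩
    have h1 : 0 ≤ b i := hC.toIsCone.eig_nonneg (hz i).1 hi (hz i).2
    rcases h1.lt_or_eq with h | h
    · exact h
    · exfalso
      have h2 : ξ (z i) = 0 := by
        rw [(hz i).2, ← h]
        simp
      obtain ⟨c, hc⟩ := hC.const _ (hz i).1 h2
      rw [hc, Derivation.map_algebraMap] at hx
      exact hx rfl
  obtain ⟨p, hpR, hp0, hp1⟩ := hu.unif
  -- elements with a positive value
  have fac : ∀ x ∈ R, x ≠ 0 → u.val x ≠ 0 → ∃ g, u.Ge 0 g ∧ x = p * g := by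
    intro x hx hx0 hxv
    obtain ⟨n, hn⟩ := hu.int x hx0
    have h1 := hu.nonneg x hx hx0
    rw [hn] at h1 hxv
    have h2 : (1 : ℝ) ≤ n := by
      have h3 : 0 ≤ n := by exact_mod_cast h1
      have h4 : n ≠ 0 := by exact_mod_cast hxv
      have h5 : 1 ≤ n := by omega
      exact_mod_cast h5
    refine ⟨x / p, ?_, by field_simp⟩
    have h3 : u.Ge 1 x := Or.inr (by rw [hn]; exact h2)
    have := u.ge_div h3 hp0
    rwa [hp1, sub_self] at this
  by_cases h0 : u.val (z 0) = 0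
  · exact ⟨z 0, b 0, (hz 0).1, hz0, pos 0 hz0 ⟨_, _, _, hne⟩, (hz 0).2, h0⟩
  by_cases h1 : u.val (z 1) = 0
  · exact ⟨z 1, b 1, (hz 1).1, hz1, pos 1 hz1 ⟨_, _, _, hne'⟩, (hz 1).2, h1⟩
  exfalso
  obtain ⟨g0, hg0, e0⟩ := fac _ (hz 0).1 hz0 h0
  obtain ⟨g1, hg1, e1⟩ := fac _ (hz 1).1 hz1 h1
  have hp : u.Ge 1 p := Or.inr hp1.ge
  have hp' : u.Ge 0 p := ge_of_mem hu hpR
  have h2 := ge_of_mem hu (hz 2).1
  have h3 := ge_of_mem hu (hz 3).1
  have hself : J p (z 2) (z 3) p = 0 := by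
    have := sw14 hJ p (z 2) (z 3) p
    exact Pool.Agent.Helper76.D4.zero_of_neg this
  have e : J (z 1) (z 2) (z 3) (z 0) =
      p * J (z 1) (z 2) (z 3) g0 + p * (-(g0 * J p (z 2) (z 3) g1)) := by
    have k1 : J (z 1) (z 2) (z 3) (z 0) = p * J (z 1) (z 2) (z 3) g0 +
        g0 * J (z 1) (z 2) (z 3) p := by
      rw [e0, Derivation.leibniz, smul_eq_mul, smul_eq_mul]
    have k2 : J (z 1) (z 2) (z 3) p = -(p * J p (z 2) (z 3) g1) := by
      rw [sw14 hJ, e1, Derivation.leibniz, hself, smul_eq_mul, smul_eq_mul, mul_zero, add_zero]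
    rw [k1, k2]
    ring
  have hz1' : u.Ge 0 (z 1) := ge_of_mem hu (hz 1).1
  have t1 : u.Ge (1 + 0) (p * J (z 1) (z 2) (z 3) g0) := u.ge_mul hp (bra_ge hC hu hz1' h2 h3 hg0)
  have t2 : u.Ge (0 + 0) (g0 * J p (z 2) (z 3) g1) := u.ge_mul hg0 (bra_ge hC hu hp' h2 h3 hg1)
  rw [add_zero] at t1 t2
  have t3 : u.Ge (1 + 0) (p * (-(g0 * J p (z 2) (z 3) g1))) := u.ge_mul hp (u.ge_neg t2)
  rw [add_zero] at t3
  have t4 := u.ge_add t1 t3
  rw [← e] at t4
  rcases t4 with t | t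
  · exact hne t
  · rw [hv] at t
    norm_num at t

end Pool.Agent.Helper38.D4
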